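import Mathlib

set_option autoImplicit false

namespace Pool.Agent.TH842.Dup

open Polynomial

noncomputable section

/-- the one-variable operator -/
def Tm (A N i P : ℝ) (m : ℕ) (S : ℝ[X]) : ℝ[X] :=
  C (4 * ((m : ℝ) + 2)) * ((C N - C i * ((C (1 / 2) * (X - C A)) * (C (1 / 2) * (X - C A)))) * S) +
  X * (X * ((C N - C i * ((C (1 / 2) * (X - C A)) * (C (1 / 2) * (X - C A)))) *
      (C 4 * derivative (derivative S)) +
      (-(C (P * i) * (C (1 / 2) * (X - C A)))) * (C 2 * derivative S)) -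
    C (2 * ((m : ℝ) + 2)) * ((C N - C i * ((C (1 / 2) * (X - C A)) * (C (1 / 2) * (X - C A)))) *
      (C 2 * derivative S)) -
    C 2 * ((-(C (P * i) * (C (1 / 2) * (X - C A)))) * S))

/-- expanded form -/
theorem Tm_eq (A N i P : ℝ) (m : ℕ) (S : ℝ[X]) :
    Tm A N i P m S =
      C (((m : ℝ) + 2) * (4 * N - i * A ^ 2)) * S +
      C (2 * ((m : ℝ) + 2) * i * A - P * i * A) * (X ^ 1 * S) +
      C (P * i - ((m : ℝ) + 2) * i) * (X ^ 2 * S) +
      C (-((m : ℝ) + 2) * (4 * N - i * A ^ 2)) * (X ^ 1 * derivative S) +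
      C (P * i * A - 2 * ((m : ℝ) + 2) * i * A) * (X ^ 2 * derivative S) +
      C (((m : ℝ) + 2) * i - P * i) * (X ^ 3 * derivative S) +
      C (4 * N - i * A ^ 2) * (X ^ 2 * derivative (derivative S)) +
      C (2 * i * A) * (X ^ 3 * derivative (derivative S)) +
      C (-i) * (X ^ 4 * derivative (derivative S)) := by
  have h2 : (C (2 : ℝ) : ℝ[X]) = 2 := rfl
  have h4 : (C (4 : ℝ) : ℝ[X]) = 4 := rfl
  have hh : (C (1 / 2 : ℝ) : ℝ[X]) * 2 = 1 := by
    rw [← h2, ← C_mul]; norm_num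
  have hq : (C (1 / 2 : ℝ) : ℝ[X]) * C (1 / 2) * 4 = 1 := by
    rw [← h4, ← C_mul, ← C_mul]; norm_num
  unfold Tm
  simp only [C_mul, C_add, C_sub, C_neg, C_pow, h2, h4]
  generalize hH : (C (1 / 2 : ℝ) : ℝ[X]) = H at hh hq
  generalize derivative (derivative S) = S2
  generalize derivative S = S1
  linear_combination
    (-(C (m : ℝ) + 2) * C i * (X - C A) ^ 2 * S - X ^ 2 * C i * (X - C A) ^ 2 * S2 +
      X * (C (m : ℝ) + 2) * C i * (X - C A) ^ 2 * S1) * hq +
    (-(X ^ 2 * C P * C i * (X - C A) * S1) + X * C P * C i * (X - C A) * S) * hh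

theorem coeff_Tm (A N i P : ℝ) (m : ℕ) (S : ℝ[X]) (j : ℕ) :
    (Tm A N i P m S).coeff (j + 2) =
      (4 * N - i * A ^ 2) * (j + 2 - (m + 2)) * (j + 1) * S.coeff (j + 2) +
      i * A * j * (2 * (j + 1 - (m + 2)) + P) * S.coeff (j + 1) -
      i * (j - 1) * (j - (m + 2) + P) * S.coeff j := by
  rw [Tm_eq]
  simp only [coeff_add, coeff_C_mul, coeff_X_pow_mul', coeff_derivative]
  rcases j with _ | _ | j
  · simp
    ring
  · simp
    ring
  · have e1 : j + 1 + 1 + 2 - 1 = j + 3 := by omega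
    have e2 : j + 1 + 1 + 2 - 2 = j + 2 := by omega
    have e3 : j + 1 + 1 + 2 - 3 = j + 1 := by omega
    have e4 : j + 1 + 1 + 2 - 4 = j := by omega
    have c1 : 1 ≤ j + 1 + 1 + 2 := by omega
    have c2 : 2 ≤ j + 1 + 1 + 2 := by omega
    have c3 : 3 ≤ j + 1 + 1 + 2 := by omega
    have c4 : 4 ≤ j + 1 + 1 + 2 := by omega
    simp only [e1, e2, e3, e4, c1, c2, c3, c4, if_true]
    push_cast
    ring_nf

/-- degree invariant -/
def Inv (q : ℕ) (S : ℝ[X]) : Prop :=
  ∃ k : ℕ, S.natDegree = k + 2 ∧ S.coeff (k + 2) ≠ 0 ∧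
    (q + 1 ≤ k + 2 ∨ (k + 2 ≤ q ∧ S.coeff (k + 2) * S.coeff (k + 1) ≤ 0))

theorem inv_step {A N i : ℝ} {m p q : ℕ} (hA : 0 < A) (hi : 0 < i) (hp : 1 ≤ p) (hn : m + 2 = p + q)
    {S : ℝ[X]} (h : Inv q S) :
    Inv q (Tm A N i p m S) ∧ S.natDegree < (Tm A N i p m S).natDegree := by
  obtain ⟨k, hd, hc, hcase⟩ := h
  have hz : ∀ j, k + 2 < j → S.coeff j = 0 := fun j hj =>
    coeff_eq_zero_of_natDegree_lt (by omega)
  have hnr : ((m : ℝ) + 2) = p + q := by exact_mod_cast hn
  have hp' : (1 : ℝ) ≤ p := by exact_mod_cast hp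
  -- top coefficients
  have t2 : (Tm A N i p m S).coeff (k + 2 + 2) = -(i * (k + 1) * ((k : ℝ) + 2 - q)) *
      S.coeff (k + 2) := by
    rw [coeff_Tm, hz (k + 2 + 2) (by omega), hz (k + 2 + 1) (by omega), hnr]
    push_cast
    ring
  have t1 : (Tm A N i p m S).coeff (k + 3) =
      i * A * (k + 1) * (2 * ((k : ℝ) + 2 - q) - p) * S.coeff (k + 2) -
      i * k * (k + 1 - q) * S.coeff (k + 1) := by
    have h3 : k + 3 = (k + 1) + 2 := by omega
    rw [h3, coeff_Tm, hz (k + 1 + 2) (by omega), hnr]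
    push_cast
    have h4 : k + 1 + 1 = k + 2 := by omega
    rw [h4]
    ring
  have tz : ∀ j, k + 2 + 2 < j → (Tm A N i p m S).coeff j = 0 := by
    intro j hj
    obtain ⟨l, rfl⟩ : ∃ l, j = l + 2 := ⟨j - 2, by omega⟩
    rw [coeff_Tm, hz (l + 2) (by omega), hz (l + 1) (by omega), hz l (by omega)]
    ring
  have hk0 : (0 : ℝ) ≤ k := Nat.cast_nonneg k
  by_cases hkq : k + 2 = q
  · -- the coefficient at `k + 4` vanishes
    have hkq' : (k : ℝ) + 2 - q = 0 := by
      have : ((k + 2 : ℕ) : ℝ) = q := by rw [hkq]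
      push_cast at this; linarith
    have hs : S.coeff (k + 2) * S.coeff (k + 1) ≤ 0 := by
      rcases hcase with h | h
      · omega
      · exact h.2
    have t2' : (Tm A N i p m S).coeff (k + 4) = 0 := by
      have : (Tm A N i p m S).coeff (k + 2 + 2) = 0 := by rw [t2, hkq']; ring
      exact this
    have t1' : (Tm A N i p m S).coeff (k + 3) ≠ 0 := by
      intro h0
      rw [t1] at h0
      have h1 : (i * A * (k + 1) * (2 * ((k : ℝ) + 2 - q) - p) * S.coeff (k + 2) -
        i * k * (k + 1 - q) * S.coeff (k + 1)) * S.coeff (k + 2) = 0 := by rw [h0, zero_mul]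
      have h2 : (k : ℝ) + 1 - q = -1 := by linarith
      rw [hkq', h2] at h1
      have h3 : 0 < S.coeff (k + 2) * S.coeff (k + 2) := mul_self_pos.mpr hc
      have h4 : 0 < i * A * (k + 1) * p * (S.coeff (k + 2) * S.coeff (k + 2)) := by positivity
      have h5 : i * k * (S.coeff (k + 2) * S.coeff (k + 1)) ≤ 0 :=
        mul_nonpos_of_nonneg_of_nonpos (by positivity) hs
      nlinarith
    have hdeg : (Tm A N i p m S).natDegree = k + 3 := by
      apply natDegree_eq_of_le_of_coeff_ne_zero _ t1'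
      rw [natDegree_le_iff_coeff_eq_zero]
      intro j hj
      rcases Nat.lt_or_ge (k + 4) j with h | h
      · exact tz j (by omega)
      · have : j = k + 4 := by omega
        rw [this]; exact t2'
    refine ⟨⟨k + 1, hdeg, t1', Or.inl (by omega)⟩, ?_⟩
    rw [hdeg, hd]; omega
  · have t2' : (Tm A N i p m S).coeff (k + 2 + 2) ≠ 0 := by
      rw [t2]
      have h1 : (k : ℝ) + 2 - q ≠ 0 := by
        intro h
        apply hkq
        have : ((k + 2 : ℕ) : ℝ) = q := by push_cast; linarith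
        exact_mod_cast this
      have h2 : i * (k + 1) * ((k : ℝ) + 2 - q) ≠ 0 := by
        have : (k : ℝ) + 1 ≠ 0 := by positivity
        positivity
      exact mul_ne_zero (neg_ne_zero.mpr h2) hc
    have hdeg : (Tm A N i p m S).natDegree = k + 2 + 2 := by
      apply natDegree_eq_of_le_of_coeff_ne_zero _ t2'
      rw [natDegree_le_iff_coeff_eq_zero]
      exact tz
    refine ⟨⟨k + 2, hdeg, t2', ?_⟩, by rw [hdeg, hd]; omega⟩
    rcases hcase with h | ⟨h, hs⟩
    · left; omega
    · by_cases hq4 : q + 1 ≤ k + 2 + 2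
      · left; exact hq4
      · right
        refine ⟨by omega, ?_⟩
        have h3 : k + 2 + 1 = k + 3 := by omega
        rw [h3, t2, t1]
        have hkq2 : (k : ℝ) + 2 < q := by
          have : k + 2 < q := by omega
          exact_mod_cast this
        have e : -(i * (k + 1) * ((k : ℝ) + 2 - q)) * S.coeff (k + 2) *
            (i * A * (k + 1) * (2 * ((k : ℝ) + 2 - q) - p) * S.coeff (k + 2) -
            i * k * (k + 1 - q) * S.coeff (k + 1)) =
            (i * (k + 1) * (q - ((k : ℝ) + 2))) *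
            (-(i * A * (k + 1) * (2 * (q - ((k : ℝ) + 2)) + p) * (S.coeff (k + 2) ^ 2)) +
            i * k * (q - (k + 1)) * (S.coeff (k + 2) * S.coeff (k + 1))) := by ring
        rw [e]
        apply mul_nonpos_of_nonneg_of_nonpos
        · have : 0 < (q : ℝ) - (k + 2) := by linarith
          positivity
        · have g1 : 0 ≤ i * A * (k + 1) * (2 * (q - ((k : ℝ) + 2)) + p) * (S.coeff (k + 2) ^ 2) := by
            have : 0 < (q : ℝ) - (k + 2) := by linarith
            positivity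
          have g2 : i * k * (q - (k + 1)) * (S.coeff (k + 2) * S.coeff (k + 1)) ≤ 0 := by
            apply mul_nonpos_of_nonneg_of_nonpos _ hs
            have : 0 < (q : ℝ) - (k + 1) := by linarith
            positivity
          linarith

theorem inv_one {A N i : ℝ} {m p q : ℕ} (hA : 0 < A) (hi : 0 < i) (hp : 1 ≤ p) (hq : 1 ≤ q)
    (hn : m + 2 = p + q) : Inv q (Tm A N i p m 1) := by
  have hnr : ((m : ℝ) + 2) = p + q := by exact_mod_cast hn
  have hp' : (1 : ℝ) ≤ p := by exact_mod_cast hp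
  have hq' : (1 : ℝ) ≤ q := by exact_mod_cast hq
  have c2 : (Tm A N i p m 1).coeff 2 = -(i * q) := by
    have := coeff_Tm A N i p m 1 0
    rw [show (2 : ℕ) = 0 + 2 from rfl, this, hnr]
    simp [coeff_one]
  have c1 : (Tm A N i p m 1).coeff 1 = i * A * (p + 2 * q) := by
    rw [Tm_eq]
    simp only [coeff_add, coeff_C_mul, coeff_X_pow_mul', derivative_one, mul_zero, coeff_zero]
    simp [coeff_one]
    linear_combination 2 * i * A * hnr
  have cz : ∀ j, 2 < j → (Tm A N i p m 1).coeff j = 0 := by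
    intro j hj
    obtain ⟨l, rfl⟩ : ∃ l, j = l + 2 := ⟨j - 2, by omega⟩
    rw [coeff_Tm]
    have h1 : (1 : ℝ[X]).coeff (l + 2) = 0 := by rw [coeff_one]; simp
    have h2 : (1 : ℝ[X]).coeff (l + 1) = 0 := by rw [coeff_one]; simp
    have h3 : (1 : ℝ[X]).coeff l = 0 := by
      rw [coeff_one]; simp; omega
    rw [h1, h2, h3]; ring
  have hne : (Tm A N i p m 1).coeff 2 ≠ 0 := by
    rw [c2]
    have : 0 < i * q := by positivity
    linarith
  refine ⟨0, ?_, hne, ?_⟩
  · apply natDegree_eq_of_le_of_coeff_ne_zero _ hne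
    rw [natDegree_le_iff_coeff_eq_zero]
    exact cz
  · by_cases h : q + 1 ≤ 2
    · left; exact h
    · right
      refine ⟨by omega, ?_⟩
      change (Tm A N i p m 1).coeff 2 * (Tm A N i p m 1).coeff 1 ≤ 0
      rw [c1, c2]
      have : 0 ≤ i * q * (i * A * (p + 2 * q)) := by positivity
      linarith

/-- linear independence from increasing degrees -/
theorem indep {S : ℕ → ℝ[X]} (hm : StrictMono fun j => (S j).natDegree) (hne : ∀ j, S j ≠ 0)
    {q : ℝ[X]} (h : ∑ j ∈ Finset.range (q.natDegree + 1), C (q.coeff j) * S j = 0) : q = 0 := by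
  by_contra hq
  have h1 := congrArg (fun T : ℝ[X] => T.coeff (S q.natDegree).natDegree) h
  simp only [finsetSum_coeff, coeff_C_mul, coeff_zero] at h1
  rw [Finset.sum_range_succ, Finset.sum_eq_zero, zero_add] at h1
  · have h2 : q.leadingCoeff * (S q.natDegree).leadingCoeff = 0 := h1
    rcases mul_eq_zero.mp h2 with h3 | h3
    · exact hq (leadingCoeff_eq_zero.mp h3)
    · exact hne _ (leadingCoeff_eq_zero.mp h3)
  · intro j hj
    rw [coeff_eq_zero_of_natDegree_lt (hm (Finset.mem_range.mp hj)), mul_zero]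

/-- the one-variable statement -/
theorem one_var {A N i : ℝ} {m p q : ℕ} (hA : 0 < A) (hi : 0 < i) (hp : 1 ≤ p) (hq : 1 ≤ q)
    (hn : m + 2 = p + q) {Q : ℝ[X]}
    (h : ∑ j ∈ Finset.range (Q.natDegree + 1), C (Q.coeff j) * (Tm A N i p m)^[j] 1 = 0) :
    Q = 0 := by
  have hInv : ∀ j, Inv q ((Tm A N i p m)^[j + 1] 1) := by
    intro j
    induction j with
    | zero => exact inv_one hA hi hp hq hn
    | succ j ih =>
      rw [Function.iterate_succ_apply']
      exact (inv_step hA hi hp hn ih).1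
  have hm : StrictMono fun j => ((Tm A N i p m)^[j] 1).natDegree := by
    apply strictMono_nat_of_lt_succ
    intro j
    rcases j with _ | j
    · obtain ⟨k, hk, _⟩ := hInv 0
      have : ((Tm A N i p m)^[0 + 1] 1).natDegree = k + 2 := hk
      rw [this]
      simp
    · have := (inv_step (N := N) hA hi hp hn (hInv j)).2
      rw [Function.iterate_succ_apply' (Tm A N i p m) (j + 1)]
      exact this
  refine indep hm ?_ h
  intro j h0
  rcases j with _ | j
  · simp at h0
  · obtain ⟨k, _, hk, _⟩ := hInv j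
    rw [h0] at hk
    simp at hk

end

end Pool.Agent.TH842.Dup
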