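import Pool.Agent.TH842.Dup.Geo6
import Pool.Agent.TH842.Dup.Alg

set_option autoImplicit false

namespace Pool.Agent.TH842.Dup

open Polynomial

noncomputable section

theorem sum_map_iter {D : MvPolynomial (Fin 2) ℝ → MvPolynomial (Fin 2) ℝ}
    (ψ : MvPolynomial (Fin 2) ℝ →ₐ[ℝ] ℝ[X]) {T : ℝ[X] → ℝ[X]} (hT : ∀ R, ψ (D R) = T (ψ R))
    (q : ℝ[X]) :
    ψ (∑ j ∈ Finset.range (q.natDegree + 1), MvPolynomial.C (q.coeff j) * D^[j] 1) =
      ∑ j ∈ Finset.range (q.natDegree + 1), C (q.coeff j) * T^[j] 1 := by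
  have h : ∀ j, ψ (D^[j] 1) = T^[j] 1 := by
    intro j
    induction j with
    | zero => simp
    | succ j ih => rw [Function.iterate_succ_apply', Function.iterate_succ_apply', hT, ih]
  rw [map_sum]
  refine Finset.sum_congr rfl fun j _ => ?_
  rw [map_mul, h]
  congr 1
  exact ψ.commutes (q.coeff j)

theorem case_I {A N₁ N₂ i₁ i₂ P Q : ℝ} {m : ℕ} (h1 : 0 < i₁) (h2 : 0 < i₂) {q : ℝ[X]}
    (h : ∑ j ∈ Finset.range (q.natDegree + 1),
      MvPolynomial.C (q.coeff j) * (Dop A N₁ N₂ i₁ i₂ P Q m)^[j] 1 = 0) : q = 0 := by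
  set Y : ℝ[X] := -C (A / 2) - X with hY
  set ψ : MvPolynomial (Fin 2) ℝ →ₐ[ℝ] ℝ[X] := MvPolynomial.aeval ![X, Y] with hψ
  set w : ℝ[X] := C (4 * ((m : ℝ) + 2)) * ((C N₁ - C i₁ * (X * X)) + (C N₂ - C i₂ * (Y * Y)))
    with hw
  have hC : ∀ c : ℝ, ψ (MvPolynomial.C c) = C c := fun c => ψ.commutes c
  have hX0 : ψ (MvPolynomial.X 0) = X := by simp [hψ]
  have hX1 : ψ (MvPolynomial.X 1) = Y := by simp [hψ]
  have hF : ψ (Fp A) = 0 := by
    have h2' : (C (2 : ℝ) : ℝ[X]) * C (A / 2) = C A := by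
      rw [← C_mul]; congr 1; ring
    simp only [Fp, map_add, map_mul, hC, hX0, hX1, hY]
    linear_combination -h2'
  have hT : ∀ R, ψ (Dop A N₁ N₂ i₁ i₂ P Q m R) = w * ψ R := by
    intro R
    unfold Dop
    rw [map_add, map_mul ψ (Fp A), hF, zero_mul, add_zero]
    simp only [map_mul, map_add, map_sub, al, hC, hX0, hX1]
    rw [hw]
    simp only [C_mul, C_add]
    ring
  have h3 := sum_map_iter ψ (T := fun S => w * S) hT q
  rw [h, map_zero] at h3
  have h4 : ∀ j, (fun S : ℝ[X] => w * S)^[j] 1 = w ^ j := by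
    intro j
    induction j with
    | zero => simp
    | succ j ih => rw [Function.iterate_succ_apply', ih, pow_succ']
  simp only [h4] at h3
  have h5 : q.comp w = 0 := by
    rw [comp, eval₂_eq_sum_range, ← h3]
  have hw2 : w.coeff 2 = -(4 * ((m : ℝ) + 2) * (i₁ + i₂)) := by
    have e : w = C (4 * ((m : ℝ) + 2) * (N₁ + N₂ - i₂ * (A / 2) ^ 2)) -
        C (4 * ((m : ℝ) + 2) * (i₂ * A)) * X ^ 1 -
        C (4 * ((m : ℝ) + 2) * (i₁ + i₂)) * X ^ 2 := by
      have h2' : (C (A : ℝ) : ℝ[X]) = 2 * C (A / 2) := by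
        rw [show (2 : ℝ[X]) = C 2 from rfl, ← C_mul]; congr 1; ring
      rw [hw, hY]
      simp only [C_mul, C_add, C_sub, C_pow]
      rw [h2']
      ring
    rw [e]
    simp only [coeff_sub, coeff_C_mul, coeff_X_pow, coeff_C]
    norm_num
  have hm0 : (0 : ℝ) ≤ m := Nat.cast_nonneg m
  have hw2' : w.coeff 2 ≠ 0 := by
    rw [hw2]
    have : 0 < 4 * ((m : ℝ) + 2) * (i₁ + i₂) := by positivity
    linarith
  have hd : w.natDegree ≠ 0 := by
    have := le_natDegree_of_ne_zero hw2'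
    omega
  by_contra hq
  have h6 := leadingCoeff_comp (p := q) hd
  rw [h5, leadingCoeff_zero] at h6
  have hwn : w ≠ 0 := fun h0 => hw2' (by rw [h0, coeff_zero])
  exact mul_ne_zero (leadingCoeff_ne_zero.mpr hq)
    (pow_ne_zero _ (leadingCoeff_ne_zero.mpr hwn)) h6.symm

/-- substitution for the case `b = 0` -/
def psi2 (A : ℝ) : MvPolynomial (Fin 2) ℝ →ₐ[ℝ] ℝ[X] :=
  MvPolynomial.aeval ![C (1 / 2) * (X - C A), 0]

/-- substitution for the case `a = 0` -/
def psi3 (A : ℝ) : MvPolynomial (Fin 2) ℝ →ₐ[ℝ] ℝ[X] :=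
  MvPolynomial.aeval ![0, C (1 / 2) * (X - C A)]

theorem deriv_aeval (u v : ℝ[X]) (R : MvPolynomial (Fin 2) ℝ) :
    derivative (MvPolynomial.aeval ![u, v] R) =
      MvPolynomial.aeval ![u, v] (MvPolynomial.pderiv 0 R) * derivative u +
      MvPolynomial.aeval ![u, v] (MvPolynomial.pderiv 1 R) * derivative v := by
  induction R using MvPolynomial.induction_on with
  | C c => simp
  | add f g hf hg => simp only [map_add, hf, hg]; ring
  | mul_X f i hf =>
    fin_cases i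
    · change derivative (MvPolynomial.aeval ![u, v] (f * MvPolynomial.X 0)) =
        MvPolynomial.aeval ![u, v] (MvPolynomial.pderiv 0 (f * MvPolynomial.X 0)) * derivative u +
        MvPolynomial.aeval ![u, v] (MvPolynomial.pderiv 1 (f * MvPolynomial.X 0)) * derivative v
      rw [MvPolynomial.pderiv_mul,
        MvPolynomial.pderiv_mul, MvPolynomial.pderiv_X_self,
        MvPolynomial.pderiv_X_of_ne (by decide : (0 : Fin 2) ≠ 1)]
      simp only [map_add, map_mul, derivative_mul, hf, MvPolynomial.aeval_X, map_one, map_zero,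
        Matrix.cons_val_zero]
      ring
    · change derivative (MvPolynomial.aeval ![u, v] (f * MvPolynomial.X 1)) =
        MvPolynomial.aeval ![u, v] (MvPolynomial.pderiv 0 (f * MvPolynomial.X 1)) * derivative u +
        MvPolynomial.aeval ![u, v] (MvPolynomial.pderiv 1 (f * MvPolynomial.X 1)) * derivative v
      rw [MvPolynomial.pderiv_mul,
        MvPolynomial.pderiv_mul, MvPolynomial.pderiv_X_self,
        MvPolynomial.pderiv_X_of_ne (by decide : (1 : Fin 2) ≠ 0)]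
      simp only [map_add, map_mul, derivative_mul, hf, MvPolynomial.aeval_X, map_one, map_zero,
        Matrix.cons_val_one, Matrix.cons_val_fin_one]
      ring

theorem psi2_pderiv (A : ℝ) (R : MvPolynomial (Fin 2) ℝ) :
    psi2 A (MvPolynomial.pderiv 0 R) = C 2 * derivative (psi2 A R) := by
  have h := deriv_aeval (C (1 / 2) * (X - C A)) 0 R
  have h1 : derivative (C (1 / 2 : ℝ) * (X - C A)) = C (1 / 2) := by
    simp [derivative_mul]
  rw [h1, derivative_zero, mul_zero, add_zero] at h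
  unfold psi2
  rw [h]
  have hh : (C (2 : ℝ) : ℝ[X]) * C (1 / 2) = 1 := by
    rw [← C_mul]; norm_num
  linear_combination (-(MvPolynomial.aeval ![C (1 / 2) * (X - C A), 0]
    (MvPolynomial.pderiv 0 R))) * hh

theorem psi3_pderiv (A : ℝ) (R : MvPolynomial (Fin 2) ℝ) :
    psi3 A (MvPolynomial.pderiv 1 R) = C 2 * derivative (psi3 A R) := by
  have h := deriv_aeval 0 (C (1 / 2) * (X - C A)) R
  have h1 : derivative (C (1 / 2 : ℝ) * (X - C A)) = C (1 / 2) := by
    simp [derivative_mul]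
  rw [h1, derivative_zero, mul_zero, zero_add] at h
  unfold psi3
  rw [h]
  have hh : (C (2 : ℝ) : ℝ[X]) * C (1 / 2) = 1 := by
    rw [← C_mul]; norm_num
  linear_combination (-(MvPolynomial.aeval ![0, C (1 / 2) * (X - C A)]
    (MvPolynomial.pderiv 1 R))) * hh

theorem psi2_Dop (A N₁ i₁ i₂ P Q : ℝ) (m : ℕ) (R : MvPolynomial (Fin 2) ℝ) :
    psi2 A (Dop A N₁ 0 i₁ i₂ P Q m R) = Tm A N₁ i₁ P m (psi2 A R) := by
  have hC : ∀ c : ℝ, psi2 A (MvPolynomial.C c) = C c := fun c => (psi2 A).commutes c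
  have hX0 : psi2 A (MvPolynomial.X 0) = C (1 / 2) * (X - C A) := by simp [psi2]
  have hX1 : psi2 A (MvPolynomial.X 1) = 0 := by simp [psi2]
  have hF : psi2 A (Fp A) = X := by
    have hh : (C (2 : ℝ) : ℝ[X]) * C (1 / 2) = 1 := by
      rw [← C_mul]; norm_num
    simp only [Fp, map_add, map_mul, hC, hX0, hX1, mul_zero, add_zero]
    linear_combination (X - C A) * hh
  have h00 : psi2 A (MvPolynomial.pderiv 0 (MvPolynomial.pderiv 0 R)) =
      C 4 * derivative (derivative (psi2 A R)) := by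
    rw [psi2_pderiv, psi2_pderiv, derivative_C_mul, ← mul_assoc, ← C_mul]
    norm_num
  unfold Dop Tm
  simp only [map_add, map_mul, map_sub, map_neg, hF, al, be, hC, hX0, hX1, h00,
    psi2_pderiv, mul_zero, zero_mul, neg_zero, add_zero, sub_zero, C_0]

theorem psi3_Dop (A N₂ i₁ i₂ P Q : ℝ) (m : ℕ) (R : MvPolynomial (Fin 2) ℝ) :
    psi3 A (Dop A 0 N₂ i₁ i₂ P Q m R) = Tm A N₂ i₂ Q m (psi3 A R) := by
  have hC : ∀ c : ℝ, psi3 A (MvPolynomial.C c) = C c := fun c => (psi3 A).commutes c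
  have hX0 : psi3 A (MvPolynomial.X 0) = 0 := by simp [psi3]
  have hX1 : psi3 A (MvPolynomial.X 1) = C (1 / 2) * (X - C A) := by simp [psi3]
  have hF : psi3 A (Fp A) = X := by
    have hh : (C (2 : ℝ) : ℝ[X]) * C (1 / 2) = 1 := by
      rw [← C_mul]; norm_num
    simp only [Fp, map_add, map_mul, hC, hX0, hX1, mul_zero, add_zero]
    linear_combination (X - C A) * hh
  have h11 : psi3 A (MvPolynomial.pderiv 1 (MvPolynomial.pderiv 1 R)) =
      C 4 * derivative (derivative (psi3 A R)) := by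
    rw [psi3_pderiv, psi3_pderiv, derivative_C_mul, ← mul_assoc, ← C_mul]
    norm_num
  unfold Dop Tm
  simp only [map_add, map_mul, map_sub, map_neg, hF, al, be, hC, hX0, hX1, h11,
    psi3_pderiv, mul_zero, zero_mul, neg_zero, add_zero, zero_add, sub_zero, C_0]

theorem case_II {A N₁ i₁ i₂ Q : ℝ} {m p q : ℕ} (hA : 0 < A) (hi : 0 < i₁) (hp : 1 ≤ p)
    (hq : 1 ≤ q) (hn : m + 2 = p + q) {T : ℝ[X]}
    (h : psi2 A (∑ j ∈ Finset.range (T.natDegree + 1),
      MvPolynomial.C (T.coeff j) * (Dop A N₁ 0 i₁ i₂ p Q m)^[j] 1) = 0) : T = 0 := by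
  rw [sum_map_iter (psi2 A) (fun R => psi2_Dop A N₁ i₁ i₂ p Q m R) T] at h
  exact one_var hA hi hp hq hn h

theorem case_III {A N₂ i₁ i₂ P : ℝ} {m p q : ℕ} (hA : 0 < A) (hi : 0 < i₂) (hp : 1 ≤ p)
    (hq : 1 ≤ q) (hn : m + 2 = p + q) {T : ℝ[X]}
    (h : psi3 A (∑ j ∈ Finset.range (T.natDegree + 1),
      MvPolynomial.C (T.coeff j) * (Dop A 0 N₂ i₁ i₂ P q m)^[j] 1) = 0) : T = 0 := by
  rw [sum_map_iter (psi3 A) (fun R => psi3_Dop A N₂ i₁ i₂ P q m R) T] at h
  exact one_var hA hi hq hp (by omega) h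

end

end Pool.Agent.TH842.Dup
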