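import Pool.Agent.TH842.Dup.Rel

set_option autoImplicit false
set_option linter.unusedSectionVars false

namespace Pool.Agent.TH842.Dup

open Matrix

noncomputable section

section Gen

variable {ι κ : Type} [Fintype ι] [DecidableEq ι] [Fintype κ]
variable {U : Set (ι → ℝ)} {y : (ι → ℝ) → (κ → ℝ)}

theorem lap_zero_of_pd {g : (ι → ℝ) → ℝ} (hU : IsOpen U) (h : ∀ q ∈ U, ∀ j, pd j g q = 0)
    {p : ι → ℝ} (hp : p ∈ U) : lap y g p = 0 := by
  rw [lap_eq]
  have h1 : ∀ i, ∀ q ∈ U, flux y g i q = 0 := by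
    intro i q hq
    unfold flux
    simp [h q hq]
  have h2 : ∀ i, pd i (flux y g i) p = 0 := by
    intro i
    rw [pd_congr hU hp (h1 i) i]; exact pd_const i 0 p
  simp [h2]

theorem pd_zero_of_const {g : (ι → ℝ) → ℝ} (hU : IsOpen U) {c : ℝ} (h : ∀ q ∈ U, g q = c)
    {p : ι → ℝ} (hp : p ∈ U) (j : ι) : pd j g p = 0 := by
  rw [pd_congr hU hp h j]; exact pd_const j c p

theorem no_const_sq {g : (ι → ℝ) → ℝ} (hU : IsOpen U) (hne : U.Nonempty) (sg : Sm U g) {c lam : ℝ}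
    (hc : ∀ q ∈ U, g q * g q = c) (hc0 : c ≠ 0) (hl : ∀ q ∈ U, lap y g q = -(lam * g q))
    (hlam : lam ≠ 0) : False := by
  obtain ⟨p, hp⟩ := hne
  have hg : ∀ q ∈ U, g q ≠ 0 := by
    intro q hq h0
    apply hc0
    rw [← hc q hq, h0, mul_zero]
  have h1 : ∀ q ∈ U, ∀ j, pd j g q = 0 := by
    intro q hq j
    have h2 : pd j (fun q => g q * g q) q = 0 := pd_zero_of_const hU hc hq j
    rw [pd_mul hU sg sg hq] at h2
    have h3 : 2 * g q * pd j g q = 0 := by linarith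
    exact (mul_eq_zero.mp h3).resolve_left (mul_ne_zero two_ne_zero (hg q hq))
  have h4 : lap y g p = 0 := lap_zero_of_pd hU h1 hp
  rw [hl p hp] at h4
  have h5 : lam * g p = 0 := by linarith
  rcases mul_eq_zero.mp h5 with h | h
  · exact hlam h
  · exact hg p hp h

theorem Imm.mono (H : Imm U y) {U' : Set (ι → ℝ)} (hU' : IsOpen U') (h : U' ⊆ U) : Imm U' y :=
  ⟨hU', fun k => (H.sm k).mono h, fun p hp => H.det_pos p (h hp)⟩

end Gen

variable {ι κ₁ κ₂ : Type} [Fintype ι] [DecidableEq ι] [Fintype κ₁] [Fintype κ₂]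
  [DecidableEq κ₁] [DecidableEq κ₂]
variable {U : Set (ι → ℝ)} {y : (ι → ℝ) → (κ₁ ⊕ κ₂ → ℝ)} {r s : ℝ} {v : κ₁ ⊕ κ₂ → ℝ}

theorem SphProd.mono (S : SphProd U y r s) {U' : Set (ι → ℝ)} (hU' : IsOpen U') (h : U' ⊆ U) :
    SphProd U' y r s :=
  ⟨S.imm.mono hU' h, S.card, S.rpos, S.spos, fun q hq => S.h1 q (h hq), fun q hq => S.h2 q (h hq)⟩

/-- `|∇a|²` -/
def alf (v : κ₁ ⊕ κ₂ → ℝ) (y : (ι → ℝ) → (κ₁ ⊕ κ₂ → ℝ)) (r : ℝ) (p : ι → ℝ) : ℝ :=
  N1 v - 1 / (r * r) * (af v y p * af v y p)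

/-- `|∇b|²` -/
def bef (v : κ₁ ⊕ κ₂ → ℝ) (y : (ι → ℝ) → (κ₁ ⊕ κ₂ → ℝ)) (s : ℝ) (p : ι → ℝ) : ℝ :=
  N2 v - 1 / (s * s) * (bf v y p * bf v y p)

theorem SphProd.exists_alf (S : SphProd U y r s) (hne : U.Nonempty) (hP : 2 ≤ Fintype.card κ₁)
    (hN : N1 v ≠ 0) : ∃ p ∈ U, alf v y r p ≠ 0 := by
  by_contra h
  push Not at h
  have hr := S.rpos.ne'
  have hP' : (2 : ℝ) ≤ Fintype.card κ₁ := by exact_mod_cast hP
  refine no_const_sq (y := y) (g := af v y) (c := r * r * N1 v)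
    (lam := ((Fintype.card κ₁ : ℝ) - 1) * (1 / (r * r))) S.imm.isOpen hne (S.imm.sm_lin _) ?_
    (mul_ne_zero (mul_ne_zero hr hr) hN) (fun q hq => S.lap_a hq) ?_
  · intro q hq
    have h1 := h q hq
    unfold alf at h1
    have h2 : N1 v = 1 / (r * r) * (af v y q * af v y q) := by linarith
    rw [h2]; field_simp
  · have : (0 : ℝ) < (Fintype.card κ₁ : ℝ) - 1 := by linarith
    have hr' := S.rpos
    positivity

theorem SphProd.exists_bef (S : SphProd U y r s) (hne : U.Nonempty) (hP : 2 ≤ Fintype.card κ₂)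
    (hN : N2 v ≠ 0) : ∃ p ∈ U, bef v y s p ≠ 0 := by
  by_contra h
  push Not at h
  have hs := S.spos.ne'
  have hP' : (2 : ℝ) ≤ Fintype.card κ₂ := by exact_mod_cast hP
  refine no_const_sq (y := y) (g := bf v y) (c := s * s * N2 v)
    (lam := ((Fintype.card κ₂ : ℝ) - 1) * (1 / (s * s))) S.imm.isOpen hne (S.imm.sm_lin _) ?_
    (mul_ne_zero (mul_ne_zero hs hs) hN) (fun q hq => S.lap_b hq) ?_
  · intro q hq
    have h1 := h q hq
    unfold bef at h1
    have h2 : N2 v = 1 / (s * s) * (bf v y q * bf v y q) := by linarith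
    rw [h2]; field_simp
  · have : (0 : ℝ) < (Fintype.card κ₂ : ℝ) - 1 := by linarith
    have hs' := S.spos
    positivity

theorem SphProd.exists_both (S : SphProd U y r s) (hne : U.Nonempty) (hP : 2 ≤ Fintype.card κ₁)
    (hQ : 2 ≤ Fintype.card κ₂) (hN : N1 v ≠ 0) (hN' : N2 v ≠ 0) :
    ∃ p ∈ U, alf v y r p ≠ 0 ∧ bef v y s p ≠ 0 := by
  obtain ⟨p, hp, hpa⟩ := S.exists_alf hne hP hN
  have hcont : ContinuousOn (alf v y r) U := by
    have := (S.imm.sm_lin (V1 v)).continuousOn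
    unfold alf
    exact continuousOn_const.sub (continuousOn_const.mul (this.mul this))
  have hU1 : IsOpen (U ∩ alf v y r ⁻¹' {0}ᶜ) :=
    hcont.isOpen_inter_preimage S.imm.isOpen isOpen_compl_singleton
  have S1 := S.mono hU1 Set.inter_subset_left
  obtain ⟨q, hq, hqb⟩ := S1.exists_bef (v := v) ⟨p, hp, hpa⟩ hQ hN'
  exact ⟨q, hq.1, hq.2, hqb⟩

/-- a polynomial relation between `a` and `b` on `U` is trivial -/
theorem SphProd.poly_zero (S : SphProd U y r s) (hne : U.Nonempty) (hP : 2 ≤ Fintype.card κ₁)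
    (hQ : 2 ≤ Fintype.card κ₂) (hN : N1 v ≠ 0) (hN' : N2 v ≠ 0) {R : MvPolynomial (Fin 2) ℝ}
    (h : ∀ p ∈ U, ev (af v y) (bf v y) R p = 0) : R = 0 := by
  obtain ⟨p, hp, hpa, hpb⟩ := S.exists_both hne hP hQ hN hN'
  have hU := S.imm.isOpen
  set a := af v y with ha
  set b := bf v y with hb
  have sa : Sm U a := S.imm.sm_lin _
  have sb : Sm U b := S.imm.sm_lin _
  have hsa : HasStrictFDerivAt a (fderiv ℝ a p) p :=
    (sa.contDiffAt (hU.mem_nhds hp)).hasStrictFDerivAt (by simp)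
  have hsb : HasStrictFDerivAt b (fderiv ℝ b p) p :=
    (sb.contDiffAt (hU.mem_nhds hp)).hasStrictFDerivAt (by simp)
  set G : (ι → ℝ) → (Fin 2 → ℝ) := fun q => ![a q, b q] with hG
  set G' : (ι → ℝ) →L[ℝ] (Fin 2 → ℝ) :=
    ContinuousLinearMap.pi ![fderiv ℝ a p, fderiv ℝ b p] with hG'
  have hsG : HasStrictFDerivAt G G' p := by
    rw [hasStrictFDerivAt_pi']
    intro i
    fin_cases i
    · exact hsa
    · exact hsb
  have key : ∀ (g : (ι → ℝ) → ℝ), Sm U g → ∀ u : ι → ℝ, fderiv ℝ g p u = ∑ i, u i * pd i g p := by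
    intro g sg u
    have h1 : u = ∑ i, u i • (Pi.single i (1 : ℝ) : ι → ℝ) := by
      funext j
      simp [Finset.sum_apply, Pi.single_apply]
    conv_lhs => rw [h1]
    rw [map_sum]
    refine Finset.sum_congr rfl fun i _ => ?_
    rw [map_smul, smul_eq_mul, pd_eq_fderiv hU sg hp]
  have hGam : ∀ f g : (ι → ℝ) → ℝ, Sm U g →
      fderiv ℝ g p (fun i => ∑ j, (gram y p)⁻¹ i j * pd j f p) = Gam y g f p := by
    intro f g sg
    rw [key g sg]
    unfold Gam
    refine Finset.sum_congr rfl fun i _ => ?_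
    rw [Finset.sum_mul]
    exact Finset.sum_congr rfl fun j _ => by ring
  have hsurj : G'.range = ⊤ := by
    rw [LinearMap.range_eq_top]
    intro z
    refine ⟨(z 0 / alf v y r p) • (fun i => ∑ j, (gram y p)⁻¹ i j * pd j a p) +
      (z 1 / bef v y s p) • (fun i => ∑ j, (gram y p)⁻¹ i j * pd j b p), ?_⟩
    funext i
    fin_cases i
    · change fderiv ℝ a p _ = z 0
      rw [map_add, map_smul, map_smul, hGam a a sa, hGam b a sa, S.Gam_aa hp, S.Gam_ab hp]
      change z 0 / alf v y r p * alf v y r p + _ * 0 = z 0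
      field_simp
      ring
    · change fderiv ℝ b p _ = z 1
      rw [map_add, map_smul, map_smul, hGam a b sb, hGam b b sb, S.Gam_bb hp, Gam_comm y b a,
        S.Gam_ab hp]
      change _ * 0 + z 1 / bef v y s p * bef v y s p = z 1
      field_simp
      ring
  have hmap := hsG.map_nhds_eq_of_surj hsurj
  have hmem : {z : Fin 2 → ℝ | MvPolynomial.eval z R = 0} ∈ nhds (G p) := by
    rw [← hmap, Filter.mem_map]
    filter_upwards [hU.mem_nhds hp] with q hq
    exact h q hq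
  obtain ⟨ε, hε, hball⟩ := Metric.mem_nhds_iff.mp hmem
  refine MvPolynomial.funext_set (fun i => Set.Ioo (G p i - ε) (G p i + ε))
    (fun i => Set.Ioo_infinite (by linarith)) ?_
  intro z hz
  rw [map_zero]
  apply hball
  rw [Metric.mem_ball, dist_pi_lt_iff hε]
  intro i
  have := hz i (Set.mem_univ i)
  rw [Real.dist_eq, abs_lt]
  constructor
  · linarith [this.1]
  · linarith [this.2]

theorem SphProd.a_nonconst (S : SphProd U y r s) (hne : U.Nonempty) (hP : 2 ≤ Fintype.card κ₁)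
    (hN : N1 v ≠ 0) : ¬ ∃ c, ∀ q ∈ U, af v y q = c := by
  rintro ⟨c, hc⟩
  have hU := S.imm.isOpen
  have hr := S.rpos
  have hP' : (2 : ℝ) ≤ Fintype.card κ₁ := by exact_mod_cast hP
  obtain ⟨p, hp⟩ := hne
  have h1 : ∀ q ∈ U, ∀ j, pd j (af v y) q = 0 := fun q hq j => pd_zero_of_const hU hc hq j
  have h2 := S.lap_a (v := v) hp
  rw [lap_zero_of_pd hU h1 hp] at h2
  have h3 : af v y p = 0 := by
    have h4 : ((Fintype.card κ₁ : ℝ) - 1) * (1 / (r * r)) * af v y p = 0 := by linarith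
    refine (mul_eq_zero.mp h4).resolve_left ?_
    have : (0 : ℝ) < (Fintype.card κ₁ : ℝ) - 1 := by linarith
    positivity
  have h5 := S.Gam_aa (v := v) hp
  have h6 : Gam y (af v y) (af v y) p = 0 := by
    unfold Gam
    simp [h1 p hp]
  rw [h6, h3] at h5
  apply hN
  linarith

theorem SphProd.b_nonconst (S : SphProd U y r s) (hne : U.Nonempty) (hP : 2 ≤ Fintype.card κ₂)
    (hN : N2 v ≠ 0) : ¬ ∃ c, ∀ q ∈ U, bf v y q = c := by
  rintro ⟨c, hc⟩
  have hU := S.imm.isOpen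
  have hs := S.spos
  have hP' : (2 : ℝ) ≤ Fintype.card κ₂ := by exact_mod_cast hP
  obtain ⟨p, hp⟩ := hne
  have h1 : ∀ q ∈ U, ∀ j, pd j (bf v y) q = 0 := fun q hq j => pd_zero_of_const hU hc hq j
  have h2 := S.lap_b (v := v) hp
  rw [lap_zero_of_pd hU h1 hp] at h2
  have h3 : bf v y p = 0 := by
    have h4 : ((Fintype.card κ₂ : ℝ) - 1) * (1 / (s * s)) * bf v y p = 0 := by linarith
    refine (mul_eq_zero.mp h4).resolve_left ?_
    have : (0 : ℝ) < (Fintype.card κ₂ : ℝ) - 1 := by linarith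
    positivity
  have h5 := S.Gam_bb (v := v) hp
  have h6 : Gam y (bf v y) (bf v y) p = 0 := by
    unfold Gam
    simp [h1 p hp]
  rw [h6, h3] at h5
  apply hN
  linarith

theorem eval_aeval (t : ℝ) (f : Fin 2 → Polynomial ℝ) (R : MvPolynomial (Fin 2) ℝ) :
    Polynomial.eval t (MvPolynomial.aeval f R) =
      MvPolynomial.eval (fun i => Polynomial.eval t (f i)) R := by
  induction R using MvPolynomial.induction_on with
  | C c => simp
  | add p q hp hq => simp only [map_add, Polynomial.eval_add, hp, hq]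
  | mul_X p i hp => simp only [map_mul, Polynomial.eval_mul, hp, MvPolynomial.aeval_X,
      MvPolynomial.eval_X]

/-- a one-variable polynomial vanishing on a non-constant continuous function is zero -/
theorem poly_zero_of_nonconst (hc : IsPreconnected U) {g : (ι → ℝ) → ℝ} (hg : ContinuousOn g U)
    (hn : ¬ ∃ c, ∀ q ∈ U, g q = c) (hne : U.Nonempty) {R : Polynomial ℝ}
    (h : ∀ q ∈ U, R.eval (g q) = 0) : R = 0 := by
  obtain ⟨p, hp⟩ := hne
  push Not at hn
  obtain ⟨q, hq, hpq⟩ := hn (g p)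
  have himg : IsPreconnected (g '' U) := hc.image g hg
  have hinf : (g '' U).Infinite := by
    rcases lt_or_gt_of_ne hpq with h1 | h1
    · exact (Set.Icc_infinite h1).mono (himg.Icc_subset ⟨q, hq, rfl⟩ ⟨p, hp, rfl⟩)
    · exact (Set.Icc_infinite h1).mono (himg.Icc_subset ⟨p, hp, rfl⟩ ⟨q, hq, rfl⟩)
  apply Polynomial.eq_zero_of_infinite_isRoot
  refine hinf.mono ?_
  rintro _ ⟨z, hz, rfl⟩
  exact h z hz

theorem psi3_eval (A t : ℝ) (R : MvPolynomial (Fin 2) ℝ) :
    (psi3 A R).eval (A + 2 * t) = MvPolynomial.eval ![0, t] R := by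
  unfold psi3
  rw [eval_aeval]
  congr 2
  funext i
  fin_cases i
  · simp
  · simp

theorem psi2_eval (A t : ℝ) (R : MvPolynomial (Fin 2) ℝ) :
    (psi2 A R).eval (A + 2 * t) = MvPolynomial.eval ![t, 0] R := by
  unfold psi2
  rw [eval_aeval]
  congr 2
  funext i
  fin_cases i
  · simp
  · simp

theorem SphProd.poly_zero3 (S : SphProd U y r s) (hconn : IsConnected U)
    (hQ : 2 ≤ Fintype.card κ₂) (h1 : N1 v = 0) (h2 : N2 v ≠ 0) {R : MvPolynomial (Fin 2) ℝ}
    (h : ∀ p ∈ U, ev (af v y) (bf v y) R p = 0) : psi3 (1 + nsq v) R = 0 := by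
  have hne := hconn.nonempty
  have hv1 : ∀ a, v (Sum.inl a) = 0 := by
    intro a
    have := (Finset.sum_eq_zero_iff_of_nonneg (fun _ _ => mul_self_nonneg _)).mp h1 a
      (Finset.mem_univ a)
    simpa using this
  have ha0 : ∀ z, af v y z = 0 := by
    intro z
    unfold af lin V1
    rw [Fintype.sum_sum_type]
    simp [hv1]
  have hcont : ContinuousOn (fun z => 1 + nsq v + 2 * bf v y z) U :=
    continuousOn_const.add (continuousOn_const.mul (S.imm.sm_lin (V2 v)).continuousOn)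
  refine poly_zero_of_nonconst hconn.isPreconnected hcont ?_ hne ?_
  · rintro ⟨c, hc⟩
    exact S.b_nonconst hne hQ h2 ⟨(c - 1 - nsq v) / 2, fun z hz => by
      have := hc z hz
      linarith⟩
  · intro z hz
    rw [psi3_eval]
    have h3 := h z hz
    unfold ev at h3
    rwa [ha0 z] at h3

theorem SphProd.poly_zero2 (S : SphProd U y r s) (hconn : IsConnected U)
    (hP : 2 ≤ Fintype.card κ₁) (h1 : N1 v ≠ 0) (h2 : N2 v = 0) {R : MvPolynomial (Fin 2) ℝ}
    (h : ∀ p ∈ U, ev (af v y) (bf v y) R p = 0) : psi2 (1 + nsq v) R = 0 := by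
  have hne := hconn.nonempty
  have hv2 : ∀ a, v (Sum.inr a) = 0 := by
    intro a
    have := (Finset.sum_eq_zero_iff_of_nonneg (fun _ _ => mul_self_nonneg _)).mp h2 a
      (Finset.mem_univ a)
    simpa using this
  have hb0 : ∀ z, bf v y z = 0 := by
    intro z
    unfold bf lin V2
    rw [Fintype.sum_sum_type]
    simp [hv2]
  have hcont : ContinuousOn (fun z => 1 + nsq v + 2 * af v y z) U :=
    continuousOn_const.add (continuousOn_const.mul (S.imm.sm_lin (V1 v)).continuousOn)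
  refine poly_zero_of_nonconst hconn.isPreconnected hcont ?_ hne ?_
  · rintro ⟨c, hc⟩
    exact S.a_nonconst hne hP h1 ⟨(c - 1 - nsq v) / 2, fun z hz => by
      have := hc z hz
      linarith⟩
  · intro z hz
    rw [psi2_eval]
    have h3 := h z hz
    unfold ev at h3
    rwa [hb0 z] at h3

/-- **Main step.** -/
theorem SphProd.not_finite (S : SphProd U y r s) (hconn : IsConnected U)
    (hrs : r * r + s * s = 1) (hv : nsq v < 1) {p q : ℕ} (hp : 1 ≤ p) (hq : 1 ≤ q)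
    (hκ₁ : Fintype.card κ₁ = p + 1) (hκ₂ : Fintype.card κ₂ = q + 1) (hv0 : v ≠ 0) {k : ℕ}
    (hx : IsKType k U (mob v y)) : False := by
  have hne := hconn.nonempty
  have hr := S.rpos
  have hs := S.spos
  have hcard := S.card
  rw [Fintype.card_sum, hκ₁, hκ₂] at hcard
  obtain ⟨m, hm⟩ : ∃ m, Fintype.card ι = m + 2 := ⟨p + q - 2, by omega⟩
  have hn : m + 2 = p + q := by omega
  obtain ⟨T, hT0, hT⟩ := S.relation hrs hv hm hx
  have hsplit : nsq v = N1 v + N2 v := by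
    unfold nsq N1 N2; rw [Fintype.sum_sum_type]
  have hnn : nsq v ≠ 0 := fun h => hv0 (nsq_eq_zero h)
  have hA : 0 < 1 + nsq v := by have := nsq_nonneg v; linarith
  have hi1 : 0 < 1 / (r * r) := by positivity
  have hi2 : 0 < 1 / (s * s) := by positivity
  have hP : 2 ≤ Fintype.card κ₁ := by omega
  have hQ : 2 ≤ Fintype.card κ₂ := by omega
  have hcp : ((Fintype.card κ₁ : ℝ) - 1) = p := by rw [hκ₁]; push_cast; ring
  have hcq : ((Fintype.card κ₂ : ℝ) - 1) = q := by rw [hκ₂]; push_cast; ring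
  by_cases h1 : N1 v = 0
  · have h2 : N2 v ≠ 0 := fun h => hnn (by rw [hsplit, h1, h, add_zero])
    have h3 := S.poly_zero3 hconn hQ h1 h2 hT
    have hD : DD κ₁ κ₂ v r s m = Dop (1 + nsq v) 0 (N2 v) (1 / (r * r)) (1 / (s * s)) p q m := by
      unfold DD; rw [h1, hcp, hcq]
    rw [hD] at h3
    exact hT0 (case_III hA hi2 hp hq hn h3)
  · by_cases h2 : N2 v = 0
    · have h3 := S.poly_zero2 hconn hP h1 h2 hT
      have hD : DD κ₁ κ₂ v r s m = Dop (1 + nsq v) (N1 v) 0 (1 / (r * r)) (1 / (s * s)) p q m := by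
        unfold DD; rw [h2, hcp, hcq]
      rw [hD] at h3
      exact hT0 (case_II hA hi1 hp hq hn h3)
    · have h3 := S.poly_zero hne hP hQ h1 h2 hT
      unfold DD at h3
      exact hT0 (case_I hi1 hi2 h3)

end

end Pool.Agent.TH842.Dup
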