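import Mathlib

set_option autoImplicit false

namespace Pool.Agent.TH842.Dup

open Finset

/-- eigenvectors of a lower bidiagonal matrix and the expansion of the first basis vector -/
theorem chain (m : ℕ) : ∀ (f g : ℕ → ℝ), (∀ i j, i ≤ m → j ≤ m → f i = f j → i = j) →
    (∀ i, i < m → g i ≠ 0) →
    ∃ c : ℕ → ℕ → ℝ, (∀ j ≤ m, c j j ≠ 0) ∧ (∀ j ≤ m, f 0 * c j 0 = f j * c j 0) ∧
      (∀ j ≤ m, ∀ i < m, f (i + 1) * c j (i + 1) + g i * c j i = f j * c j (i + 1)) ∧
      (∑ j ∈ range (m + 1), c j 0 = 1) ∧ (∀ i < m, ∑ j ∈ range (m + 1), c j (i + 1) = 0) := by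
  induction m with
  | zero =>
    intro f g _ _
    refine ⟨fun _ _ => 1, fun _ _ => one_ne_zero, ?_, ?_, by simp, ?_⟩
    · intro j hj
      obtain rfl : j = 0 := by omega
      rfl
    · intro j _ i hi; omega
    · intro i hi; omega
  | succ m ih =>
    intro f g hf hg
    obtain ⟨c', h1, h2, h3, h4, h5⟩ := ih (fun i => f (i + 1)) (fun i => g (i + 1))
      (fun i j hi hj h => by
        have := hf (i + 1) (j + 1) (by omega) (by omega) h
        omega)
      (fun i hi => hg (i + 1) (by omega))
    have hne : ∀ j ≤ m, f (j + 1) - f 0 ≠ 0 := by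
      intro j hj h
      have := hf (j + 1) 0 (by omega) (by omega) (by linarith)
      omega
    set K : ℕ → ℝ := fun j => g 0 / (f (j + 1) - f 0) with hK
    have hKf : ∀ j ≤ m, K j * (f (j + 1) - f 0) = g 0 := by
      intro j hj
      have := hne j hj
      simp only [hK]
      field_simp
    have hg0 : g 0 ≠ 0 := hg 0 (by omega)
    have hKne : ∀ j ≤ m, K j ≠ 0 := fun j hj => div_ne_zero hg0 (hne j hj)
    refine ⟨fun j i => match j, i with
      | 0, 0 => 1
      | 0, i + 1 => -∑ j ∈ range (m + 1), K j * c' j i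
      | _ + 1, 0 => 0
      | j + 1, i + 1 => K j * c' j i, ?_, ?_, ?_, ?_, ?_⟩
    · intro j hj
      rcases j with _ | j
      · exact one_ne_zero
      · exact mul_ne_zero (hKne j (by omega)) (h1 j (by omega))
    · intro j hj
      rcases j with _ | j
      · rfl
      · change f 0 * 0 = f (j + 1) * 0
        ring
    · intro j hj i hi
      rcases j with _ | j <;> rcases i with _ | i
      · change f 1 * (-∑ j ∈ range (m + 1), K j * c' j 0) + g 0 * 1 =
          f 0 * (-∑ j ∈ range (m + 1), K j * c' j 0)
        have e : (f 1 - f 0) * ∑ j ∈ range (m + 1), K j * c' j 0 = g 0 := by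
          rw [← mul_one (g 0), ← h4, mul_sum, mul_sum]
          refine sum_congr rfl fun j hj => ?_
          have hjm : j ≤ m := by have := mem_range.mp hj; omega
          have e1 := h2 j hjm
          have e2 := hKf j hjm
          simp only [zero_add] at e1
          linear_combination K j * e1 + c' j 0 * e2
        linarith
      · change f (i + 1 + 1) * (-∑ j ∈ range (m + 1), K j * c' j (i + 1)) +
          g (i + 1) * (-∑ j ∈ range (m + 1), K j * c' j i) =
          f 0 * (-∑ j ∈ range (m + 1), K j * c' j (i + 1))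
        have e : (f (i + 1 + 1) - f 0) * ∑ j ∈ range (m + 1), K j * c' j (i + 1) +
            g (i + 1) * ∑ j ∈ range (m + 1), K j * c' j i =
            g 0 * ∑ j ∈ range (m + 1), c' j (i + 1) := by
          rw [mul_sum, mul_sum, mul_sum, ← sum_add_distrib]
          refine sum_congr rfl fun j hj => ?_
          have hjm : j ≤ m := by have := mem_range.mp hj; omega
          have e1 := h3 j hjm i (by omega)
          have e2 := hKf j hjm
          linear_combination K j * e1 + c' j (i + 1) * e2
        rw [h5 i (by omega), mul_zero] at e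
        linarith
      · change f 1 * (K j * c' j 0) + g 0 * 0 = f (j + 1) * (K j * c' j 0)
        have e1 := h2 j (by omega)
        simp only [zero_add] at e1
        linear_combination K j * e1
      · change f (i + 1 + 1) * (K j * c' j (i + 1)) + g (i + 1) * (K j * c' j i) =
          f (j + 1) * (K j * c' j (i + 1))
        have e1 := h3 j (by omega) i (by omega)
        linear_combination K j * e1
    · rw [sum_range_succ']
      simp
    · intro i hi
      rw [sum_range_succ']
      change ∑ j ∈ range (m + 1), K j * c' j i + -∑ j ∈ range (m + 1), K j * c' j i = 0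
      ring

theorem chain_sum {M : ℕ} {f g c u : ℕ → ℝ} {l : ℝ} (h0 : f 0 * c 0 = l * c 0)
    (hs : ∀ i < M, f (i + 1) * c (i + 1) + g i * c i = l * c (i + 1)) (hM : g M = 0) :
    ∑ i ∈ range (M + 1), c i * (f i * u i + g i * u (i + 1)) =
      l * ∑ i ∈ range (M + 1), c i * u i := by
  have e1 : ∑ i ∈ range (M + 1), c i * (f i * u i + g i * u (i + 1)) =
      ∑ i ∈ range (M + 1), f i * c i * u i + ∑ i ∈ range (M + 1), g i * c i * u (i + 1) := by
    rw [← sum_add_distrib]
    exact sum_congr rfl fun i _ => by ring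
  rw [e1, sum_range_succ' (fun i => f i * c i * u i),
    sum_range_succ (fun i => g i * c i * u (i + 1)), sum_range_succ' (fun i => c i * u i), hM, h0]
  have e2 : ∑ i ∈ range M, f (i + 1) * c (i + 1) * u (i + 1) +
      ∑ i ∈ range M, g i * c i * u (i + 1) = l * ∑ i ∈ range M, c (i + 1) * u (i + 1) := by
    rw [← sum_add_distrib, mul_sum]
    refine sum_congr rfl fun i hi => ?_
    have := hs i (mem_range.mp hi)
    linear_combination u (i + 1) * this
  linear_combination e2

theorem chain_total {M : ℕ} {c : ℕ → ℕ → ℝ} {u : ℕ → ℝ}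
    (h0 : ∑ j ∈ range (M + 1), c j 0 = 1) (hs : ∀ i < M, ∑ j ∈ range (M + 1), c j (i + 1) = 0) :
    ∑ j ∈ range (M + 1), ∑ i ∈ range (M + 1), c j i * u i = u 0 := by
  rw [sum_comm]
  simp only [← sum_mul]
  rw [sum_range_succ', h0]
  have : ∑ i ∈ range M, (∑ j ∈ range (M + 1), c j (i + 1)) * u (i + 1) = 0 :=
    sum_eq_zero fun i hi => by rw [hs i (mem_range.mp hi), zero_mul]
  rw [this]; ring

end Pool.Agent.TH842.Dup
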