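import Pool.Agent.TH842.Dup.Defs

set_option autoImplicit false

namespace Pool.Agent.TH842.Dup

open Matrix Real

noncomputable section

/-! ### Calculus rules for coordinate derivatives -/

section Rules
variable {ι : Type} [DecidableEq ι]

/-- `f` has partial derivative `d` in direction `i` at `p`. -/
def HP (i : ι) (f : (ι → ℝ) → ℝ) (p : ι → ℝ) (d : ℝ) : Prop :=
  HasDerivAt (fun t => f (Function.update p i t)) d (p i)

theorem HP.pd [Fintype ι] {i : ι} {f : (ι → ℝ) → ℝ} {p : ι → ℝ} {d : ℝ} (h : HP i f p d) :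
    pd i f p = d := HasDerivAt.deriv h

theorem HP.congr_d {i : ι} {f : (ι → ℝ) → ℝ} {p : ι → ℝ} {d d' : ℝ} (h : HP i f p d)
    (e : d = d') : HP i f p d' := e ▸ h

theorem HP.const {i : ι} {p : ι → ℝ} (c : ℝ) : HP i (fun _ => c) p 0 := hasDerivAt_const _ _

theorem HP.coord_self (i : ι) (p : ι → ℝ) : HP i (fun q => q i) p 1 := by
  unfold HP
  simpa using hasDerivAt_id' (p i)

theorem HP.coord_ne {i j : ι} (h : j ≠ i) (p : ι → ℝ) : HP i (fun q => q j) p 0 := by
  unfold HP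
  simpa [Function.update_of_ne h] using hasDerivAt_const (p i) (p j)

theorem HP.coord (i j : ι) (p : ι → ℝ) : HP i (fun q => q j) p (if j = i then 1 else 0) := by
  split_ifs with h
  · subst h; exact HP.coord_self _ p
  · exact HP.coord_ne h p

theorem HP.add {i : ι} {f g : (ι → ℝ) → ℝ} {p : ι → ℝ} {a b : ℝ} (hf : HP i f p a)
    (hg : HP i g p b) : HP i (fun q => f q + g q) p (a + b) := HasDerivAt.fun_add hf hg

theorem HP.sub {i : ι} {f g : (ι → ℝ) → ℝ} {p : ι → ℝ} {a b : ℝ} (hf : HP i f p a)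
    (hg : HP i g p b) : HP i (fun q => f q - g q) p (a - b) := HasDerivAt.fun_sub hf hg

theorem HP.mul {i : ι} {f g : (ι → ℝ) → ℝ} {p : ι → ℝ} {a b : ℝ} (hf : HP i f p a)
    (hg : HP i g p b) : HP i (fun q => f q * g q) p (a * g p + f p * b) := by
  have h := HasDerivAt.fun_mul hf hg
  simp only [Function.update_eq_self] at h
  exact h

theorem HP.sum {i : ι} {α : Type} (s : Finset α) {f : α → (ι → ℝ) → ℝ} {p : ι → ℝ}
    {a : α → ℝ} (hf : ∀ k ∈ s, HP i (f k) p (a k)) :
    HP i (fun q => ∑ k ∈ s, f k q) p (∑ k ∈ s, a k) := by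
  have h := HasDerivAt.fun_sum (u := s) (A := fun k t => f k (Function.update p i t))
    (A' := a) (x := p i) hf
  exact h

/-- composition with a real function -/
theorem HP.comp {i : ι} {f : (ι → ℝ) → ℝ} {p : ι → ℝ} {a b : ℝ} {φ : ℝ → ℝ}
    (hφ : HasDerivAt φ b (f p)) (hf : HP i f p a) : HP i (fun q => φ (f q)) p (b * a) := by
  have hφ' : HasDerivAt φ b (f (Function.update p i (p i))) := by
    rwa [Function.update_eq_self]
  exact HasDerivAt.comp (p i) hφ' hf

theorem pd_congr [Fintype ι] {U : Set (ι → ℝ)} (hU : IsOpen U) {p : ι → ℝ} (hp : p ∈ U)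
    {f g : (ι → ℝ) → ℝ} (h : ∀ q ∈ U, f q = g q) (i : ι) : pd i f p = pd i g p := by
  apply Filter.EventuallyEq.deriv_eq
  have hc : ContinuousAt (fun t => Function.update p i t) (p i) :=
    (hasDerivAt_update p i (p i)).continuousAt
  have hp' : Function.update p i (p i) ∈ U := by rwa [Function.update_eq_self]
  filter_upwards [hc (hU.mem_nhds hp')] with t ht
  exact h _ ht

end Rules

namespace Cone

variable {m : ℕ}

/-- The constant `1/√2`. -/
def c0 : ℝ := Real.sqrt (1 / 2)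

theorem c0_sq : c0 * c0 = 1 / 2 := Real.mul_self_sqrt (by norm_num)

theorem c0_pos : 0 < c0 := Real.sqrt_pos.mpr (by norm_num)

/-- `|P|²` for the first `m` coordinates. -/
def N (p : Fin m ⊕ Fin 2 → ℝ) : ℝ := ∑ i : Fin m, p (Sum.inl i) * p (Sum.inl i)

/-- The domain `|P| < 1`. -/
def U (m : ℕ) : Set (Fin m ⊕ Fin 2 → ℝ) := {p | N p < 1}

/-- `√(1 - |P|²)`. -/
def R (p : Fin m ⊕ Fin 2 → ℝ) : ℝ := Real.sqrt (1 - N p)

/-- The minimal Clifford torus. -/
def w (p : Fin m ⊕ Fin 2 → ℝ) : Fin 4 → ℝ :=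
  ![c0 * cos (p (Sum.inr 0)), c0 * sin (p (Sum.inr 0)), c0 * cos (p (Sum.inr 1)),
    c0 * sin (p (Sum.inr 1))]

/-- The hypersurface. -/
def x (p : Fin m ⊕ Fin 2 → ℝ) : Fin m ⊕ Fin 4 → ℝ :=
  Sum.elim (fun i => p (Sum.inl i)) (fun k => R p * w p k)

/-- Its unit normal. -/
def ν (p : Fin m ⊕ Fin 2 → ℝ) : Fin m ⊕ Fin 4 → ℝ :=
  Sum.elim (fun _ => 0) ![c0 * cos (p (Sum.inr 0)), c0 * sin (p (Sum.inr 0)),
    -(c0 * cos (p (Sum.inr 1))), -(c0 * sin (p (Sum.inr 1)))]

theorem cont_N : Continuous (N (m := m)) := by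
  unfold N; fun_prop

theorem isOpen_U : IsOpen (U m) := isOpen_lt cont_N continuous_const

theorem R_pos {p : Fin m ⊕ Fin 2 → ℝ} (hp : p ∈ U m) : 0 < R p :=
  Real.sqrt_pos.mpr (sub_pos.mpr hp)

theorem R_sq {p : Fin m ⊕ Fin 2 → ℝ} (hp : p ∈ U m) : R p * R p = 1 - N p :=
  Real.mul_self_sqrt (sub_pos.mpr hp).le

theorem N_nonneg (p : Fin m ⊕ Fin 2 → ℝ) : 0 ≤ N p :=
  Finset.sum_nonneg fun _ _ => mul_self_nonneg _

/-! partial derivatives -/

theorem hp_N_inl (i : Fin m) (p : Fin m ⊕ Fin 2 → ℝ) :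
    HP (Sum.inl i) N p (2 * p (Sum.inl i)) := by
  have h := HP.sum (i := (Sum.inl i : Fin m ⊕ Fin 2)) (Finset.univ : Finset (Fin m)) (p := p)
    (f := fun k q => q (Sum.inl k) * q (Sum.inl k))
    (fun k _ => (HP.coord (Sum.inl i) (Sum.inl k) p).mul (HP.coord (Sum.inl i) (Sum.inl k) p))
  refine h.congr_d ?_
  have : ∀ k : Fin m, ((if (Sum.inl k : Fin m ⊕ Fin 2) = Sum.inl i then (1 : ℝ) else 0) *
      p (Sum.inl k) + p (Sum.inl k) * (if (Sum.inl k : Fin m ⊕ Fin 2) = Sum.inl i then 1 else 0))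
      = if k = i then 2 * p (Sum.inl k) else 0 := by
    intro k
    by_cases hk : k = i
    · simp [hk]; ring
    · have : (Sum.inl k : Fin m ⊕ Fin 2) ≠ Sum.inl i := fun h => hk (Sum.inl_injective h)
      simp [hk]
  simp only [this]
  simp

theorem hp_N_inr (s : Fin 2) (p : Fin m ⊕ Fin 2 → ℝ) : HP (Sum.inr s) N p 0 := by
  have h := HP.sum (i := (Sum.inr s : Fin m ⊕ Fin 2)) (Finset.univ : Finset (Fin m)) (p := p)
    (f := fun k q => q (Sum.inl k) * q (Sum.inl k))
    (fun k _ => (HP.coord_ne (i := (Sum.inr s : Fin m ⊕ Fin 2)) (j := Sum.inl k) (by simp) p).mul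
      (HP.coord_ne (i := (Sum.inr s : Fin m ⊕ Fin 2)) (j := Sum.inl k) (by simp) p))
  refine h.congr_d ?_
  simp

theorem hp_R {i : Fin m ⊕ Fin 2} {p : Fin m ⊕ Fin 2 → ℝ} (hp : p ∈ U m) {d : ℝ}
    (h : HP i N p d) : HP i R p (-d / (2 * R p)) := by
  have h1 : HasDerivAt Real.sqrt (1 / (2 * Real.sqrt (1 - N p))) (1 - N p) :=
    Real.hasDerivAt_sqrt (sub_pos.mpr hp).ne'
  have h2 := HP.comp (f := fun q => 1 - N q) h1 ((HP.const 1).sub h)
  refine HP.congr_d h2 ?_
  have := (R_pos hp).ne'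
  unfold R at *
  field_simp
  ring

theorem hp_R_inl (i : Fin m) {p : Fin m ⊕ Fin 2 → ℝ} (hp : p ∈ U m) :
    HP (Sum.inl i) R p (-(p (Sum.inl i)) / R p) := by
  refine (hp_R hp (hp_N_inl i p)).congr_d ?_
  have := (R_pos hp).ne'
  field_simp

theorem hp_R_inr (s : Fin 2) {p : Fin m ⊕ Fin 2 → ℝ} (hp : p ∈ U m) :
    HP (Sum.inr s) R p 0 := by
  refine (hp_R hp (hp_N_inr s p)).congr_d ?_
  simp

/-- a function of one of the last coordinates -/
theorem hp_phi_inl (i : Fin m) (s : Fin 2) (φ : ℝ → ℝ) (p : Fin m ⊕ Fin 2 → ℝ) :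
    HP (Sum.inl i) (fun q => φ (q (Sum.inr s))) p 0 := by
  unfold HP
  have : (fun t => φ (Function.update p (Sum.inl i) t (Sum.inr s))) =
      fun _ => φ (p (Sum.inr s)) := by
    funext t
    rw [Function.update_of_ne (by simp)]
  rw [this]
  exact hasDerivAt_const _ _

theorem hp_phi_inr (s : Fin 2) {φ : ℝ → ℝ} {p : Fin m ⊕ Fin 2 → ℝ} {d : ℝ}
    (h : HasDerivAt φ d (p (Sum.inr s))) :
    HP (Sum.inr s) (fun q => φ (q (Sum.inr s))) p d := by
  unfold HP
  simpa using h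

theorem hp_phi_inr_ne {s s' : Fin 2} (hs : s ≠ s') (φ : ℝ → ℝ) (p : Fin m ⊕ Fin 2 → ℝ) :
    HP (Sum.inr s') (fun q => φ (q (Sum.inr s))) p 0 := by
  unfold HP
  have : (fun t => φ (Function.update p (Sum.inr s') t (Sum.inr s))) =
      fun _ => φ (p (Sum.inr s)) := by
    funext t
    rw [Function.update_of_ne (by simpa using hs)]
  rw [this]
  exact hasDerivAt_const _ _

/-! first derivatives of `x` and `ν` -/

/-- the angular derivative of the torus -/
def wd (s : Fin 2) (p : Fin m ⊕ Fin 2 → ℝ) : Fin 4 → ℝ :=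
  if s = 0 then ![-(c0 * sin (p (Sum.inr 0))), c0 * cos (p (Sum.inr 0)), 0, 0]
  else ![0, 0, -(c0 * sin (p (Sum.inr 1))), c0 * cos (p (Sum.inr 1))]

theorem hasDeriv_ccos (t : ℝ) : HasDerivAt (fun t => c0 * cos t) (-(c0 * sin t)) t := by
  have := (Real.hasDerivAt_cos t).const_mul c0
  simpa using this

theorem hasDeriv_csin (t : ℝ) : HasDerivAt (fun t => c0 * sin t) (c0 * cos t) t :=
  (Real.hasDerivAt_sin t).const_mul c0

theorem hasDeriv_nsin (t : ℝ) : HasDerivAt (fun t => -(c0 * sin t)) (-(c0 * cos t)) t :=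
  (hasDeriv_csin t).neg

theorem hp_w_inl (i : Fin m) (k : Fin 4) (p : Fin m ⊕ Fin 2 → ℝ) :
    HP (Sum.inl i) (fun q => w q k) p 0 := by
  fin_cases k
  · exact hp_phi_inl i 0 (fun t => c0 * cos t) p
  · exact hp_phi_inl i 0 (fun t => c0 * sin t) p
  · exact hp_phi_inl i 1 (fun t => c0 * cos t) p
  · exact hp_phi_inl i 1 (fun t => c0 * sin t) p

theorem hp_w_inr (s : Fin 2) (k : Fin 4) (p : Fin m ⊕ Fin 2 → ℝ) :
    HP (Sum.inr s) (fun q => w q k) p (wd s p k) := by
  fin_cases s <;> fin_cases k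
  · exact hp_phi_inr 0 (hasDeriv_ccos _)
  · exact hp_phi_inr 0 (hasDeriv_csin _)
  · exact hp_phi_inr_ne (by decide) (fun t => c0 * cos t) p
  · exact hp_phi_inr_ne (by decide) (fun t => c0 * sin t) p
  · exact hp_phi_inr_ne (by decide) (fun t => c0 * cos t) p
  · exact hp_phi_inr_ne (by decide) (fun t => c0 * sin t) p
  · exact hp_phi_inr 1 (hasDeriv_ccos _)
  · exact hp_phi_inr 1 (hasDeriv_csin _)

theorem dx_inl {p : Fin m ⊕ Fin 2 → ℝ} (hp : p ∈ U m) (i : Fin m) :
    dx x (Sum.inl i) p =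
      Sum.elim (fun j => if j = i then 1 else 0) (fun k => -(p (Sum.inl i)) / R p * w p k) := by
  funext k
  rcases k with j | k
  · change pd (Sum.inl i) (fun q => q (Sum.inl j)) p = _
    rw [(HP.coord (Sum.inl i) (Sum.inl j) p).pd]
    simp
  · change pd (Sum.inl i) (fun q => R q * w q k) p = _
    rw [((hp_R_inl i hp).mul (hp_w_inl i k p)).pd]
    simp

theorem dx_inr {p : Fin m ⊕ Fin 2 → ℝ} (hp : p ∈ U m) (s : Fin 2) :
    dx x (Sum.inr s) p = Sum.elim (fun _ => 0) (fun k => R p * wd s p k) := by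
  funext k
  rcases k with j | k
  · change pd (Sum.inr s) (fun q => q (Sum.inl j)) p = _
    rw [(HP.coord_ne (i := (Sum.inr s : Fin m ⊕ Fin 2)) (j := Sum.inl j) (by simp) p).pd]
    simp
  · change pd (Sum.inr s) (fun q => R q * w q k) p = _
    rw [((hp_R_inr s hp).mul (hp_w_inr s k p)).pd]
    simp

theorem dnu_inl (p : Fin m ⊕ Fin 2 → ℝ) (i : Fin m) : dx ν (Sum.inl i) p = 0 := by
  funext k
  rcases k with j | k
  · exact (HP.const 0).pd
  · fin_cases k
    · exact (hp_phi_inl i 0 (fun t => c0 * cos t) p).pd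
    · exact (hp_phi_inl i 0 (fun t => c0 * sin t) p).pd
    · exact (hp_phi_inl i 1 (fun t => -(c0 * cos t)) p).pd
    · exact (hp_phi_inl i 1 (fun t => -(c0 * sin t)) p).pd

theorem dnu_inr (p : Fin m ⊕ Fin 2 → ℝ) (s : Fin 2) :
    dx ν (Sum.inr s) p =
      Sum.elim (fun _ => 0) (fun k => (if s = 0 then 1 else -1) * wd s p k) := by
  funext k
  rcases k with j | k
  · exact (HP.const (i := (Sum.inr s : Fin m ⊕ Fin 2)) (p := p) 0).pd
  · fin_cases s <;> fin_cases k
    · exact (hp_phi_inr (p := p) 0 (hasDeriv_ccos _)).pd.trans (by simp [wd])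
    · exact (hp_phi_inr (p := p) 0 (hasDeriv_csin _)).pd.trans (by simp [wd])
    · exact (hp_phi_inr_ne (s' := 0) (s := 1) (by decide) (fun t => -(c0 * cos t)) p).pd.trans
        (by simp [wd])
    · exact (hp_phi_inr_ne (s' := 0) (s := 1) (by decide) (fun t => -(c0 * sin t)) p).pd.trans
        (by simp [wd])
    · exact (hp_phi_inr_ne (s' := 1) (s := 0) (by decide) (fun t => c0 * cos t) p).pd.trans
        (by simp [wd])
    · exact (hp_phi_inr_ne (s' := 1) (s := 0) (by decide) (fun t => c0 * sin t) p).pd.trans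
        (by simp [wd])
    · exact (hp_phi_inr (p := p) 1 (φ := fun t => -(c0 * cos t))
        (hasDeriv_ccos _).fun_neg).pd.trans (by simp [wd])
    · exact (hp_phi_inr (p := p) 1 (φ := fun t => -(c0 * sin t))
        (hasDeriv_csin _).fun_neg).pd.trans (by simp [wd])

/-! dot products -/

theorem w_dot_w (p : Fin m ⊕ Fin 2 → ℝ) : w p ⬝ᵥ w p = 1 := by
  have h1 := Real.sin_sq_add_cos_sq (p (Sum.inr 0))
  have h2 := Real.sin_sq_add_cos_sq (p (Sum.inr 1))
  simp only [w, dotProduct, Fin.sum_univ_four, Matrix.cons_val_zero, Matrix.cons_val_one,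
    Matrix.cons_val]
  linear_combination (c0 * c0) * h1 + (c0 * c0) * h2 + 2 * c0_sq

theorem w_dot_wd (s : Fin 2) (p : Fin m ⊕ Fin 2 → ℝ) : w p ⬝ᵥ wd s p = 0 := by
  fin_cases s
  · simp [w, wd, dotProduct, Fin.sum_univ_four]; ring
  · simp [w, wd, dotProduct, Fin.sum_univ_four]; ring

theorem wd_dot_wd (s t : Fin 2) (p : Fin m ⊕ Fin 2 → ℝ) :
    wd s p ⬝ᵥ wd t p = if s = t then 1 / 2 else 0 := by
  have h1 := Real.sin_sq_add_cos_sq (p (Sum.inr 0))
  have h2 := Real.sin_sq_add_cos_sq (p (Sum.inr 1))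
  fin_cases s <;> fin_cases t
  · simp [wd, dotProduct, Fin.sum_univ_four]
    linear_combination (c0 * c0) * h1 + c0_sq
  · simp [wd, dotProduct, Fin.sum_univ_four]
  · simp [wd, dotProduct, Fin.sum_univ_four]
  · simp [wd, dotProduct, Fin.sum_univ_four]
    linear_combination (c0 * c0) * h2 + c0_sq

theorem dot_elim {a a' : Fin m → ℝ} {b b' : Fin 4 → ℝ} :
    (Sum.elim a b : Fin m ⊕ Fin 4 → ℝ) ⬝ᵥ Sum.elim a' b' = a ⬝ᵥ a' + b ⬝ᵥ b' := by
  simp [dotProduct, Fintype.sum_sum_type]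

/-- the vector of the first coordinates -/
def P (p : Fin m ⊕ Fin 2 → ℝ) : Fin m → ℝ := fun i => p (Sum.inl i)

theorem N_eq (p : Fin m ⊕ Fin 2 → ℝ) : N p = P p ⬝ᵥ P p := rfl

theorem gram_eq {p : Fin m ⊕ Fin 2 → ℝ} (hp : p ∈ U m) :
    gram x p = Matrix.fromBlocks (1 + (R p * R p)⁻¹ • Matrix.vecMulVec (P p) (P p)) 0 0
      ((R p * R p / 2) • (1 : Matrix (Fin 2) (Fin 2) ℝ)) := by
  have hR := (R_pos hp).ne'
  ext i j
  rcases i with i | s <;> rcases j with j | t
  · simp only [gram, dx_inl hp, dot_elim, Matrix.fromBlocks_apply₁₁, Matrix.add_apply,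
      Matrix.smul_apply, Matrix.vecMulVec_apply, P, Matrix.one_apply, smul_eq_mul]
    have h1 : (fun k => -(p (Sum.inl i)) / R p * w p k) ⬝ᵥ
        (fun k => -(p (Sum.inl j)) / R p * w p k) =
        (p (Sum.inl i) * p (Sum.inl j) / (R p * R p)) * (w p ⬝ᵥ w p) := by
      simp only [dotProduct, Finset.mul_sum]
      refine Finset.sum_congr rfl fun k _ => ?_
      field_simp
    have h2 : (fun j_1 => if j_1 = i then (1 : ℝ) else 0) ⬝ᵥ
        (fun j_1 => if j_1 = j then (1 : ℝ) else 0) = if i = j then 1 else 0 := by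
      simp [dotProduct, eq_comm]
    rw [h1, h2, w_dot_w]
    ring
  · simp only [gram, dx_inl hp, dx_inr hp, dot_elim, Matrix.fromBlocks_apply₁₂]
    have h1 : (fun k => -(p (Sum.inl i)) / R p * w p k) ⬝ᵥ (fun k => R p * wd t p k) =
        -(p (Sum.inl i)) * (w p ⬝ᵥ wd t p) := by
      simp only [dotProduct, Finset.mul_sum]
      refine Finset.sum_congr rfl fun k _ => ?_
      field_simp
    rw [h1, w_dot_wd]
    simp [dotProduct]
  · simp only [gram, dx_inl hp, dx_inr hp, dot_elim, Matrix.fromBlocks_apply₂₁]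
    have h1 : (fun k => R p * wd s p k) ⬝ᵥ (fun k => -(p (Sum.inl j)) / R p * w p k) =
        -(p (Sum.inl j)) * (w p ⬝ᵥ wd s p) := by
      simp only [dotProduct, Finset.mul_sum]
      refine Finset.sum_congr rfl fun k _ => ?_
      field_simp
    rw [h1, w_dot_wd]
    simp [dotProduct]
  · simp only [gram, dx_inr hp, dot_elim, Matrix.fromBlocks_apply₂₂, Matrix.smul_apply,
      Matrix.one_apply, smul_eq_mul]
    have h1 : (fun k => R p * wd s p k) ⬝ᵥ (fun k => R p * wd t p k) =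
        (R p * R p) * (wd s p ⬝ᵥ wd t p) := by
      simp only [dotProduct, Finset.mul_sum]
      refine Finset.sum_congr rfl fun k _ => ?_
      ring
    rw [h1, wd_dot_wd]
    by_cases hst : s = t
    · simp [hst, dotProduct]; ring
    · simp [hst, dotProduct]

theorem det_gram {p : Fin m ⊕ Fin 2 → ℝ} (hp : p ∈ U m) :
    (gram x p).det = (R p / 2) ^ 2 := by
  have hR := (R_pos hp).ne'
  have hRR := R_sq hp
  rw [gram_eq hp, Matrix.det_fromBlocks_zero₂₁, Matrix.det_smul, Matrix.det_one]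
  have h1 : (1 + (R p * R p)⁻¹ • Matrix.vecMulVec (P p) (P p)) =
      1 + Matrix.replicateCol Unit ((R p * R p)⁻¹ • P p) * Matrix.replicateRow Unit (P p) := by
    ext i j
    simp [Matrix.vecMulVec_apply, Matrix.mul_apply, mul_assoc]
  rw [h1, Matrix.det_one_add_replicateCol_mul_replicateRow, dotProduct_smul, ← N_eq]
  have hN : N p = 1 - R p * R p := by linarith
  rw [hN]
  simp only [smul_eq_mul, Fintype.card_fin]
  field_simp
  ring

theorem sqrt_det {p : Fin m ⊕ Fin 2 → ℝ} (hp : p ∈ U m) :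
    Real.sqrt (gram x p).det = R p / 2 := by
  rw [det_gram hp, Real.sqrt_sq (by have := R_pos hp; positivity)]

theorem inv_gram {p : Fin m ⊕ Fin 2 → ℝ} (hp : p ∈ U m) :
    (gram x p)⁻¹ = Matrix.fromBlocks (1 - Matrix.vecMulVec (P p) (P p)) 0 0
      ((2 / (R p * R p)) • (1 : Matrix (Fin 2) (Fin 2) ℝ)) := by
  have hR := (R_pos hp).ne'
  have hRR := R_sq hp
  have hN : N p = 1 - R p * R p := by linarith
  apply Matrix.inv_eq_right_inv
  rw [gram_eq hp, Matrix.fromBlocks_multiply]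
  have hv : Matrix.vecMulVec (P p) (P p) * Matrix.vecMulVec (P p) (P p) =
      N p • Matrix.vecMulVec (P p) (P p) := by
    rw [Matrix.vecMulVec_mul_vecMulVec, N_eq]
    ext i j
    simp [Matrix.vecMulVec_apply]
    ring
  have h11 : (1 + (R p * R p)⁻¹ • Matrix.vecMulVec (P p) (P p)) *
      (1 - Matrix.vecMulVec (P p) (P p)) = 1 := by
    rw [add_mul, mul_sub, mul_sub, mul_one, mul_one, one_mul, Matrix.smul_mul, hv, hN]
    ext i j
    simp only [Matrix.add_apply, Matrix.sub_apply, Matrix.smul_apply, smul_eq_mul]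
    field_simp
    ring
  rw [h11]
  rw [← Matrix.fromBlocks_one]
  congr 1
  · simp
  · simp
  · simp
  · rw [Matrix.zero_mul, zero_add, Matrix.smul_mul, Matrix.one_mul, smul_smul]
    have : R p * R p / 2 * (2 / (R p * R p)) = 1 := by field_simp
    rw [this, one_smul]

/-! the Laplacian -/

theorem lap_of_flux {f : (Fin m ⊕ Fin 2 → ℝ) → ℝ} {p : Fin m ⊕ Fin 2 → ℝ} (hp : p ∈ U m)
    (V : Fin m ⊕ Fin 2 → (Fin m ⊕ Fin 2 → ℝ) → ℝ) (v : Fin m ⊕ Fin 2 → ℝ)
    (hV : ∀ i, ∀ q ∈ U m, Real.sqrt (gram x q).det * ∑ j, (gram x q)⁻¹ i j * pd j f q = V i q)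
    (hv : ∀ i, HP i (V i) p (v i)) :
    lap x f p = 2 / R p * ∑ i, v i := by
  unfold lap
  rw [sqrt_det hp]
  have h : ∀ i, pd i (fun q => Real.sqrt (gram x q).det * ∑ j, (gram x q)⁻¹ i j * pd j f q) p =
      v i := by
    intro i
    rw [pd_congr isOpen_U hp (hV i) i, (hv i).pd]
  simp only [h]
  rw [inv_div]

theorem flux_inl {f : (Fin m ⊕ Fin 2 → ℝ) → ℝ} {q : Fin m ⊕ Fin 2 → ℝ} (hq : q ∈ U m)
    (i : Fin m) {d : Fin m → ℝ} (hd : ∀ j, pd (Sum.inl j) f q = d j) :
    Real.sqrt (gram x q).det * ∑ j, (gram x q)⁻¹ (Sum.inl i) j * pd j f q =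
      R q / 2 * (d i - q (Sum.inl i) * ∑ j, q (Sum.inl j) * d j) := by
  rw [sqrt_det hq, inv_gram hq, Fintype.sum_sum_type]
  congr 1
  simp only [Matrix.fromBlocks_apply₁₁, Matrix.fromBlocks_apply₁₂, Matrix.zero_apply, zero_mul,
    Finset.sum_const_zero, add_zero, Matrix.sub_apply, Matrix.vecMulVec_apply, P, hd, sub_mul,
    Finset.sum_sub_distrib, Matrix.one_apply, Finset.mul_sum]
  simp [mul_assoc]

theorem flux_inr {f : (Fin m ⊕ Fin 2 → ℝ) → ℝ} {q : Fin m ⊕ Fin 2 → ℝ} (hq : q ∈ U m)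
    (s : Fin 2) {d : ℝ} (hd : pd (Sum.inr s) f q = d) :
    Real.sqrt (gram x q).det * ∑ j, (gram x q)⁻¹ (Sum.inr s) j * pd j f q = d / R q := by
  have hR := (R_pos hq).ne'
  rw [sqrt_det hq, inv_gram hq, Fintype.sum_sum_type]
  simp only [Matrix.fromBlocks_apply₂₁, Matrix.fromBlocks_apply₂₂, Matrix.zero_apply, zero_mul,
    Finset.sum_const_zero, zero_add, Matrix.smul_apply, Matrix.one_apply, smul_eq_mul]
  have : ∑ t : Fin 2, 2 / (R q * R q) * (if s = t then 1 else 0) * pd (Sum.inr t) f q =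
      2 / (R q * R q) * d := by
    rw [Finset.sum_eq_single s]
    · simp [hd]
    · intro b _ hb
      simp [Ne.symm hb]
    · simp
  rw [this]
  field_simp

/-- the first `m` coordinates are eigenfunctions -/
theorem lap_coord {p : Fin m ⊕ Fin 2 → ℝ} (hp : p ∈ U m) (k : Fin m) :
    lap x (fun q => q (Sum.inl k)) p = -(m + 2) * p (Sum.inl k) := by
  have hR := (R_pos hp).ne'
  have hRR := R_sq hp
  rw [lap_of_flux hp
    (Sum.elim (fun i q => R q / 2 * ((if k = i then 1 else 0) - q (Sum.inl i) * q (Sum.inl k)))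
      (fun _ _ => 0))
    (Sum.elim (fun i => -(p (Sum.inl i)) / R p / 2 *
        ((if k = i then 1 else 0) - p (Sum.inl i) * p (Sum.inl k)) +
        R p / 2 * (-(p (Sum.inl k) + p (Sum.inl i) * (if k = i then 1 else 0))))
      (fun _ => 0))]
  · rw [Fintype.sum_sum_type]
    simp only [Sum.elim_inl, Sum.elim_inr, Finset.sum_const_zero, add_zero]
    have e : ∀ i : Fin m, (-(p (Sum.inl i)) / R p / 2 *
        ((if k = i then 1 else 0) - p (Sum.inl i) * p (Sum.inl k)) +
        R p / 2 * (-(p (Sum.inl k) + p (Sum.inl i) * (if k = i then 1 else 0)))) =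
        (if k = i then -(p (Sum.inl i)) / R p / 2 - R p / 2 * p (Sum.inl i) else 0) +
        ((p (Sum.inl i) * p (Sum.inl i)) * (p (Sum.inl k) / R p / 2) +
          (-(R p / 2 * p (Sum.inl k)))) := by
      intro i
      split_ifs
      · field_simp; ring
      · field_simp; ring
    rw [Finset.sum_congr rfl fun i _ => e i, Finset.sum_add_distrib, Finset.sum_add_distrib,
      ← Finset.sum_mul]
    have hN : ∑ i : Fin m, p (Sum.inl i) * p (Sum.inl i) = 1 - R p * R p := by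
      rw [hRR]; unfold N; ring
    rw [hN]
    simp only [Finset.sum_ite_eq, Finset.mem_univ, if_true, Finset.sum_const, Finset.card_univ,
      Fintype.card_fin, nsmul_eq_mul]
    field_simp
    ring
  · intro i q hq
    rcases i with i | s
    · have hd : ∀ j : Fin m, pd (Sum.inl j) (fun q : Fin m ⊕ Fin 2 → ℝ => q (Sum.inl k)) q =
          if k = j then 1 else 0 := by
        intro j
        rw [(HP.coord (Sum.inl j) (Sum.inl k) q).pd]
        simp
      rw [flux_inl hq i hd]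
      simp
    · have hd : pd (Sum.inr s) (fun q : Fin m ⊕ Fin 2 → ℝ => q (Sum.inl k)) q = 0 :=
        (HP.coord_ne (by simp) q).pd
      rw [flux_inr hq s hd]
      simp
  · intro i
    rcases i with i | s
    · have h1 : HP (Sum.inl i) (fun q => R q / 2) p (-(p (Sum.inl i)) / R p / 2) :=
        HasDerivAt.div_const (hp_R_inl i hp) 2
      have h2 : HP (Sum.inl i) (fun q : Fin m ⊕ Fin 2 → ℝ => (if k = i then (1 : ℝ) else 0) -
          q (Sum.inl i) * q (Sum.inl k)) p
          (-(p (Sum.inl k) + p (Sum.inl i) * (if k = i then 1 else 0))) := by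
        refine ((HP.const _).sub ((HP.coord_self (Sum.inl i) p).mul
          (HP.coord (Sum.inl i) (Sum.inl k) p))).congr_d ?_
        simp
      exact h1.mul h2
    · exact HP.const 0

/-- the last coordinates are eigenfunctions -/
theorem lap_phi {p : Fin m ⊕ Fin 2 → ℝ} (hp : p ∈ U m) (s : Fin 2) {φ ψ : ℝ → ℝ}
    (h1 : ∀ t, HasDerivAt φ (ψ t) t) (h2 : ∀ t, HasDerivAt ψ (-φ t) t) :
    lap x (fun q => R q * φ (q (Sum.inr s))) p = -(m + 2) * (R p * φ (p (Sum.inr s))) := by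
  have hR := (R_pos hp).ne'
  have hRR := R_sq hp
  rw [lap_of_flux hp
    (Sum.elim (fun i q => -(1 / 2) * (φ (q (Sum.inr s)) * (q (Sum.inl i) * (1 - N q))))
      (fun t q => if s = t then ψ (q (Sum.inr s)) else 0))
    (Sum.elim (fun i => -(1 / 2) * (φ (p (Sum.inr s)) *
        ((1 - N p) - 2 * (p (Sum.inl i) * p (Sum.inl i)))))
      (fun t => if s = t then -φ (p (Sum.inr s)) else 0))]
  · rw [Fintype.sum_sum_type]
    simp only [Sum.elim_inl, Sum.elim_inr]
    rw [← Finset.mul_sum, ← Finset.mul_sum, Finset.sum_sub_distrib, ← Finset.mul_sum]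
    have hN : ∑ i : Fin m, p (Sum.inl i) * p (Sum.inl i) = 1 - R p * R p := by
      rw [hRR]; unfold N; ring
    rw [hN, ← hRR]
    simp only [Finset.sum_ite_eq, Finset.mem_univ, if_true, Finset.sum_const, Finset.card_univ,
      Fintype.card_fin, nsmul_eq_mul]
    field_simp
    ring
  · intro i q hq
    have hRq := (R_pos hq).ne'
    have hRRq := R_sq hq
    rcases i with i | t
    · have hd : ∀ j : Fin m, pd (Sum.inl j) (fun q => R q * φ (q (Sum.inr s))) q =
          -(q (Sum.inl j)) / R q * φ (q (Sum.inr s)) := by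
        intro j
        rw [((hp_R_inl j hq).mul (hp_phi_inl j s φ q)).pd]
        simp
      rw [flux_inl hq i hd]
      have e : ∑ j : Fin m, q (Sum.inl j) * (-(q (Sum.inl j)) / R q * φ (q (Sum.inr s))) =
          (1 - R q * R q) * (-(φ (q (Sum.inr s)) / R q)) := by
        have hN : ∑ i : Fin m, q (Sum.inl i) * q (Sum.inl i) = 1 - R q * R q := by
          rw [hRRq]; unfold N; ring
        rw [← hN, Finset.sum_mul]
        refine Finset.sum_congr rfl fun j _ => ?_
        field_simp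
      rw [e]
      simp only [Sum.elim_inl]
      rw [← hRRq]
      field_simp
      ring
    · by_cases hst : s = t
      · subst hst
        have hd : pd (Sum.inr s) (fun q => R q * φ (q (Sum.inr s))) q =
            R q * ψ (q (Sum.inr s)) := by
          rw [((hp_R_inr s hq).mul (hp_phi_inr s (h1 _))).pd]
          simp
        rw [flux_inr hq s hd]
        simp only [Sum.elim_inr, if_true]
        field_simp
      · have hd : pd (Sum.inr t) (fun q => R q * φ (q (Sum.inr s))) q = 0 := by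
          rw [((hp_R_inr t hq).mul (hp_phi_inr_ne hst φ q)).pd]
          simp
        rw [flux_inr hq t hd]
        simp [hst]
  · intro i
    rcases i with i | t
    · have h3 : HP (Sum.inl i) (fun q : Fin m ⊕ Fin 2 → ℝ => q (Sum.inl i) * (1 - N q)) p
          ((1 - N p) - 2 * (p (Sum.inl i) * p (Sum.inl i))) := by
        refine ((HP.coord_self (Sum.inl i) p).mul
          ((HP.const 1).sub (hp_N_inl i p))).congr_d ?_
        ring
      refine ((HP.const (-(1 / 2))).mul ((hp_phi_inl i s φ p).mul h3)).congr_d ?_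
      simp
    · by_cases hst : s = t
      · subst hst
        simpa using hp_phi_inr (p := p) s (h2 _)
      · simpa [hst] using HP.const (i := (Sum.inr t : Fin m ⊕ Fin 2)) (p := p) 0

end Cone

end

end Pool.Agent.TH842.Dup
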