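import Pool.Agent.TH842.Dup.Cone

set_option autoImplicit false

namespace Pool.Agent.TH842.Dup

open Matrix Real

noncomputable section

namespace Cone

variable {m : ℕ}

theorem zero_mem : (0 : Fin m ⊕ Fin 2 → ℝ) ∈ U m := by
  simp [U, N]

theorem starConvex_U : StarConvex ℝ 0 (U m) := by
  rw [starConvex_zero_iff]
  intro p hp a ha0 ha1
  have h1 : N (a • p) = a * a * N p := by
    simp only [N, Pi.smul_apply, smul_eq_mul, Finset.mul_sum]
    exact Finset.sum_congr rfl fun i _ => by ring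
  change N (a • p) < 1
  rw [h1]
  have h2 : N p < 1 := hp
  have h3 := N_nonneg p
  nlinarith [mul_nonneg ha0 h3, mul_nonneg ha0 ha0]

theorem connected_U : IsConnected (U m) :=
  (starConvex_U.isPathConnected zero_mem).isConnected

theorem smooth_N : ContDiff ℝ (⊤ : ℕ∞) (N (m := m)) := by
  unfold N
  fun_prop

theorem smooth_R : ContDiffOn ℝ (⊤ : ℕ∞) (R (m := m)) (U m) := by
  unfold R
  apply ContDiffOn.sqrt
  · exact (contDiff_const.sub smooth_N).contDiffOn
  · intro p hp
    exact (sub_pos.mpr hp).ne'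

theorem smooth_w (k : Fin 4) : ContDiff ℝ (⊤ : ℕ∞) (fun p : Fin m ⊕ Fin 2 → ℝ => w p k) := by
  fin_cases k
  · change ContDiff ℝ (⊤ : ℕ∞) (fun p : Fin m ⊕ Fin 2 → ℝ => c0 * cos (p (Sum.inr 0)))
    fun_prop
  · change ContDiff ℝ (⊤ : ℕ∞) (fun p : Fin m ⊕ Fin 2 → ℝ => c0 * sin (p (Sum.inr 0)))
    fun_prop
  · change ContDiff ℝ (⊤ : ℕ∞) (fun p : Fin m ⊕ Fin 2 → ℝ => c0 * cos (p (Sum.inr 1)))
    fun_prop
  · change ContDiff ℝ (⊤ : ℕ∞) (fun p : Fin m ⊕ Fin 2 → ℝ => c0 * sin (p (Sum.inr 1)))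
    fun_prop

theorem smooth_x (k : Fin m ⊕ Fin 4) : ContDiffOn ℝ (⊤ : ℕ∞) (fun p => x p k) (U m) := by
  rcases k with k | k
  · change ContDiffOn ℝ (⊤ : ℕ∞) (fun p : Fin m ⊕ Fin 2 → ℝ => p (Sum.inl k)) (U m)
    fun_prop
  · change ContDiffOn ℝ (⊤ : ℕ∞) (fun p : Fin m ⊕ Fin 2 → ℝ => R p * w p k) (U m)
    exact smooth_R.mul (smooth_w k).contDiffOn

theorem smooth_nu (k : Fin m ⊕ Fin 4) : ContDiffOn ℝ (⊤ : ℕ∞) (fun p => ν p k) (U m) := by
  rcases k with k | k
  · change ContDiffOn ℝ (⊤ : ℕ∞) (fun _ : Fin m ⊕ Fin 2 → ℝ => (0 : ℝ)) (U m)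
    fun_prop
  · fin_cases k
    · change ContDiffOn ℝ (⊤ : ℕ∞) (fun p : Fin m ⊕ Fin 2 → ℝ => c0 * cos (p (Sum.inr 0))) (U m)
      fun_prop
    · change ContDiffOn ℝ (⊤ : ℕ∞) (fun p : Fin m ⊕ Fin 2 → ℝ => c0 * sin (p (Sum.inr 0))) (U m)
      fun_prop
    · change ContDiffOn ℝ (⊤ : ℕ∞) (fun p : Fin m ⊕ Fin 2 → ℝ => -(c0 * cos (p (Sum.inr 1)))) (U m)
      fun_prop
    · change ContDiffOn ℝ (⊤ : ℕ∞) (fun p : Fin m ⊕ Fin 2 → ℝ => -(c0 * sin (p (Sum.inr 1)))) (U m)
      fun_prop

theorem immersion_of_det {ι κ : Type} [Fintype ι] [DecidableEq ι] [Fintype κ]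
    {x : (ι → ℝ) → (κ → ℝ)} {p : ι → ℝ} (h : (gram x p).det ≠ 0) :
    LinearIndependent ℝ (fun i => dx x i p) := by
  rw [Fintype.linearIndependent_iff]
  intro a ha
  have h1 : gram x p *ᵥ a = 0 := by
    funext i
    simp only [Matrix.mulVec, gram, Pi.zero_apply]
    have h2 : dx x i p ⬝ᵥ (∑ j, a j • dx x j p) = 0 := by rw [ha]; simp
    rw [dotProduct_sum] at h2
    rw [← h2]
    simp only [dotProduct_smul, smul_eq_mul]
    rw [dotProduct]
    exact Finset.sum_congr rfl fun j _ => mul_comm _ _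
  have h3 := Matrix.eq_zero_of_mulVec_eq_zero h h1
  intro i
  rw [h3]; rfl

/-- sign vector of the normal -/
theorem nu_eq (p : Fin m ⊕ Fin 2 → ℝ) : ν p = Sum.elim (fun _ => 0)
    (fun k => (if k = 0 ∨ k = 1 then 1 else -1) * w p k) := by
  funext k
  rcases k with k | k
  · rfl
  · fin_cases k <;> simp [ν, w]

theorem nu_dot_nu (p : Fin m ⊕ Fin 2 → ℝ) : ν p ⬝ᵥ ν p = 1 := by
  have h := w_dot_w p
  rw [nu_eq, dot_elim]
  simp [dotProduct, Fin.sum_univ_four] at h ⊢
  linarith

theorem nu_dot_x (p : Fin m ⊕ Fin 2 → ℝ) : ν p ⬝ᵥ x p = 0 := by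
  have h1 := Real.sin_sq_add_cos_sq (p (Sum.inr 0))
  have h2 := Real.sin_sq_add_cos_sq (p (Sum.inr 1))
  simp only [ν, x, dot_elim]
  simp [dotProduct, Fin.sum_univ_four, w]
  linear_combination (R p * c0 * c0) * h1 - (R p * c0 * c0) * h2

theorem x_dot_x {p : Fin m ⊕ Fin 2 → ℝ} (hp : p ∈ U m) : x p ⬝ᵥ x p = 1 := by
  simp only [x, dot_elim]
  have h1 : (fun k => R p * w p k) ⬝ᵥ (fun k => R p * w p k) = (R p * R p) * (w p ⬝ᵥ w p) := by
    simp only [dotProduct, Finset.mul_sum]
    exact Finset.sum_congr rfl fun k _ => by ring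
  rw [h1, w_dot_w, R_sq hp]
  change N p + _ = 1
  ring

theorem nu_dot_dx {p : Fin m ⊕ Fin 2 → ℝ} (hp : p ∈ U m) (i : Fin m ⊕ Fin 2) :
    ν p ⬝ᵥ dx x i p = 0 := by
  have h1 := Real.sin_sq_add_cos_sq (p (Sum.inr 0))
  have h2 := Real.sin_sq_add_cos_sq (p (Sum.inr 1))
  rcases i with i | s
  · rw [dx_inl hp]
    simp only [ν, dot_elim]
    simp [dotProduct, Fin.sum_univ_four, w]
    linear_combination (-(p (Sum.inl i)) / R p * c0 * c0) * h1 +
      (p (Sum.inl i) / R p * c0 * c0) * h2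
  · rw [dx_inr hp]
    simp only [ν, dot_elim]
    fin_cases s
    · simp [dotProduct, Fin.sum_univ_four, wd]; ring
    · simp [dotProduct, Fin.sum_univ_four, wd]; ring

theorem isHypersurface : IsHypersurface (U m) x ν where
  dim := by simp
  isOpen := isOpen_U
  conn := connected_U
  smooth := smooth_x
  smooth_normal := smooth_nu
  immersion := fun p hp => immersion_of_det (by
    rw [det_gram hp]; have := R_pos hp; positivity)
  sphere := fun p hp => x_dot_x hp
  unit := fun p _ => nu_dot_nu p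
  normal_pos := fun p _ => nu_dot_x p
  normal := fun p hp i => nu_dot_dx hp i

theorem oneType : IsKType 1 (U m) (x (m := m)) := by
  refine ⟨0, fun _ => x, fun _ => -(m + 2), fun a b _ => Subsingleton.elim a b,
    fun _ j => smooth_x j, ?_, ?_, ?_⟩
  · intro _
    refine ⟨0, zero_mem, (fun i => Sum.elim (fun _ => 0) (fun _ => π) i), ?_, ?_⟩
    · simp [U, N]
    · intro h
      have h1 := congrFun h (Sum.inr 0)
      have h2 : R (0 : Fin m ⊕ Fin 2 → ℝ) = 1 := by simp [R, N]
      have h3 : R (fun i => Sum.elim (fun _ => (0 : ℝ)) (fun _ => π) i : Fin m ⊕ Fin 2 → ℝ) = 1 := by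
        simp [R, N]
      simp only [x, Sum.elim_inr, h2, h3, w] at h1
      simp at h1
      have := c0_pos
      linarith
  · intro _ j p hp
    rcases j with k | k
    · exact lap_coord hp k
    · fin_cases k
      · exact lap_phi hp 0 (φ := fun t => c0 * cos t) (ψ := fun t => -(c0 * sin t))
          hasDeriv_ccos hasDeriv_nsin
      · exact lap_phi hp 0 (φ := fun t => c0 * sin t) (ψ := fun t => c0 * cos t)
          hasDeriv_csin hasDeriv_ccos
      · exact lap_phi hp 1 (φ := fun t => c0 * cos t) (ψ := fun t => -(c0 * sin t))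
          hasDeriv_ccos hasDeriv_nsin
      · exact lap_phi hp 1 (φ := fun t => c0 * sin t) (ψ := fun t => c0 * cos t)
          hasDeriv_csin hasDeriv_ccos
  · intro p _
    simp

/-! principal curvatures -/

theorem mem_principal {p : Fin m ⊕ Fin 2 → ℝ} (hp : p ∈ U m) {c : ℝ} {v : Fin m ⊕ Fin 2 → ℝ} :
    v ∈ principal x ν p c ↔ (∀ i : Fin m, c * v (Sum.inl i) = 0) ∧
      v (Sum.inr 0) * (1 + c * R p) = 0 ∧ v (Sum.inr 1) * (c * R p - 1) = 0 := by
  have hc := c0_pos
  have h1 := Real.sin_sq_add_cos_sq (p (Sum.inr 0))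
  have h2 := Real.sin_sq_add_cos_sq (p (Sum.inr 1))
  change (∑ i, v i • dx ν i p = -(c • ∑ i, v i • dx x i p)) ↔ _
  rw [Fintype.sum_sum_type, Fintype.sum_sum_type]
  simp only [dnu_inl, dnu_inr, dx_inl hp, dx_inr hp, smul_zero, Finset.sum_const_zero, zero_add,
    Fin.sum_univ_two]
  constructor
  · intro h
    have hin : ∀ i : Fin m, c * v (Sum.inl i) = 0 := by
      intro i
      have h3 := congrFun h (Sum.inl i)
      simp [Finset.sum_apply] at h3
      rcases h3 with h3 | h3
      · rw [h3]; ring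
      · rw [h3]; ring
    have hS : c * ∑ i : Fin m, v (Sum.inl i) * (-(p (Sum.inl i)) / R p) = 0 := by
      rw [Finset.mul_sum]
      refine Finset.sum_eq_zero fun i _ => ?_
      rw [← mul_assoc, hin i, zero_mul]
    have key : ∀ k : Fin 4, v (Sum.inr 0) * wd 0 p k + v (Sum.inr 1) * (-1 * wd 1 p k) =
        -(c * (v (Sum.inr 0) * (R p * wd 0 p k) + v (Sum.inr 1) * (R p * wd 1 p k))) := by
      intro k
      have h3 := congrFun h (Sum.inr k)
      simp only [Pi.add_apply, Pi.smul_apply, Sum.elim_inr, smul_eq_mul, Pi.neg_apply,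
        Finset.sum_apply, if_true] at h3
      have h4 : ∑ i : Fin m, v (Sum.inl i) * (-(p (Sum.inl i)) / R p * w p k) =
          (∑ i : Fin m, v (Sum.inl i) * (-(p (Sum.inl i)) / R p)) * w p k := by
        rw [Finset.sum_mul]
        exact Finset.sum_congr rfl fun i _ => by ring
      rw [h4] at h3
      have h5 : (1 : Fin 2) ≠ 0 := by decide
      simp only [h5, if_false] at h3
      linear_combination h3 - w p k * hS
    refine ⟨hin, ?_, ?_⟩
    · have k0 := key 0
      have k1 := key 1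
      simp [wd] at k0 k1
      have : c0 * (v (Sum.inr 0) * (1 + c * R p)) = 0 := by
        linear_combination (-(sin (p (Sum.inr 0)))) * k0 + (cos (p (Sum.inr 0))) * k1 -
          (c0 * (v (Sum.inr 0) * (1 + c * R p))) * h1
      exact (mul_eq_zero.mp this).resolve_left hc.ne'
    · have k2 := key 2
      have k3 := key 3
      simp [wd] at k2 k3
      have : c0 * (v (Sum.inr 1) * (c * R p - 1)) = 0 := by
        linear_combination (-(sin (p (Sum.inr 1)))) * k2 + (-(cos (p (Sum.inr 1)))) * k3 -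
          (c0 * (v (Sum.inr 1) * (c * R p - 1))) * h2
      exact (mul_eq_zero.mp this).resolve_left hc.ne'
  · rintro ⟨hin, h0, h3⟩
    have hS : c * ∑ i : Fin m, v (Sum.inl i) * (-(p (Sum.inl i)) / R p) = 0 := by
      rw [Finset.mul_sum]
      refine Finset.sum_eq_zero fun i _ => ?_
      rw [← mul_assoc, hin i, zero_mul]
    funext k
    rcases k with k | k
    · simp [Finset.sum_apply, hin k]
    · simp only [Pi.add_apply, Pi.smul_apply, Sum.elim_inr, smul_eq_mul, Pi.neg_apply,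
        Finset.sum_apply, if_true]
      have h4 : ∑ i : Fin m, v (Sum.inl i) * (-(p (Sum.inl i)) / R p * w p k) =
          (∑ i : Fin m, v (Sum.inl i) * (-(p (Sum.inl i)) / R p)) * w p k := by
        rw [Finset.sum_mul]
        exact Finset.sum_congr rfl fun i _ => by ring
      rw [h4]
      have h5 : (1 : Fin 2) ≠ 0 := by decide
      simp only [h5, if_false]
      linear_combination w p k * hS + wd 0 p k * h0 + wd 1 p k * h3

/-- the principal curvature functions -/
def curv (a : Fin 3) (p : Fin m ⊕ Fin 2 → ℝ) : ℝ :=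
  if a = 0 then 0 else if a = 1 then -(R p)⁻¹ else (R p)⁻¹

theorem principal_zero {p : Fin m ⊕ Fin 2 → ℝ} (hp : p ∈ U m) :
    principal x ν p 0 = LinearMap.range
      (LinearMap.funLeft ℝ ℝ (fun i : Fin m ⊕ Fin 2 => i) ∘ₗ
        ((LinearEquiv.sumArrowLequivProdArrow (Fin m) (Fin 2) ℝ ℝ).symm.toLinearMap ∘ₗ
          LinearMap.inl ℝ (Fin m → ℝ) (Fin 2 → ℝ))) := by
  ext v
  rw [mem_principal hp, LinearMap.mem_range]
  constructor
  · rintro ⟨_, h0, h1⟩
    refine ⟨fun i => v (Sum.inl i), ?_⟩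
    funext i
    rcases i with i | s
    · simp [LinearMap.funLeft]
    · have e0 : v (Sum.inr 0) = 0 := by simpa using h0
      have e1 : v (Sum.inr 1) = 0 := by simpa using h1
      fin_cases s
      · simp [LinearMap.funLeft, e0]
      · simp [LinearMap.funLeft, e1]
  · rintro ⟨u, rfl⟩
    simp [LinearMap.funLeft]

theorem finrank_zero {p : Fin m ⊕ Fin 2 → ℝ} (hp : p ∈ U m) :
    Module.finrank ℝ (principal x ν p 0) = m := by
  rw [principal_zero hp, LinearMap.finrank_range_of_inj]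
  · simp
  · intro u v h
    have h' : ∀ i : Fin m, u i = v i := by
      intro i
      have := congrFun h (Sum.inl i)
      simpa [LinearMap.funLeft] using this
    exact funext h'

theorem principal_single {p : Fin m ⊕ Fin 2 → ℝ} (hp : p ∈ U m) (s : Fin 2) :
    principal x ν p (if s = 0 then -(R p)⁻¹ else (R p)⁻¹) =
      Submodule.span ℝ {Pi.single (Sum.inr s) (1 : ℝ)} := by
  have hR := R_pos hp
  ext v
  rw [mem_principal hp, Submodule.mem_span_singleton]
  fin_cases s
  · simp only [Fin.zero_eta, if_true]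
    have hc : -(R p)⁻¹ ≠ 0 := by
      have := inv_pos.mpr hR; linarith
    have e : -(R p)⁻¹ * R p = -1 := by field_simp
    constructor
    · rintro ⟨hi, _, h1⟩
      refine ⟨v (Sum.inr 0), ?_⟩
      funext i
      rcases i with i | t
      · have := (mul_eq_zero.mp (hi i)).resolve_left hc
        simp [this]
      · fin_cases t
        · simp
        · rw [e] at h1
          have : v (Sum.inr 1) = 0 := by linarith
          simp [this]
    · rintro ⟨a, rfl⟩
      refine ⟨fun i => by simp, ?_, by simp⟩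
      rw [e]; ring
  · have h10 : ¬ ((1 : Fin 2) = 0) := by decide
    simp only [Fin.mk_one, h10, if_false]
    have hc : (R p)⁻¹ ≠ 0 := (inv_pos.mpr hR).ne'
    have e : (R p)⁻¹ * R p = 1 := by field_simp
    constructor
    · rintro ⟨hi, h0, _⟩
      refine ⟨v (Sum.inr 1), ?_⟩
      funext i
      rcases i with i | t
      · have := (mul_eq_zero.mp (hi i)).resolve_left hc
        simp [this]
      · fin_cases t
        · rw [e] at h0
          have : v (Sum.inr 0) = 0 := by linarith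
          simp [this]
        · simp
    · rintro ⟨a, rfl⟩
      refine ⟨fun i => by simp, by simp, ?_⟩
      rw [e]; ring

theorem finrank_single {p : Fin m ⊕ Fin 2 → ℝ} (hp : p ∈ U m) (s : Fin 2) :
    Module.finrank ℝ (principal x ν p (if s = 0 then -(R p)⁻¹ else (R p)⁻¹)) = 1 := by
  rw [principal_single hp s, finrank_span_singleton]
  intro h
  have := congrFun h (Sum.inr s)
  simp at this

theorem hp_inv_R_inr (s : Fin 2) {p : Fin m ⊕ Fin 2 → ℝ} (hp : p ∈ U m) :
    HP (Sum.inr s) (fun q => (R q)⁻¹) p 0 := by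
  have h := HP.comp (hasDerivAt_inv (R_pos hp).ne') (hp_R_inr s hp)
  exact h.congr_d (by simp)

theorem hp_ninv_R_inr (s : Fin 2) {p : Fin m ⊕ Fin 2 → ℝ} (hp : p ∈ U m) :
    HP (Sum.inr s) (fun q => -(R q)⁻¹) p 0 :=
  HP.congr_d (HasDerivAt.fun_neg (hp_inv_R_inr s hp)) (by simp)

theorem isDupin (hm : 1 ≤ m) : IsDupin (U m) (x (m := m)) ν := by
  refine ⟨3, curv, ![m, 1, 1], ?_, ?_, ?_, ?_⟩
  · intro a
    have hinv : ContDiffOn ℝ (⊤ : ℕ∞) (fun p => (R (m := m) p)⁻¹) (U m) :=
      smooth_R.inv fun p hp => (R_pos hp).ne'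
    fin_cases a
    · exact contDiffOn_const
    · exact hinv.neg
    · exact hinv
  · intro a
    fin_cases a
    · exact hm
    · exact Nat.one_pos
    · exact Nat.one_pos
  · simp [Fin.sum_univ_three]
  · intro p hp
    have hR := R_pos hp
    have hR' := inv_pos.mpr hR
    refine ⟨?_, ?_, ?_⟩
    · intro a b hab
      fin_cases a <;> fin_cases b <;> simp [curv] at hab ⊢ <;> linarith
    · intro a
      fin_cases a
      · exact finrank_zero hp
      · exact finrank_single hp 0
      · exact finrank_single hp 1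
    · intro a v hv
      rw [mem_principal hp] at hv
      rw [Fintype.sum_sum_type, Fin.sum_univ_two]
      fin_cases a
      · have h0 : ∀ i, pd i (curv (m := m) 0) p = 0 := fun i => (HP.const 0).pd
        change ∑ i, v (Sum.inl i) * pd (Sum.inl i) (curv 0) p +
          (v (Sum.inr 0) * pd (Sum.inr 0) (curv 0) p +
            v (Sum.inr 1) * pd (Sum.inr 1) (curv 0) p) = 0
        simp [h0]
      · have h0 : ∀ s : Fin 2, pd (Sum.inr s) (curv (m := m) 1) p = 0 :=
          fun s => (hp_ninv_R_inr s hp).pd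
        have hc : curv 1 p ≠ 0 := by
          change -(R p)⁻¹ ≠ 0
          linarith
        have h1 : ∀ i : Fin m, v (Sum.inl i) = 0 := fun i =>
          (mul_eq_zero.mp (hv.1 i)).resolve_left hc
        change ∑ i, v (Sum.inl i) * pd (Sum.inl i) (curv 1) p +
          (v (Sum.inr 0) * pd (Sum.inr 0) (curv 1) p +
            v (Sum.inr 1) * pd (Sum.inr 1) (curv 1) p) = 0
        simp [h0, h1]
      · have h0 : ∀ s : Fin 2, pd (Sum.inr s) (curv (m := m) 2) p = 0 :=
          fun s => (hp_inv_R_inr s hp).pd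
        have hc : curv 2 p ≠ 0 := by
          change (R p)⁻¹ ≠ 0
          linarith
        have h1 : ∀ i : Fin m, v (Sum.inl i) = 0 := fun i =>
          (mul_eq_zero.mp (hv.1 i)).resolve_left hc
        change ∑ i, v (Sum.inl i) * pd (Sum.inl i) (curv 2) p +
          (v (Sum.inr 0) * pd (Sum.inr 0) (curv 2) p +
            v (Sum.inr 1) * pd (Sum.inr 1) (curv 2) p) = 0
        simp [h0, h1]

theorem not_isoparametric (hm : 1 ≤ m) : ¬ IsIsoparametric (U m) (x (m := m)) ν := by
  intro h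
  have hR0 : R (0 : Fin m ⊕ Fin 2 → ℝ) = 1 := by simp [R, N]
  set q : Fin m ⊕ Fin 2 → ℝ := Pi.single (Sum.inl ⟨0, hm⟩) (1 / 2) with hq
  have hNq : N q = 1 / 4 := by
    unfold N
    rw [Finset.sum_eq_single ⟨0, hm⟩]
    · simp [hq]; norm_num
    · intro b _ hb
      have : (Sum.inl b : Fin m ⊕ Fin 2) ≠ Sum.inl ⟨0, hm⟩ := fun h => hb (Sum.inl_injective h)
      simp [hq, hb]
    · simp
  have hqU : q ∈ U m := by
    change N q < 1
    rw [hNq]; norm_num
  have hRq : R q * R q = 3 / 4 := by rw [R_sq hqU, hNq]; norm_num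
  have hRqp := R_pos hqU
  have h1 : principal x ν (0 : Fin m ⊕ Fin 2 → ℝ) 1 ≠ ⊥ := by
    intro hb
    have hmem : (Pi.single (Sum.inr 1) (1 : ℝ) : Fin m ⊕ Fin 2 → ℝ) ∈
        principal x ν (0 : Fin m ⊕ Fin 2 → ℝ) 1 := by
      rw [mem_principal zero_mem, hR0]
      simp
    rw [hb, Submodule.mem_bot] at hmem
    have := congrFun hmem (Sum.inr 1)
    simp at this
  have h2 := h 0 zero_mem q hqU 1 h1
  apply h2
  rw [Submodule.eq_bot_iff]
  intro v hv
  rw [mem_principal hqU] at hv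
  obtain ⟨ha, hb, hc⟩ := hv
  have e0 : v (Sum.inr 0) = 0 := by
    refine (mul_eq_zero.mp hb).resolve_right ?_
    linarith
  have e1 : v (Sum.inr 1) = 0 := by
    refine (mul_eq_zero.mp hc).resolve_right ?_
    intro h3
    have : R q = 1 := by linarith
    rw [this] at hRq
    norm_num at hRq
  funext i
  rcases i with i | s
  · simpa using ha i
  · fin_cases s
    · exact e0
    · exact e1

end Cone

end

end Pool.Agent.TH842.Dup
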