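import Pool.Agent.TH842.Dup.Geo4

set_option autoImplicit false
set_option linter.unusedSectionVars false

namespace Pool.Agent.TH842.Dup

open Matrix

noncomputable section

variable {ι κ : Type} [Fintype ι] [DecidableEq ι] [Fintype κ] [DecidableEq κ]

/-- an immersion into the sphere with unit normal -/
structure Fr (U : Set (ι → ℝ)) (y n : (ι → ℝ) → (κ → ℝ)) : Prop where
  imm : Imm U y
  card : Fintype.card κ = Fintype.card ι + 2
  yy : ∀ q ∈ U, ∑ a, y q a * y q a = 1
  nn : ∀ q ∈ U, ∑ a, n q a * n q a = 1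
  yn : ∀ q ∈ U, ∑ a, y q a * n q a = 0
  nd : ∀ q ∈ U, ∀ j, ∑ a, n q a * dx y j q a = 0

namespace Fr

variable {U : Set (ι → ℝ)} {y n : (ι → ℝ) → (κ → ℝ)} (S : Fr U y n)
include S

theorem yd {p : ι → ℝ} (hp : p ∈ U) (j : ι) : ∑ a, y p a * dx y j p a = 0 :=
  sum_const_deriv S.imm.isOpen S.imm.sm (fun a : κ => a) S.yy hp j

theorem proj {p : ι → ℝ} (hp : p ∈ U) (a b : κ) :
    ∑ i, ∑ j, (gram y p)⁻¹ i j * (dx y i p a * dx y j p b) + y p a * y p b +
      n p a * n p b = if a = b then 1 else 0 := by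
  set Q : Matrix κ (ι ⊕ Fin 2) ℝ :=
    Matrix.of fun a => Sum.elim (fun i => dx y i p a) ![y p a, n p a] with hQ
  set T : Matrix (ι ⊕ Fin 2) (ι ⊕ Fin 2) ℝ := Matrix.fromBlocks (gram y p)⁻¹ 0 0 1 with hT
  have hQQ : Qᵀ * Q = Matrix.fromBlocks (gram y p) 0 0 1 := by
    ext u v
    rcases u with i | u <;> rcases v with j | v
    · simp only [Matrix.mul_apply, Matrix.transpose_apply, hQ, Matrix.of_apply, Sum.elim_inl,
        Matrix.fromBlocks_apply₁₁]
      rfl
    · simp only [Matrix.mul_apply, Matrix.transpose_apply, hQ, Matrix.of_apply, Sum.elim_inl,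
        Sum.elim_inr, Matrix.fromBlocks_apply₁₂, Matrix.zero_apply]
      fin_cases v
      · simpa [mul_comm] using S.yd hp i
      · simpa [mul_comm] using S.nd p hp i
    · simp only [Matrix.mul_apply, Matrix.transpose_apply, hQ, Matrix.of_apply, Sum.elim_inl,
        Sum.elim_inr, Matrix.fromBlocks_apply₂₁, Matrix.zero_apply]
      fin_cases u
      · simpa using S.yd hp j
      · simpa using S.nd p hp j
    · simp only [Matrix.mul_apply, Matrix.transpose_apply, hQ, Matrix.of_apply,
        Sum.elim_inr, Matrix.fromBlocks_apply₂₂]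
      fin_cases u <;> fin_cases v
      · simpa using S.yy p hp
      · simpa using S.yn p hp
      · simpa [mul_comm] using S.yn p hp
      · simpa using S.nn p hp
  have hu : IsUnit (gram y p).det := (S.imm.det_ne hp).isUnit
  have h1 : (T * Qᵀ) * Q = 1 := by
    rw [Matrix.mul_assoc, hQQ, hT, Matrix.fromBlocks_multiply]
    simp [Matrix.nonsing_inv_mul _ hu]
  have hcard : Fintype.card κ = Fintype.card (ι ⊕ Fin 2) := by
    rw [S.card]; simp
  have h2 : Q * (T * Qᵀ) = 1 :=
    (Matrix.mul_eq_one_comm_of_card_eq κ (ι ⊕ Fin 2) ℝ hcard).mpr h1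
  have h3 := congrFun (congrFun h2 a) b
  rw [Matrix.one_apply] at h3
  rw [← h3]
  simp only [Matrix.mul_apply, Matrix.transpose_apply, hQ, hT, Matrix.of_apply,
    Fintype.sum_sum_type, Sum.elim_inl, Sum.elim_inr, Matrix.fromBlocks_apply₁₁,
    Matrix.fromBlocks_apply₁₂, Matrix.fromBlocks_apply₂₁, Matrix.fromBlocks_apply₂₂,
    Fin.sum_univ_two, Matrix.zero_apply, zero_mul, add_zero, Finset.sum_const_zero, zero_add]
  simp only [Finset.mul_sum]
  have e : ∑ i, ∑ j, (gram y p)⁻¹ i j * (dx y i p a * dx y j p b) =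
      ∑ i, ∑ j, dx y i p a * ((gram y p)⁻¹ i j * dx y j p b) :=
    Finset.sum_congr rfl fun i _ => Finset.sum_congr rfl fun j _ => by ring
  rw [e]
  simp
  ring

theorem lap_repr {p : ι → ℝ} (hp : p ∈ U) (a : κ) :
    lap y (fun q => y q a) p =
      y p a * (∑ b, y p b * lap y (fun q => y q b) p) +
      n p a * (∑ b, n p b * lap y (fun q => y q b) p) := by
  have hZ := fun k => S.imm.lap_tangent hp k
  set Z : κ → ℝ := fun a => lap y (fun q => y q a) p with hZd
  have h1 : Z a = ∑ b, (if a = b then 1 else 0) * Z b := by simp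
  change Z a = _
  rw [h1]
  simp only [← S.proj hp a, add_mul, Finset.sum_add_distrib]
  have e1 : ∑ b, (∑ i, ∑ j, (gram y p)⁻¹ i j * (dx y i p a * dx y j p b)) * Z b = 0 := by
    have : ∀ b, (∑ i, ∑ j, (gram y p)⁻¹ i j * (dx y i p a * dx y j p b)) * Z b =
        ∑ i, ∑ j, (gram y p)⁻¹ i j * dx y i p a * (Z b * dx y j p b) := by
      intro b
      rw [Finset.sum_mul]
      refine Finset.sum_congr rfl fun i _ => ?_
      rw [Finset.sum_mul]
      exact Finset.sum_congr rfl fun j _ => by ring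
    simp only [this]
    rw [Finset.sum_comm]
    refine Finset.sum_eq_zero fun i _ => ?_
    rw [Finset.sum_comm]
    refine Finset.sum_eq_zero fun j _ => ?_
    rw [← Finset.mul_sum]
    have := hZ j
    rw [show (∑ b, Z b * dx y j p b) = 0 from this, mul_zero]
  rw [e1, zero_add]
  simp only [Finset.mul_sum]
  congr 1
  · exact Finset.sum_congr rfl fun b _ => by ring
  · exact Finset.sum_congr rfl fun b _ => by ring

theorem trace {p : ι → ℝ} (hp : p ∈ U) (e : κ → ℝ) :
    ∑ i, ∑ j, (gram y p)⁻¹ i j * ∑ a, e a * (dx y i p a * dx y j p a) =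
      ∑ a, e a * (1 - y p a * y p a - n p a * n p a) := by
  have h1 : ∀ a, e a * (1 - y p a * y p a - n p a * n p a) =
      ∑ i, ∑ j, e a * ((gram y p)⁻¹ i j * (dx y i p a * dx y j p a)) := by
    intro a
    have h2 := S.proj hp a a
    simp only [if_true] at h2
    have h3 : 1 - y p a * y p a - n p a * n p a =
        ∑ i, ∑ j, (gram y p)⁻¹ i j * (dx y i p a * dx y j p a) := by linarith
    rw [h3, Finset.mul_sum]
    exact Finset.sum_congr rfl fun i _ => by rw [Finset.mul_sum]
  simp only [h1]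
  symm
  rw [Finset.sum_comm]
  refine Finset.sum_congr rfl fun i _ => ?_
  rw [Finset.sum_comm]
  refine Finset.sum_congr rfl fun j _ => ?_
  rw [Finset.mul_sum]
  exact Finset.sum_congr rfl fun a _ => by ring

theorem y_lap {p : ι → ℝ} (hp : p ∈ U) :
    ∑ b, y p b * lap y (fun q => y q b) p = -(Fintype.card ι : ℝ) := by
  have h := S.imm.lap_normal (e := fun _ => 1) (c := 1)
    (by intro q hq; simpa using S.yy q hq) hp
  rw [S.trace hp] at h
  have h1 : ∑ a : κ, (1 : ℝ) * (1 - y p a * y p a - n p a * n p a) = (Fintype.card ι : ℝ) := by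
    simp only [one_mul]
    rw [Finset.sum_sub_distrib, Finset.sum_sub_distrib, S.yy p hp, S.nn p hp]
    simp only [Finset.sum_const, Finset.card_univ, S.card, nsmul_eq_mul, Nat.cast_add,
      Nat.cast_ofNat]
    ring
  rw [h1] at h
  rw [← h]
  exact Finset.sum_congr rfl fun a _ => by ring

/-- the Laplacians of the coordinate functions -/
theorem lap_coord {p : ι → ℝ} (hp : p ∈ U) {e : κ → ℝ} (he : ∀ q ∈ U, ∑ a, e a * (y q a * y q a) = 0)
    {K : ℝ} (hK : K * ∑ a, e a * (y p a * n p a) = -(∑ a, e a) + ∑ a, e a * (n p a * n p a))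
    (hne : ∑ a, e a * (y p a * n p a) ≠ 0) (a : κ) :
    lap y (fun q => y q a) p = -(Fintype.card ι : ℝ) * y p a + K * n p a := by
  set Hn := ∑ b, n p b * lap y (fun q => y q b) p with hH
  have h0 : ∀ a, lap y (fun q => y q a) p = -(Fintype.card ι : ℝ) * y p a + Hn * n p a := by
    intro a
    rw [S.lap_repr hp a, S.y_lap hp]; ring
  have h := S.imm.lap_normal he hp
  rw [S.trace hp] at h
  have h1 : ∑ a, e a * (lap y (fun q => y q a) p * y p a) =
      -(Fintype.card ι : ℝ) * ∑ a, e a * (y p a * y p a) + Hn * ∑ a, e a * (y p a * n p a) := by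
    rw [Finset.mul_sum, Finset.mul_sum, ← Finset.sum_add_distrib]
    exact Finset.sum_congr rfl fun a _ => by rw [h0]; ring
  have h2 : ∑ a, e a * (1 - y p a * y p a - n p a * n p a) =
      ∑ a, e a - ∑ a, e a * (y p a * y p a) - ∑ a, e a * (n p a * n p a) := by
    rw [← Finset.sum_sub_distrib, ← Finset.sum_sub_distrib]
    exact Finset.sum_congr rfl fun a _ => by ring
  rw [h1, h2, he p hp] at h
  have h3 : (Hn - K) * ∑ a, e a * (y p a * n p a) = 0 := by linarith
  have h4 : Hn = K := by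
    have := (mul_eq_zero.mp h3).resolve_right hne
    linarith
  rw [h0, h4]

theorem gam {p : ι → ℝ} (hp : p ∈ U) (a b : κ) :
    Gam y (fun q => y q a) (fun q => y q b) p =
      (if a = b then 1 else 0) - y p a * y p b - n p a * n p b := by
  have h := S.proj hp a b
  have h1 : Gam y (fun q => y q a) (fun q => y q b) p =
      ∑ i, ∑ j, (gram y p)⁻¹ i j * (dx y i p a * dx y j p b) := rfl
  rw [h1]; linarith

end Fr

/-! ### products with powers of a function -/

variable {U : Set (ι → ℝ)} {y : (ι → ℝ) → (κ → ℝ)}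

open Polynomial in
theorem evd1 (t : ℝ) (i : ℕ) : t * (derivative (X ^ i : ℝ[X])).eval t = i * t ^ i := by
  rcases i with _ | i
  · simp
  · rw [derivative_X_pow]; simp [pow_succ]; ring

open Polynomial in
theorem evd2 (t : ℝ) (i : ℕ) :
    t * t * (derivative (derivative (X ^ i : ℝ[X]))).eval t = i * ((i : ℝ) - 1) * t ^ i := by
  rcases i with _ | _ | i
  · simp
  · simp
  · rw [derivative_X_pow, derivative_C_mul, derivative_X_pow]; simp [pow_succ]; ring

open Polynomial in
theorem Imm.lap_pow (H : Imm U y) {a v : (ι → ℝ) → ℝ} (sa : Sm U a) (sv : Sm U v) (i : ℕ)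
    {p : ι → ℝ} (hp : p ∈ U) {n g κ' : ℝ} (hvne : v p ≠ 0)
    (hav : Gam y a v p = 2 * a p * v p - 2 * g * a p * (v p * v p))
    (hvv : Gam y v v p = 4 * g * (v p * v p * v p) - 4 * (v p * v p))
    (ha : lap y a p = -n * a p - 2 * κ' * g * (a p * v p))
    (hv : lap y v p = (2 * n - 6) * v p + 2 * g * (v p * v p)) :
    lap y (fun q => a q * v q ^ i) p = (2 * (i : ℝ) - 1) * (n - 2 * i) * (a p * v p ^ i) +
      g * (4 * (i : ℝ) * i - 6 * i - 2 * κ') * (a p * v p ^ (i + 1)) := by
  have hU := H.isOpen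
  have sP : ∀ φ : ℝ[X], Sm U (fun q => φ.eval (v q)) := by
    intro φ
    simp only [Polynomial.eval_eq_sum_range]
    exact Sm.sum _ fun k _ => contDiffOn_const.mul (sv.pow k)
  have dP : ∀ φ : ℝ[X], ∀ q ∈ U, ∀ j, HP j (fun q => φ.eval (v q)) q
      ((derivative φ).eval (v q) * pd j v q) := fun φ q hq j =>
    HP.comp (φ.hasDerivAt (v q)) (sv.hp hU hq j)
  set φ : ℝ[X] := X ^ i with hφ
  have J : Jet U a v (fun q => a q * φ.eval (v q)) (fun q => φ.eval (v q))
      (fun q => a q * (derivative φ).eval (v q)) (fun _ => 0)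
      (fun q => (derivative φ).eval (v q)) (fun q => (derivative φ).eval (v q))
      (fun q => a q * (derivative (derivative φ)).eval (v q)) := by
    refine ⟨sa.mul (sP φ), sP φ, sa.mul (sP _), ?_, ?_, ?_⟩
    · intro q hq j
      rw [((sa.hp hU hq j).mul (dP φ q hq j)).pd]; ring
    · intro q hq j
      rw [(dP φ q hq j).pd]; ring
    · intro q hq j
      rw [((sa.hp hU hq j).mul (dP _ q hq j)).pd]; ring
  have h := H.lap_jet J sa sv hp
  have h0 : (fun q => a q * v q ^ i) = fun q => a q * φ.eval (v q) := by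
    funext q; simp [hφ]
  rw [h0, h, hav, hvv, ha, hv]
  have e1 := evd1 (v p) i
  have e2 := evd2 (v p) i
  have e0 : φ.eval (v p) = v p ^ i := by simp [hφ]
  rw [← hφ] at e1 e2
  have e1' : (derivative φ).eval (v p) = i * v p ^ i / v p := by
    field_simp; linarith
  have e2' : (derivative (derivative φ)).eval (v p) = i * ((i : ℝ) - 1) * v p ^ i / (v p * v p) := by
    field_simp; linarith
  rw [e0, e1', e2', pow_succ]
  field_simp
  ring

end

end Pool.Agent.TH842.Dup
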