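import Pool.Agent.TH842.Dup.ConeMain
import Pool.Agent.TH842.Dup.Hyp

set_option autoImplicit false
set_option linter.unusedSectionVars false

namespace Pool.Agent.TH842.Dup

open Matrix Real

noncomputable section

/-- `1 / cosh` -/
def Sf (t : ℝ) : ℝ := (cosh t)⁻¹

/-- `tanh` -/
def Tf (t : ℝ) : ℝ := sinh t * (cosh t)⁻¹

theorem Sf_pos (t : ℝ) : 0 < Sf t := inv_pos.mpr (Real.cosh_pos t)

theorem Sf_sq (t : ℝ) : Sf t * Sf t + Tf t * Tf t = 1 := by
  have h := Real.cosh_sq t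
  have h1 := (Real.cosh_pos t).ne'
  unfold Sf Tf
  field_simp
  linarith

theorem hasDeriv_Sf (t : ℝ) : HasDerivAt Sf (-(Tf t * Sf t)) t := by
  have h := (Real.hasDerivAt_cosh t).fun_inv (Real.cosh_pos t).ne'
  refine HasDerivAt.congr_deriv h ?_
  have h1 := (Real.cosh_pos t).ne'
  unfold Sf Tf
  field_simp

theorem hasDeriv_Tf (t : ℝ) : HasDerivAt Tf (Sf t * Sf t) t := by
  have h := (Real.hasDerivAt_sinh t).fun_mul ((Real.hasDerivAt_cosh t).fun_inv (Real.cosh_pos t).ne')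
  refine HasDerivAt.congr_deriv h ?_
  have h1 := (Real.cosh_pos t).ne'
  have h2 := Real.cosh_sq t
  unfold Sf
  field_simp
  linarith

theorem smooth_Sf : ContDiff ℝ (⊤ : ℕ∞) Sf := by
  unfold Sf
  exact Real.contDiff_cosh.inv fun t => (Real.cosh_pos t).ne'

theorem smooth_Tf : ContDiff ℝ (⊤ : ℕ∞) Tf := by
  unfold Tf
  exact Real.contDiff_sinh.mul smooth_Sf

namespace ConeS

open Cone (N U R P hp_R_inl hp_R_inr hp_phi_inl hp_phi_inr hp_phi_inr_ne R_pos R_sq isOpen_U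
  connected_U smooth_R dot_elim zero_mem N_eq immersion_of_det)

variable {m : ℕ}

/-- the unit sphere in isothermal coordinates -/
def e (p : Fin m ⊕ Fin 2 → ℝ) : Fin 4 → ℝ :=
  ![cos (p (Sum.inr 0)) * Sf (p (Sum.inr 1)), sin (p (Sum.inr 0)) * Sf (p (Sum.inr 1)),
    Tf (p (Sum.inr 1)), 0]

/-- its derivatives -/
def es (s : Fin 2) (p : Fin m ⊕ Fin 2 → ℝ) : Fin 4 → ℝ :=
  if s = 0 then ![-(sin (p (Sum.inr 0)) * Sf (p (Sum.inr 1))),
    cos (p (Sum.inr 0)) * Sf (p (Sum.inr 1)), 0, 0]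
  else ![-(cos (p (Sum.inr 0)) * (Tf (p (Sum.inr 1)) * Sf (p (Sum.inr 1)))),
    -(sin (p (Sum.inr 0)) * (Tf (p (Sum.inr 1)) * Sf (p (Sum.inr 1)))),
    Sf (p (Sum.inr 1)) * Sf (p (Sum.inr 1)), 0]

/-- last unit vector -/
def l : Fin 4 → ℝ := ![0, 0, 0, 1]

/-- The hypersurface. -/
def x (β γ : ℝ) (p : Fin m ⊕ Fin 2 → ℝ) : Fin m ⊕ Fin 4 → ℝ :=
  Sum.elim (fun i => p (Sum.inl i)) (fun k => R p * (β * e p k + γ * l k))

/-- Its unit normal. -/
def ν (β γ : ℝ) (p : Fin m ⊕ Fin 2 → ℝ) : Fin m ⊕ Fin 4 → ℝ :=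
  Sum.elim (fun _ => 0) (fun k => γ * e p k - β * l k)

theorem hp_prod_inl (i : Fin m) (φ ψ : ℝ → ℝ) (p : Fin m ⊕ Fin 2 → ℝ) :
    HP (Sum.inl i) (fun q => φ (q (Sum.inr 0)) * ψ (q (Sum.inr 1))) p 0 :=
  ((hp_phi_inl i 0 φ p).mul (hp_phi_inl i 1 ψ p)).congr_d (by ring)

theorem hp_prod_inr0 {φ : ℝ → ℝ} (ψ : ℝ → ℝ) {p : Fin m ⊕ Fin 2 → ℝ} {d : ℝ}
    (h : HasDerivAt φ d (p (Sum.inr 0))) :
    HP (Sum.inr 0) (fun q => φ (q (Sum.inr 0)) * ψ (q (Sum.inr 1))) p (d * ψ (p (Sum.inr 1))) :=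
  ((hp_phi_inr 0 h).mul (hp_phi_inr_ne (by decide) ψ p)).congr_d (by ring)

theorem hp_prod_inr1 (φ : ℝ → ℝ) {ψ : ℝ → ℝ} {p : Fin m ⊕ Fin 2 → ℝ} {d : ℝ}
    (h : HasDerivAt ψ d (p (Sum.inr 1))) :
    HP (Sum.inr 1) (fun q => φ (q (Sum.inr 0)) * ψ (q (Sum.inr 1))) p (φ (p (Sum.inr 0)) * d) :=
  ((hp_phi_inr_ne (by decide) φ p).mul (hp_phi_inr 1 h)).congr_d (by ring)

theorem hp_e_inl (i : Fin m) (k : Fin 4) (p : Fin m ⊕ Fin 2 → ℝ) :
    HP (Sum.inl i) (fun q => e q k) p 0 := by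
  fin_cases k
  · exact hp_prod_inl i cos Sf p
  · exact hp_prod_inl i sin Sf p
  · exact hp_phi_inl i 1 Tf p
  · exact HP.const 0

theorem hp_e_inr (s : Fin 2) (k : Fin 4) (p : Fin m ⊕ Fin 2 → ℝ) :
    HP (Sum.inr s) (fun q => e q k) p (es s p k) := by
  fin_cases s <;> fin_cases k
  · exact (hp_prod_inr0 Sf (Real.hasDerivAt_cos _)).congr_d (by simp [es])
  · exact (hp_prod_inr0 Sf (Real.hasDerivAt_sin _)).congr_d (by simp [es])
  · exact (hp_phi_inr_ne (s := 1) (s' := 0) (by decide) Tf p).congr_d (by simp [es])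
  · exact (HP.const 0).congr_d (by simp [es])
  · exact (hp_prod_inr1 cos (hasDeriv_Sf _)).congr_d (by simp [es])
  · exact (hp_prod_inr1 sin (hasDeriv_Sf _)).congr_d (by simp [es])
  · exact (hp_phi_inr 1 (hasDeriv_Tf _)).congr_d (by simp [es])
  · exact (HP.const 0).congr_d (by simp [es])

theorem smooth_e (k : Fin 4) : ContDiff ℝ (⊤ : ℕ∞) (fun p : Fin m ⊕ Fin 2 → ℝ => e p k) := by
  have h1 : ContDiff ℝ (⊤ : ℕ∞) (fun p : Fin m ⊕ Fin 2 → ℝ => Sf (p (Sum.inr 1))) :=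
    smooth_Sf.comp (contDiff_apply ℝ ℝ (Sum.inr 1 : Fin m ⊕ Fin 2))
  have h2 : ContDiff ℝ (⊤ : ℕ∞) (fun p : Fin m ⊕ Fin 2 → ℝ => Tf (p (Sum.inr 1))) :=
    smooth_Tf.comp (contDiff_apply ℝ ℝ (Sum.inr 1 : Fin m ⊕ Fin 2))
  have h3 : ContDiff ℝ (⊤ : ℕ∞) (fun p : Fin m ⊕ Fin 2 → ℝ => cos (p (Sum.inr 0))) :=
    Real.contDiff_cos.comp (contDiff_apply ℝ ℝ (Sum.inr 0 : Fin m ⊕ Fin 2))
  have h4 : ContDiff ℝ (⊤ : ℕ∞) (fun p : Fin m ⊕ Fin 2 → ℝ => sin (p (Sum.inr 0))) :=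
    Real.contDiff_sin.comp (contDiff_apply ℝ ℝ (Sum.inr 0 : Fin m ⊕ Fin 2))
  fin_cases k
  · exact h3.mul h1
  · exact h4.mul h1
  · exact h2
  · exact contDiff_const

variable {β γ : ℝ}

theorem smooth_x (k : Fin m ⊕ Fin 4) :
    ContDiffOn ℝ (⊤ : ℕ∞) (fun p => x β γ p k) (U m) := by
  rcases k with k | k
  · change ContDiffOn ℝ (⊤ : ℕ∞) (fun p : Fin m ⊕ Fin 2 → ℝ => p (Sum.inl k)) (U m)
    fun_prop
  · change ContDiffOn ℝ (⊤ : ℕ∞)
      (fun p : Fin m ⊕ Fin 2 → ℝ => R p * (β * e p k + γ * l k)) (U m)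
    exact smooth_R.mul ((contDiff_const.mul (smooth_e k)).add contDiff_const).contDiffOn

theorem smooth_nu (k : Fin m ⊕ Fin 4) :
    ContDiffOn ℝ (⊤ : ℕ∞) (fun p => ν β γ p k) (U m) := by
  rcases k with k | k
  · exact contDiffOn_const
  · exact ((contDiff_const.mul (smooth_e k)).sub contDiff_const).contDiffOn

theorem dx_inl {p : Fin m ⊕ Fin 2 → ℝ} (hp : p ∈ U m) (i : Fin m) :
    dx (x β γ) (Sum.inl i) p =
      Sum.elim (fun j => if j = i then 1 else 0)
        (fun k => -(p (Sum.inl i)) / R p * (β * e p k + γ * l k)) := by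
  funext k
  rcases k with j | k
  · change pd (Sum.inl i) (fun q => q (Sum.inl j)) p = _
    rw [(HP.coord (Sum.inl i) (Sum.inl j) p).pd]
    simp
  · change pd (Sum.inl i) (fun q => R q * (β * e q k + γ * l k)) p = _
    rw [((hp_R_inl i hp).mul (((HP.const β).mul (hp_e_inl i k p)).add (HP.const (γ * l k)))).pd]
    simp

theorem dx_inr {p : Fin m ⊕ Fin 2 → ℝ} (hp : p ∈ U m) (s : Fin 2) :
    dx (x β γ) (Sum.inr s) p = Sum.elim (fun _ => 0) (fun k => R p * (β * es s p k)) := by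
  funext k
  rcases k with j | k
  · change pd (Sum.inr s) (fun q => q (Sum.inl j)) p = _
    rw [(HP.coord_ne (i := (Sum.inr s : Fin m ⊕ Fin 2)) (j := Sum.inl j) (by simp) p).pd]
    simp
  · change pd (Sum.inr s) (fun q => R q * (β * e q k + γ * l k)) p = _
    rw [((hp_R_inr s hp).mul (((HP.const β).mul (hp_e_inr s k p)).add (HP.const (γ * l k)))).pd]
    simp

theorem dnu_inl (p : Fin m ⊕ Fin 2 → ℝ) (i : Fin m) : dx (ν β γ) (Sum.inl i) p = 0 := by
  funext k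
  rcases k with j | k
  · exact (HP.const 0).pd
  · change pd (Sum.inl i) (fun q => γ * e q k - β * l k) p = _
    rw [(((HP.const γ).mul (hp_e_inl i k p)).sub (HP.const (β * l k))).pd]
    simp

theorem dnu_inr (p : Fin m ⊕ Fin 2 → ℝ) (s : Fin 2) :
    dx (ν β γ) (Sum.inr s) p = Sum.elim (fun _ => 0) (fun k => γ * es s p k) := by
  funext k
  rcases k with j | k
  · exact (HP.const (i := (Sum.inr s : Fin m ⊕ Fin 2)) (p := p) 0).pd
  · change pd (Sum.inr s) (fun q => γ * e q k - β * l k) p = _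
    rw [(((HP.const γ).mul (hp_e_inr s k p)).sub (HP.const (β * l k))).pd]
    simp

/-! dot products -/

theorem e_e (p : Fin m ⊕ Fin 2 → ℝ) :
    e p 0 * e p 0 + e p 1 * e p 1 + e p 2 * e p 2 = 1 := by
  have h1 := Real.sin_sq_add_cos_sq (p (Sum.inr 0))
  have h2 := Sf_sq (p (Sum.inr 1))
  simp [e]
  linear_combination (Sf (p (Sum.inr 1)) * Sf (p (Sum.inr 1))) * h1 + h2

theorem e3 (p : Fin m ⊕ Fin 2 → ℝ) : e p 3 = 0 := by simp [e]

theorem es3 (s : Fin 2) (p : Fin m ⊕ Fin 2 → ℝ) : es s p 3 = 0 := by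
  fin_cases s <;> simp [es]

theorem e_es (s : Fin 2) (p : Fin m ⊕ Fin 2 → ℝ) :
    e p 0 * es s p 0 + e p 1 * es s p 1 + e p 2 * es s p 2 = 0 := by
  have h1 := Real.sin_sq_add_cos_sq (p (Sum.inr 0))
  fin_cases s
  · simp [e, es]; ring
  · simp [e, es]
    linear_combination (-(Sf (p (Sum.inr 1)) * Sf (p (Sum.inr 1)) * Tf (p (Sum.inr 1)))) * h1

theorem es_es (s t : Fin 2) (p : Fin m ⊕ Fin 2 → ℝ) :
    es s p 0 * es t p 0 + es s p 1 * es t p 1 + es s p 2 * es t p 2 =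
      if s = t then Sf (p (Sum.inr 1)) * Sf (p (Sum.inr 1)) else 0 := by
  have h1 := Real.sin_sq_add_cos_sq (p (Sum.inr 0))
  have h2 := Sf_sq (p (Sum.inr 1))
  fin_cases s <;> fin_cases t
  · simp [es]
    linear_combination (Sf (p (Sum.inr 1)) * Sf (p (Sum.inr 1))) * h1
  · simp [es]; ring
  · simp [es]; ring
  · simp [es]
    linear_combination (Sf (p (Sum.inr 1)) * Sf (p (Sum.inr 1)) * Tf (p (Sum.inr 1)) *
      Tf (p (Sum.inr 1))) * h1 + (Sf (p (Sum.inr 1)) * Sf (p (Sum.inr 1))) * h2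

theorem w_w (h : β * β + γ * γ = 1) (p : Fin m ⊕ Fin 2 → ℝ) :
    (fun k => β * e p k + γ * l k) ⬝ᵥ (fun k => β * e p k + γ * l k) = 1 := by
  have h1 := e_e p
  have h2 := e3 p
  simp only [dotProduct, Fin.sum_univ_four, h2]
  simp [l]
  linear_combination (β * β) * h1 + h

theorem n_n (h : β * β + γ * γ = 1) (p : Fin m ⊕ Fin 2 → ℝ) :
    (fun k => γ * e p k - β * l k) ⬝ᵥ (fun k => γ * e p k - β * l k) = 1 := by
  have h1 := e_e p
  have h2 := e3 p
  simp only [dotProduct, Fin.sum_univ_four, h2]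
  simp [l]
  linear_combination (γ * γ) * h1 + h

theorem n_w (p : Fin m ⊕ Fin 2 → ℝ) :
    (fun k => γ * e p k - β * l k) ⬝ᵥ (fun k => β * e p k + γ * l k) = 0 := by
  have h1 := e_e p
  have h2 := e3 p
  simp only [dotProduct, Fin.sum_univ_four, h2]
  simp [l]
  linear_combination (γ * β) * h1

theorem w_es (s : Fin 2) (p : Fin m ⊕ Fin 2 → ℝ) :
    (fun k => β * e p k + γ * l k) ⬝ᵥ (fun k => es s p k) = 0 := by
  have h1 := e_es s p
  have h2 := e3 p
  have h3 := es3 s p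
  simp only [dotProduct, Fin.sum_univ_four, h2, h3]
  simp [l]
  linear_combination β * h1

theorem n_es (s : Fin 2) (p : Fin m ⊕ Fin 2 → ℝ) :
    (fun k => γ * e p k - β * l k) ⬝ᵥ (fun k => es s p k) = 0 := by
  have h1 := e_es s p
  have h2 := e3 p
  have h3 := es3 s p
  simp only [dotProduct, Fin.sum_univ_four, h2, h3]
  simp [l]
  linear_combination γ * h1

theorem es_dot (s t : Fin 2) (p : Fin m ⊕ Fin 2 → ℝ) :
    (fun k => es s p k) ⬝ᵥ (fun k => es t p k) =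
      if s = t then Sf (p (Sum.inr 1)) * Sf (p (Sum.inr 1)) else 0 := by
  rw [← es_es s t p]
  have h3 := es3 s p
  simp only [dotProduct, Fin.sum_univ_four, h3]
  ring

theorem gram_eq (hβγ : β * β + γ * γ = 1) {p : Fin m ⊕ Fin 2 → ℝ} (hp : p ∈ U m) :
    gram (x β γ) p =
      Matrix.fromBlocks (1 + (R p * R p)⁻¹ • Matrix.vecMulVec (P p) (P p)) 0 0
      ((R p * R p * (β * β) * (Sf (p (Sum.inr 1)) * Sf (p (Sum.inr 1)))) •
        (1 : Matrix (Fin 2) (Fin 2) ℝ)) := by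
  have hR := (R_pos hp).ne'
  ext i j
  rcases i with i | s <;> rcases j with j | t
  · simp only [gram, dx_inl hp, dot_elim, Matrix.fromBlocks_apply₁₁, Matrix.add_apply,
      Matrix.smul_apply, Matrix.vecMulVec_apply, P, Matrix.one_apply, smul_eq_mul]
    have h1 : (fun k => -(p (Sum.inl i)) / R p * (β * e p k + γ * l k)) ⬝ᵥ
        (fun k => -(p (Sum.inl j)) / R p * (β * e p k + γ * l k)) =
        (p (Sum.inl i) * p (Sum.inl j) / (R p * R p)) *
          ((fun k => β * e p k + γ * l k) ⬝ᵥ (fun k => β * e p k + γ * l k)) := by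
      simp only [dotProduct, Finset.mul_sum]
      refine Finset.sum_congr rfl fun k _ => ?_
      field_simp
    have h2 : (fun j_1 => if j_1 = i then (1 : ℝ) else 0) ⬝ᵥ
        (fun j_1 => if j_1 = j then (1 : ℝ) else 0) = if i = j then 1 else 0 := by
      simp [dotProduct, eq_comm]
    rw [h1, h2, w_w hβγ]
    ring
  · simp only [gram, dx_inl hp, dx_inr hp, dot_elim, Matrix.fromBlocks_apply₁₂]
    have h1 : (fun k => -(p (Sum.inl i)) / R p * (β * e p k + γ * l k)) ⬝ᵥ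
        (fun k => R p * (β * es t p k)) =
        -(p (Sum.inl i)) * β * ((fun k => β * e p k + γ * l k) ⬝ᵥ (fun k => es t p k)) := by
      simp only [dotProduct, Finset.mul_sum]
      refine Finset.sum_congr rfl fun k _ => ?_
      field_simp
    rw [h1, w_es]
    simp [dotProduct]
  · simp only [gram, dx_inl hp, dx_inr hp, dot_elim, Matrix.fromBlocks_apply₂₁]
    have h1 : (fun k => R p * (β * es s p k)) ⬝ᵥ
        (fun k => -(p (Sum.inl j)) / R p * (β * e p k + γ * l k)) =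
        -(p (Sum.inl j)) * β * ((fun k => β * e p k + γ * l k) ⬝ᵥ (fun k => es s p k)) := by
      simp only [dotProduct, Finset.mul_sum]
      refine Finset.sum_congr rfl fun k _ => ?_
      field_simp
    rw [h1, w_es]
    simp [dotProduct]
  · simp only [gram, dx_inr hp, dot_elim, Matrix.fromBlocks_apply₂₂, Matrix.smul_apply,
      Matrix.one_apply, smul_eq_mul]
    have h1 : (fun k => R p * (β * es s p k)) ⬝ᵥ (fun k => R p * (β * es t p k)) =
        (R p * R p * (β * β)) * ((fun k => es s p k) ⬝ᵥ (fun k => es t p k)) := by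
      simp only [dotProduct, Finset.mul_sum]
      refine Finset.sum_congr rfl fun k _ => ?_
      ring
    rw [h1, es_dot]
    by_cases hst : s = t
    · simp [hst, dotProduct]
    · simp [hst, dotProduct]

theorem det_pos (hβ : 0 < β) (hβγ : β * β + γ * γ = 1) {p : Fin m ⊕ Fin 2 → ℝ} (hp : p ∈ U m) :
    0 < (gram (x β γ) p).det := by
  have hR := R_pos hp
  have hS := Sf_pos (p (Sum.inr 1))
  have hN := Cone.N_nonneg p
  rw [gram_eq hβγ hp, Matrix.det_fromBlocks_zero₂₁, Matrix.det_smul, Matrix.det_one]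
  have h1 : (1 + (R p * R p)⁻¹ • Matrix.vecMulVec (P p) (P p)) =
      1 + Matrix.replicateCol Unit ((R p * R p)⁻¹ • P p) * Matrix.replicateRow Unit (P p) := by
    ext i j
    simp [Matrix.vecMulVec_apply, Matrix.mul_apply, mul_assoc]
  rw [h1, Matrix.det_one_add_replicateCol_mul_replicateRow, dotProduct_smul, ← N_eq]
  simp only [smul_eq_mul, Fintype.card_fin]
  positivity

theorem x_x (h : β * β + γ * γ = 1) {p : Fin m ⊕ Fin 2 → ℝ} (hp : p ∈ U m) :
    x β γ p ⬝ᵥ x β γ p = 1 := by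
  simp only [x, dot_elim]
  have h1 : (fun k => R p * (β * e p k + γ * l k)) ⬝ᵥ (fun k => R p * (β * e p k + γ * l k)) =
      (R p * R p) * ((fun k => β * e p k + γ * l k) ⬝ᵥ (fun k => β * e p k + γ * l k)) := by
    simp only [dotProduct, Finset.mul_sum]
    exact Finset.sum_congr rfl fun k _ => by ring
  rw [h1, w_w h, R_sq hp]
  change N p + _ = 1
  ring

theorem nu_nu (h : β * β + γ * γ = 1) (p : Fin m ⊕ Fin 2 → ℝ) : ν β γ p ⬝ᵥ ν β γ p = 1 := by
  simp only [ν, dot_elim]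
  rw [n_n h]
  simp [dotProduct]

theorem nu_x (p : Fin m ⊕ Fin 2 → ℝ) : ν β γ p ⬝ᵥ x β γ p = 0 := by
  simp only [ν, x, dot_elim]
  have h1 : (fun k => γ * e p k - β * l k) ⬝ᵥ (fun k => R p * (β * e p k + γ * l k)) =
      R p * ((fun k => γ * e p k - β * l k) ⬝ᵥ (fun k => β * e p k + γ * l k)) := by
    simp only [dotProduct, Finset.mul_sum]
    exact Finset.sum_congr rfl fun k _ => by ring
  rw [h1, n_w]
  simp [dotProduct]

theorem nu_dx {p : Fin m ⊕ Fin 2 → ℝ} (hp : p ∈ U m) (i : Fin m ⊕ Fin 2) :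
    ν β γ p ⬝ᵥ dx (x β γ) i p = 0 := by
  rcases i with i | s
  · rw [dx_inl hp]
    simp only [ν, dot_elim]
    have h1 : (fun k => γ * e p k - β * l k) ⬝ᵥ
        (fun k => -(p (Sum.inl i)) / R p * (β * e p k + γ * l k)) =
        -(p (Sum.inl i)) / R p *
          ((fun k => γ * e p k - β * l k) ⬝ᵥ (fun k => β * e p k + γ * l k)) := by
      simp only [dotProduct, Finset.mul_sum]
      exact Finset.sum_congr rfl fun k _ => by ring
    rw [h1, n_w]
    simp [dotProduct]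
  · rw [dx_inr hp]
    simp only [ν, dot_elim]
    have h1 : (fun k => γ * e p k - β * l k) ⬝ᵥ (fun k => R p * (β * es s p k)) =
        R p * β * ((fun k => γ * e p k - β * l k) ⬝ᵥ (fun k => es s p k)) := by
      simp only [dotProduct, Finset.mul_sum]
      exact Finset.sum_congr rfl fun k _ => by ring
    rw [h1, n_es]
    simp [dotProduct]

theorem isHypersurface (hβ : 0 < β) (h : β * β + γ * γ = 1) :
    IsHypersurface (U m) (x β γ) (ν β γ) where
  dim := by simp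
  isOpen := isOpen_U
  conn := connected_U
  smooth := smooth_x
  smooth_normal := smooth_nu
  immersion := fun p hp => immersion_of_det (det_pos hβ h hp).ne'
  sphere := fun p hp => x_x h hp
  unit := fun p _ => nu_nu h p
  normal_pos := fun p _ => nu_x p
  normal := fun p hp i => nu_dx hp i

theorem fr (hβ : 0 < β) (h : β * β + γ * γ = 1) : Fr (U m) (x β γ) (ν β γ) where
  imm := ⟨isOpen_U, smooth_x, fun p hp => det_pos hβ h hp⟩
  card := by simp
  yy := fun p hp => x_x h hp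
  nn := fun p _ => nu_nu h p
  yn := fun p _ => by
    have := nu_x (β := β) (γ := γ) p
    rw [dotProduct_comm] at this
    exact this
  nd := fun p hp i => nu_dx hp i

end ConeS

end

end Pool.Agent.TH842.Dup
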