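import Pool.Agent.TH842.Dup.ConeS
import Pool.Agent.TH842.Dup.Chain

set_option autoImplicit false
set_option linter.unusedSectionVars false

namespace Pool.Agent.TH842.Dup

open Matrix Real

noncomputable section

section Gen
variable {ι κ : Type} [Fintype ι] [DecidableEq ι] [Fintype κ] [DecidableEq κ]
variable {U : Set (ι → ℝ)} {y : (ι → ℝ) → (κ → ℝ)}

theorem hasDeriv_inv2 {t : ℝ} (ht : t ≠ 0) :
    HasDerivAt (fun t : ℝ => (t * t)⁻¹) (-2 * (t * t * t)⁻¹) t := by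
  have h := ((hasDerivAt_id' t).fun_mul (hasDerivAt_id' t)).fun_inv (mul_ne_zero ht ht)
  refine h.congr_deriv ?_
  field_simp
  ring

theorem hasDeriv_inv3 {t : ℝ} (ht : t ≠ 0) :
    HasDerivAt (fun t : ℝ => -2 * (t * t * t)⁻¹) (6 * (t * t * t * t)⁻¹) t := by
  have h := ((((hasDerivAt_id' t).fun_mul (hasDerivAt_id' t)).fun_mul
    (hasDerivAt_id' t)).fun_inv (mul_ne_zero (mul_ne_zero ht ht) ht)).const_mul (-2)
  refine h.congr_deriv ?_
  field_simp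
  ring

theorem Imm.lap_chain (H : Imm U y) {a b : (ι → ℝ) → ℝ} (sa : Sm U a) (sb : Sm U b)
    (hb : ∀ q ∈ U, b q ≠ 0) (i : ℕ) {p : ι → ℝ} (hp : p ∈ U) {n g κ' : ℝ}
    (hab : Gam y b a p = -(a p * b p) + g * a p / b p) (hbb : Gam y b b p = g - b p * b p)
    (ha : lap y a p = -n * a p - 2 * κ' * g * (a p * (b p * b p)⁻¹))
    (hlb : lap y b p = -n * b p + 2 * g / b p) :
    lap y (fun q => a q * ((b q * b q)⁻¹) ^ i) p =
      (2 * (i : ℝ) - 1) * (n - 2 * i) * (a p * ((b p * b p)⁻¹) ^ i) +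
      g * (4 * (i : ℝ) * i - 6 * i - 2 * κ') * (a p * ((b p * b p)⁻¹) ^ (i + 1)) := by
  have hU := H.isOpen
  have hbp := hb p hp
  have sv : Sm U (fun q => (b q * b q)⁻¹) := (sb.mul sb).inv fun q hq => mul_ne_zero (hb q hq) (hb q hq)
  have s3 : Sm U (fun q => -2 * (b q * b q * b q)⁻¹) :=
    contDiffOn_const.mul (((sb.mul sb).mul sb).inv fun q hq =>
      mul_ne_zero (mul_ne_zero (hb q hq) (hb q hq)) (hb q hq))
  have dv : ∀ q ∈ U, ∀ j, pd j (fun q => (b q * b q)⁻¹) q = -2 * (b q * b q * b q)⁻¹ * pd j b q :=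
    fun q hq j => (HP.comp (φ := fun t : ℝ => (t * t)⁻¹) (hasDeriv_inv2 (hb q hq))
      (sb.hp hU hq j)).pd
  have d3 : ∀ q ∈ U, ∀ j, pd j (fun q => -2 * (b q * b q * b q)⁻¹) q =
      6 * (b q * b q * b q * b q)⁻¹ * pd j b q :=
    fun q hq j => (HP.comp (φ := fun t : ℝ => -2 * (t * t * t)⁻¹) (hasDeriv_inv3 (hb q hq))
      (sb.hp hU hq j)).pd
  have hG : ∀ f, Gam y (fun q => (b q * b q)⁻¹) f p = -2 * (b p * b p * b p)⁻¹ * Gam y b f p := by
    intro f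
    have := Gam_lin (y := y) (a := b) (b := b) (g := fun q => (b q * b q)⁻¹) (f := f)
      (u := -2 * (b p * b p * b p)⁻¹) (v := 0) (p := p) (fun j => by rw [dv p hp j]; ring)
    rw [this]; ring
  have hav : Gam y a (fun q => (b q * b q)⁻¹) p = 2 * a p * (b p * b p)⁻¹ -
      2 * g * a p * ((b p * b p)⁻¹ * (b p * b p)⁻¹) := by
    rw [Gam_comm, hG, hab]
    field_simp
    ring
  have hvv : Gam y (fun q => (b q * b q)⁻¹) (fun q => (b q * b q)⁻¹) p =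
      4 * g * ((b p * b p)⁻¹ * (b p * b p)⁻¹ * (b p * b p)⁻¹) -
        4 * ((b p * b p)⁻¹ * (b p * b p)⁻¹) := by
    rw [hG, Gam_comm, hG, hbb]
    field_simp
    ring
  have J : Jet U b b (fun q => (b q * b q)⁻¹) (fun q => -2 * (b q * b q * b q)⁻¹) (fun _ => 0)
      (fun q => 6 * (b q * b q * b q * b q)⁻¹) (fun _ => 0) (fun _ => 0) (fun _ => 0) := by
    refine ⟨sv, s3, contDiffOn_const, ?_, ?_, ?_⟩
    · intro q hq j; rw [dv q hq j]; ring
    · intro q hq j; rw [d3 q hq j]; ring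
    · intro q hq j; rw [pd_const]; ring
  have hlv : lap y (fun q => (b q * b q)⁻¹) p = (2 * n - 6) * (b p * b p)⁻¹ +
      2 * g * ((b p * b p)⁻¹ * (b p * b p)⁻¹) := by
    rw [H.lap_jet J sb sb hp, hbb, hlb]
    field_simp
    ring
  exact H.lap_pow sa sv i hp (inv_ne_zero (mul_ne_zero hbp hbp)) hav hvv ha hlv

end Gen

namespace ConeS

open Cone (N U R P hp_R_inl hp_R_inr hp_phi_inl hp_phi_inr hp_phi_inr_ne R_pos R_sq isOpen_U
  connected_U smooth_R dot_elim zero_mem N_eq immersion_of_det)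

variable {m : ℕ} {β γ : ℝ}

/-- quadratic form vanishing on the hypersurface -/
def E (m : ℕ) (β γ : ℝ) : Fin m ⊕ Fin 4 → ℝ := Sum.elim (fun _ => 0) ![γ * γ, γ * γ, γ * γ, -(β * β)]

theorem l0 : l 0 = 0 := rfl
theorem l1 : l 1 = 0 := rfl
theorem l2 : l 2 = 0 := rfl
theorem l3 : l 3 = 1 := rfl

theorem lap_coord (hβ : 0 < β) (hγ : 0 < γ) (h : β * β + γ * γ = 1) {p : Fin m ⊕ Fin 2 → ℝ}
    (hp : p ∈ U m) (a : Fin m ⊕ Fin 4) :
    lap (x β γ) (fun q => x β γ q a) p = -((m : ℝ) + 2) * x β γ p a +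
      (-2 * γ / (R p * β)) * ν β γ p a := by
  have hR := R_pos hp
  have hn : (Fintype.card (Fin m ⊕ Fin 2) : ℝ) = (m : ℝ) + 2 := by simp
  rw [← hn]
  have hyn : ∑ a, E m β γ a * (x β γ p a * ν β γ p a) = R p * β * γ := by
    have h1 := e_e p
    have h2 := e3 p
    rw [Fintype.sum_sum_type]
    simp only [E, x, ν, Sum.elim_inl, Sum.elim_inr, zero_mul, Finset.sum_const_zero, zero_add,
      Fin.sum_univ_four, h2, l0, l1, l2, l3]
    simp
    linear_combination (R p * β * γ * γ * γ) * h1 + (R p * β * γ) * h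
  apply (fr (m := m) hβ h).lap_coord hp (e := E m β γ)
  · intro q hq
    have h1 := e_e q
    have h2 := e3 q
    rw [Fintype.sum_sum_type]
    simp only [E, x, Sum.elim_inl, Sum.elim_inr, zero_mul, Finset.sum_const_zero, zero_add,
      Fin.sum_univ_four, h2, l0, l1, l2, l3]
    simp
    linear_combination (R q * R q * β * β * γ * γ) * h1
  · rw [hyn]
    have h1 := e_e p
    have h2 := e3 p
    rw [Fintype.sum_sum_type, Fintype.sum_sum_type]
    simp only [E, ν, Sum.elim_inl, Sum.elim_inr, zero_mul, Finset.sum_const_zero, zero_add,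
      Fin.sum_univ_four, h2, l0, l1, l2, l3]
    have e1 : -2 * γ / (R p * β) * (R p * β * γ) = -2 * γ * γ := by field_simp
    rw [e1]
    simp
    linear_combination (-(γ * γ * γ * γ)) * h1 + (-(γ * γ) + β * β) * h
  · rw [hyn]; positivity

theorem gam_coord (hβ : 0 < β) (h : β * β + γ * γ = 1) {p : Fin m ⊕ Fin 2 → ℝ}
    (hp : p ∈ U m) (a b : Fin m ⊕ Fin 4) :
    Gam (x β γ) (fun q => x β γ q a) (fun q => x β γ q b) p =
      (if a = b then 1 else 0) - x β γ p a * x β γ p b - ν β γ p a * ν β γ p b :=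
  (fr (m := m) hβ h).gam hp a b

theorem x3 (p : Fin m ⊕ Fin 2 → ℝ) : x β γ p (Sum.inr 3) = R p * γ := by
  simp [x, e3, l3]

theorem nu3 (p : Fin m ⊕ Fin 2 → ℝ) : ν β γ p (Sum.inr 3) = -β := by
  simp [ν, e3, l3]

theorem xk {k : Fin 4} (hk : k ≠ 3) (p : Fin m ⊕ Fin 2 → ℝ) :
    x β γ p (Sum.inr k) = R p * (β * e p k) := by
  have : l k = 0 := by fin_cases k <;> simp [l] at hk ⊢
  simp [x, this]

theorem nuk {k : Fin 4} (hk : k ≠ 3) (p : Fin m ⊕ Fin 2 → ℝ) :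
    ν β γ p (Sum.inr k) = γ * e p k := by
  have : l k = 0 := by fin_cases k <;> simp [l] at hk ⊢
  simp [ν, this]

/-- `(γ R)^(-2)` -/
def v (β γ : ℝ) (q : Fin m ⊕ Fin 2 → ℝ) : ℝ :=
  (x β γ q (Sum.inr 3) * x β γ q (Sum.inr 3))⁻¹

theorem lap_b (hβ : 0 < β) (hγ : 0 < γ) (h : β * β + γ * γ = 1) {p : Fin m ⊕ Fin 2 → ℝ}
    (hp : p ∈ U m) : lap (x β γ) (fun q => x β γ q (Sum.inr 3)) p =
      -((m : ℝ) + 2) * x β γ p (Sum.inr 3) + 2 * (γ * γ) / x β γ p (Sum.inr 3) := by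
  have hR := R_pos hp
  rw [lap_coord hβ hγ h hp, nu3, x3]
  field_simp

theorem gam_bb (hβ : 0 < β) (h : β * β + γ * γ = 1) {p : Fin m ⊕ Fin 2 → ℝ}
    (hp : p ∈ U m) : Gam (x β γ) (fun q => x β γ q (Sum.inr 3)) (fun q => x β γ q (Sum.inr 3)) p =
      γ * γ - x β γ p (Sum.inr 3) * x β γ p (Sum.inr 3) := by
  rw [gam_coord hβ h hp, nu3]
  simp only [if_true]
  linarith

theorem lap_uk (hβ : 0 < β) (hγ : 0 < γ) (h : β * β + γ * γ = 1) {p : Fin m ⊕ Fin 2 → ℝ}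
    (hp : p ∈ U m) {k : Fin 4} (hk : k ≠ 3) (i : ℕ) :
    lap (x β γ) (fun q => x β γ q (Sum.inr k) * v β γ q ^ i) p =
      (2 * (i : ℝ) - 1) * (((m : ℝ) + 2) - 2 * i) * (x β γ p (Sum.inr k) * v β γ p ^ i) +
      (γ * γ) * (4 * (i : ℝ) * i - 6 * i - 2 * (γ * γ / (β * β))) *
        (x β γ p (Sum.inr k) * v β γ p ^ (i + 1)) := by
  have hR := R_pos hp
  refine (fr (m := m) hβ h).imm.lap_chain (smooth_x _) (smooth_x _) ?_ i hp ?_ (gam_bb hβ h hp) ?_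
    (lap_b hβ hγ h hp)
  · intro q hq
    have := R_pos hq
    rw [x3]; positivity
  · have hne : (Sum.inr 3 : Fin m ⊕ Fin 4) ≠ Sum.inr k := fun h => hk (Sum.inr_injective h).symm
    rw [gam_coord hβ h hp, nu3, nuk hk, if_neg hne, xk hk, x3]
    field_simp
    ring
  · rw [lap_coord hβ hγ h hp, nuk hk, xk hk, x3]
    field_simp
    ring

theorem lap_ub (hβ : 0 < β) (hγ : 0 < γ) (h : β * β + γ * γ = 1) {p : Fin m ⊕ Fin 2 → ℝ}
    (hp : p ∈ U m) (i : ℕ) :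
    lap (x β γ) (fun q => x β γ q (Sum.inr 3) * v β γ q ^ i) p =
      (2 * (i : ℝ) - 1) * (((m : ℝ) + 2) - 2 * i) * (x β γ p (Sum.inr 3) * v β γ p ^ i) +
      (γ * γ) * (4 * (i : ℝ) * i - 6 * i - 2 * (-1)) *
        (x β γ p (Sum.inr 3) * v β γ p ^ (i + 1)) := by
  have hR := R_pos hp
  refine (fr (m := m) hβ h).imm.lap_chain (smooth_x _) (smooth_x _) ?_ i hp ?_ (gam_bb hβ h hp) ?_
    (lap_b hβ hγ h hp)
  · intro q hq
    have := R_pos hq
    rw [x3]; positivity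
  · rw [gam_bb hβ h hp, x3]
    field_simp
    ring
  · rw [lap_b hβ hγ h hp, x3]
    field_simp
    ring

end ConeS

end

end Pool.Agent.TH842.Dup
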