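import Pool.Agent.TH842.Dup.ConeS2

set_option autoImplicit false
set_option linter.unusedSectionVars false

namespace Pool.Agent.TH842.Dup

open Matrix Real

noncomputable section

namespace ConeS

open Cone (N U R P hp_R_inl hp_R_inr hp_phi_inl hp_phi_inr hp_phi_inr_ne R_pos R_sq isOpen_U
  connected_U smooth_R dot_elim zero_mem N_eq immersion_of_det)

variable {m : ℕ} {β γ : ℝ}

/-- a test point -/
def pt (m : ℕ) (r θ : ℝ) : Fin m ⊕ Fin 2 → ℝ :=
  Sum.elim (fun i => if (i : ℕ) = 0 then r else 0) ![θ, 0]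

theorem N_pt (hm : 1 ≤ m) (r θ : ℝ) : N (pt m r θ) = r * r := by
  unfold N pt
  simp only [Sum.elim_inl]
  rw [Finset.sum_eq_single ⟨0, hm⟩]
  · simp
  · intro b _ hb
    have : (b : ℕ) ≠ 0 := fun h => hb (Fin.ext h)
    simp [this]
  · simp

theorem pt_mem (hm : 1 ≤ m) {r : ℝ} (hr : r * r < 1) (θ : ℝ) : pt m r θ ∈ U m := by
  change N _ < 1
  rw [N_pt hm]; exact hr

theorem smooth_v (hγ : 0 < γ) : ContDiffOn ℝ (⊤ : ℕ∞) (v (m := m) β γ) (U m) := by
  unfold v
  refine ((smooth_x (Sum.inr 3)).mul (smooth_x (Sum.inr 3))).inv ?_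
  intro q hq
  have := R_pos hq
  rw [x3]; positivity

theorem Sf0 : Sf 0 = 1 := by simp [Sf]

theorem lap_zero' {ι κ : Type} [Fintype ι] [DecidableEq ι] [Fintype κ]
    (x : (ι → ℝ) → (κ → ℝ)) (p : ι → ℝ) : lap x (fun _ => (0 : ℝ)) p = 0 := by
  rw [lap_eq]
  have h : ∀ i, flux x (fun _ => (0 : ℝ)) i = fun _ => 0 := by
    intro i; funext q
    unfold flux
    simp [pd_const]
  simp only [h]
  simp [pd_const]

/-- k-type -/
theorem kType (hm : 1 ≤ m) (hβ : 0 < β) (hγ : 0 < γ) (h : β * β + γ * γ = 1) {M : ℕ} (hM : 2 ≤ M)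
    (hκ : γ * γ / (β * β) = M * (2 * M - 3))
    (hinj : ∀ i j : ℕ, i ≤ M → j ≤ M → i ≠ j → 2 * (i + j) ≠ m + 3) :
    IsKType (M + 1) (U m) (x (m := m) β γ) := by
  set n : ℝ := (m : ℝ) + 2 with hn
  set f : ℕ → ℝ := fun i => (2 * (i : ℝ) - 1) * (n - 2 * i) with hf
  have hfi : ∀ i j, i ≤ M → j ≤ M → f i = f j → i = j := by
    intro i j hi hj hij
    have h1 : ((i : ℝ) - j) * (n + 1 - 2 * ((i : ℝ) + j)) = 0 := by
      simp only [hf] at hij; linear_combination (1 / 2) * hij
    rcases mul_eq_zero.mp h1 with h2 | h2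
    · have : (i : ℝ) = j := by linarith
      exact_mod_cast this
    · by_contra hne
      apply hinj i j hi hj hne
      have h3 : 2 * ((i : ℝ) + j) = (m : ℝ) + 3 := by rw [hn] at h2; linarith
      exact_mod_cast h3
  set g : ℕ → ℝ := fun i => (γ * γ) * (4 * (i : ℝ) * i - 6 * i - 2 * (γ * γ / (β * β))) with hg
  set g' : ℕ → ℝ := fun i => (γ * γ) * (4 * (i : ℝ) * i - 6 * i - 2 * (-1)) with hg'
  have hgne : ∀ i, i < M → g i ≠ 0 := by
    intro i hi
    have e : g i = (γ * γ) * (2 * ((i : ℝ) - M) * (2 * i + 2 * M - 3)) := by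
      simp only [hg]; rw [hκ]; ring
    rw [e]
    have h1 : (i : ℝ) - M ≠ 0 := by
      have : (i : ℝ) < M := by exact_mod_cast hi
      linarith
    have h2 : 2 * (i : ℝ) + 2 * M - 3 ≠ 0 := by
      have h3 : (2 : ℝ) ≤ M := by exact_mod_cast hM
      have h4 : (0 : ℝ) ≤ i := Nat.cast_nonneg i
      linarith
    exact mul_ne_zero (mul_pos hγ hγ).ne' (mul_ne_zero (mul_ne_zero two_ne_zero h1) h2)
  have hgM : g M = 0 := by
    simp only [hg]; rw [hκ]; ring
  have hg'0 : ∀ i, i < 1 → g' i ≠ 0 := by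
    intro i hi
    obtain rfl : i = 0 := by omega
    have := mul_pos hγ hγ
    simp only [hg']
    simp
    exact hγ.ne'
  have hg'1 : g' 1 = 0 := by simp only [hg']; norm_num
  obtain ⟨c, c1, c2, c3, c4, c5⟩ := chain M f g hfi hgne
  obtain ⟨d, _, d2, d3, d4, d5⟩ := chain 1 f g' (fun i j hi hj hij => hfi i j (by omega) (by omega) hij) hg'0
  have himm := (fr (m := m) hβ h).imm
  have su : ∀ (a : Fin m ⊕ Fin 4) (i : ℕ), Sm (U m) (fun q => x β γ q a * v β γ q ^ i) :=
    fun a i => (smooth_x a).mul ((smooth_v hγ).pow i)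
  set Y : Fin (M + 1) → (Fin m ⊕ Fin 2 → ℝ) → (Fin m ⊕ Fin 4 → ℝ) := fun j q =>
    Sum.elim (fun i => if (j : ℕ) = 0 then q (Sum.inl i) else 0)
      (fun k => if k = 3 then (if (j : ℕ) ≤ 1 then
          ∑ i ∈ Finset.range 2, d j i * (x β γ q (Sum.inr k) * v β γ q ^ i) else 0)
        else ∑ i ∈ Finset.range (M + 1), c j i * (x β γ q (Sum.inr k) * v β γ q ^ i)) with hY
  refine ⟨0, Y, fun j => f j, ?_, ?_, ?_, ?_, ?_⟩
  · intro a b hab
    exact Fin.ext (hfi _ _ (Nat.lt_succ_iff.mp a.2) (Nat.lt_succ_iff.mp b.2) hab)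
  · intro j a
    rcases a with i | k
    · by_cases hj : (j : ℕ) = 0
      · have e : (fun q => Y j q (Sum.inl i)) = fun q : Fin m ⊕ Fin 2 → ℝ => q (Sum.inl i) := by
          funext q; simp only [hY, Sum.elim_inl, if_pos hj]
        rw [e]; fun_prop
      · have e : (fun q => Y j q (Sum.inl i)) = fun _ => 0 := by
          funext q; simp only [hY, Sum.elim_inl, if_neg hj]
        rw [e]; exact contDiffOn_const
    · by_cases hk : k = 3
      · by_cases hj : (j : ℕ) ≤ 1
        · have e : (fun q => Y j q (Sum.inr k)) = fun q : Fin m ⊕ Fin 2 → ℝ =>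
              ∑ i ∈ Finset.range 2, d j i * (x β γ q (Sum.inr k) * v β γ q ^ i) := by
            funext q; simp only [hY, Sum.elim_inr, if_pos hk, if_pos hj]
          rw [e]
          exact Sm.sum _ fun i _ => contDiffOn_const.mul (su _ i)
        · have e : (fun q => Y j q (Sum.inr k)) = fun _ => 0 := by
            funext q; simp only [hY, Sum.elim_inr, if_pos hk, if_neg hj]
          rw [e]; exact contDiffOn_const
      · have e : (fun q => Y j q (Sum.inr k)) = fun q : Fin m ⊕ Fin 2 → ℝ =>
            ∑ i ∈ Finset.range (M + 1), c j i * (x β γ q (Sum.inr k) * v β γ q ^ i) := by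
          funext q; simp only [hY, Sum.elim_inr, if_neg hk]
        rw [e]
        exact Sm.sum _ fun i _ => contDiffOn_const.mul (su _ i)
  · intro j
    have hjM : (j : ℕ) ≤ M := Nat.lt_succ_iff.mp j.2
    -- the polynomial
    set Φ : Polynomial ℝ := ∑ i ∈ Finset.range (M + 1), Polynomial.C (c j i) * Polynomial.X ^ i
      with hΦ
    have hcoef : Φ.coeff j = c j j := by
      rw [hΦ, Polynomial.finsetSum_coeff]
      simp only [Polynomial.coeff_C_mul_X_pow]
      rw [Finset.sum_eq_single (j : ℕ)]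
      · simp
      · intro b _ hb; simp [Ne.symm hb]
      · intro hn; exact absurd (Finset.mem_range.mpr j.2) hn
    have hΦ0 : Φ ≠ 0 := by
      intro h0
      rw [h0] at hcoef
      exact c1 j hjM (by simpa using hcoef.symm)
    have hex : ∃ t : ℝ, (γ * γ)⁻¹ ≤ t ∧ Φ.eval t ≠ 0 := by
      by_contra hcon
      push Not at hcon
      apply hΦ0
      apply Polynomial.eq_zero_of_infinite_isRoot
      exact (Set.Ici_infinite ((γ * γ)⁻¹)).mono fun t ht => hcon t ht
    obtain ⟨t, ht, hΦt⟩ := hex
    have hgg : 0 < γ * γ := mul_pos hγ hγ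
    have ht0 : 0 < t := lt_of_lt_of_le (inv_pos.mpr hgg) ht
    -- R² = 1 / (t γ²)
    set ρ : ℝ := 1 / (t * (γ * γ)) with hρ
    have hρ0 : 0 < ρ := by positivity
    have hρ1 : ρ ≤ 1 := by
      rw [hρ, div_le_one (by positivity)]
      have := mul_le_mul_of_nonneg_right ht hgg.le
      rwa [inv_mul_cancel₀ hgg.ne'] at this
    set r : ℝ := Real.sqrt (1 - ρ) with hr
    have hrr : r * r = 1 - ρ := Real.mul_self_sqrt (by linarith)
    have hmem : ∀ θ, pt m r θ ∈ U m := fun θ => pt_mem hm (by rw [hrr]; linarith) θ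
    have hRR : ∀ θ, R (pt m r θ) * R (pt m r θ) = ρ := by
      intro θ; rw [R_sq (hmem θ), N_pt hm, hrr]; ring
    have hRp : ∀ θ, R (pt m r θ) = Real.sqrt ρ := by
      intro θ
      unfold R
      rw [N_pt hm, hrr]; congr 1; ring
    have hv : ∀ θ, v β γ (pt m r θ) = t := by
      intro θ
      unfold v
      rw [x3]
      have : R (pt m r θ) * γ * (R (pt m r θ) * γ) = ρ * (γ * γ) := by
        rw [← hRR θ]; ring
      rw [this, hρ]
      field_simp
    have hval : ∀ θ, Y j (pt m r θ) (Sum.inr 0) = Real.sqrt ρ * β * (cos θ) * Φ.eval t := by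
      intro θ
      have h03 : (0 : Fin 4) ≠ 3 := by decide
      simp only [hY, Sum.elim_inr, if_neg h03, hv]
      rw [xk h03, hRp θ, hΦ, Polynomial.eval_finsetSum, Finset.mul_sum]
      refine Finset.sum_congr rfl fun i _ => ?_
      have he0 : e (pt m r θ) 0 = cos θ := by
        simp [e, pt, Sf0]
      rw [he0]
      simp
      ring
    refine ⟨pt m r 0, hmem 0, pt m r π, hmem π, ?_⟩
    intro heq
    have h0 := congrFun heq (Sum.inr 0)
    rw [hval, hval, cos_zero, cos_pi] at h0
    have hs : 0 < Real.sqrt ρ := Real.sqrt_pos.mpr hρ0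
    have h1 : (Real.sqrt ρ * β) * Φ.eval t = 0 := by linarith
    rcases mul_eq_zero.mp h1 with h2 | h2
    · exact (mul_pos hs hβ).ne' h2
    · exact hΦt h2
  · intro j a p hp
    have hjM : (j : ℕ) ≤ M := Nat.lt_succ_iff.mp j.2
    rcases a with i | k
    · by_cases hj : (j : ℕ) = 0
      · have e : (fun q => Y j q (Sum.inl i)) = fun q : Fin m ⊕ Fin 2 → ℝ =>
            x β γ q (Sum.inl i) := by
          funext q; simp only [hY, Sum.elim_inl, if_pos hj, x]
        rw [e, lap_coord hβ hγ h hp]
        simp only [hY, hf, hj, ν, x, Sum.elim_inl, if_true]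
        push_cast
        ring
      · have e : (fun q => Y j q (Sum.inl i)) = fun _ => 0 := by
          funext q; simp only [hY, Sum.elim_inl, if_neg hj]
        rw [e]
        have e2 : Y j p (Sum.inl i) = 0 := congrFun e p
        rw [e2, lap_zero', mul_zero]
    · by_cases hk : k = 3
      · subst hk
        by_cases hj : (j : ℕ) ≤ 1
        · have e : (fun q => Y j q (Sum.inr 3)) = fun q : Fin m ⊕ Fin 2 → ℝ =>
              ∑ i ∈ Finset.range 2, d j i * (x β γ q (Sum.inr 3) * v β γ q ^ i) := by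
            funext q; simp only [hY, Sum.elim_inr, if_true, if_pos hj]
          have e2 := congrFun e p
          rw [e, e2, himm.lap_sum _ _ (fun i => su _ i) hp]
          simp only [lap_ub hβ hγ h hp]
          have h3 := chain_sum (M := 1) (f := f) (g := g') (c := d j) (l := f j)
            (u := fun i => x β γ p (Sum.inr 3) * v β γ p ^ i) (d2 j hj)
            (fun i hi => d3 j hj i hi) hg'1
          exact h3
        · have e : (fun q => Y j q (Sum.inr 3)) = fun _ => 0 := by
            funext q; simp only [hY, Sum.elim_inr, if_true, if_neg hj]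
          rw [e]
          have e2 : Y j p (Sum.inr 3) = 0 := congrFun e p
          rw [e2, lap_zero', mul_zero]
      · have e : (fun q => Y j q (Sum.inr k)) = fun q : Fin m ⊕ Fin 2 → ℝ =>
            ∑ i ∈ Finset.range (M + 1), c j i * (x β γ q (Sum.inr k) * v β γ q ^ i) := by
          funext q; simp only [hY, Sum.elim_inr, if_neg hk]
        have e2 := congrFun e p
        rw [e, e2, himm.lap_sum _ _ (fun i => su _ i) hp]
        simp only [lap_uk hβ hγ h hp hk]
        have h3 := chain_sum (M := M) (f := f) (g := g) (c := c j) (l := f j)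
          (u := fun i => x β γ p (Sum.inr k) * v β γ p ^ i) (c2 j hjM)
          (fun i hi => c3 j hjM i hi) hgM
        exact h3
  · intro p _
    funext a
    simp only [Pi.add_apply, Pi.zero_apply, Finset.sum_apply, zero_add]
    rcases a with i | k
    · have e : ∀ j : Fin (M + 1), Y j p (Sum.inl i) = if (j : ℕ) = 0 then p (Sum.inl i) else 0 := by
        intro j; simp only [hY, Sum.elim_inl]
      simp only [e]
      rw [Fin.sum_univ_succ]
      simp [x]
    · by_cases hk : k = 3
      · subst hk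
        have e : ∀ j : Fin (M + 1), Y j p (Sum.inr 3) = (fun j : ℕ => if j ≤ 1 then
            ∑ i ∈ Finset.range 2, d j i * (x β γ p (Sum.inr 3) * v β γ p ^ i) else 0) j := by
          intro j; simp only [hY, Sum.elim_inr, if_true]
        simp only [e]
        rw [Fin.sum_univ_eq_sum_range (fun j : ℕ => if j ≤ 1 then
            ∑ i ∈ Finset.range 2, d j i * (x β γ p (Sum.inr 3) * v β γ p ^ i) else 0) (M + 1)]
        have hsub : Finset.range 2 ⊆ Finset.range (M + 1) := by
          intro a ha; rw [Finset.mem_range] at *; omega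
        rw [← Finset.sum_subset hsub]
        · have h4 := chain_total (M := 1) (c := d)
            (u := fun i => x β γ p (Sum.inr 3) * v β γ p ^ i) d4 d5
          have h5 : ∀ j ∈ Finset.range 2, (if j ≤ 1 then
            ∑ i ∈ Finset.range 2, d j i * (x β γ p (Sum.inr 3) * v β γ p ^ i) else 0) =
            ∑ i ∈ Finset.range 2, d j i * (x β γ p (Sum.inr 3) * v β γ p ^ i) := by
            intro j hj
            rw [Finset.mem_range] at hj
            rw [if_pos (by omega)]
          rw [Finset.sum_congr rfl h5]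
          rw [h4]; simp
        · intro j _ hj
          rw [Finset.mem_range] at hj
          rw [if_neg (by omega)]
      · have e : ∀ j : Fin (M + 1), Y j p (Sum.inr k) = (fun j : ℕ =>
            ∑ i ∈ Finset.range (M + 1), c j i * (x β γ p (Sum.inr k) * v β γ p ^ i)) j := by
          intro j; simp only [hY, Sum.elim_inr, if_neg hk]
        simp only [e]
        rw [Fin.sum_univ_eq_sum_range (fun j : ℕ =>
            ∑ i ∈ Finset.range (M + 1), c j i * (x β γ p (Sum.inr k) * v β γ p ^ i)) (M + 1)]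
        rw [chain_total (M := M) (c := c)
            (u := fun i => x β γ p (Sum.inr k) * v β γ p ^ i) c4 c5]
        simp

end ConeS

end

end Pool.Agent.TH842.Dup
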