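import Pool.Agent.TH842.Dup.ConeS3

set_option autoImplicit false
set_option linter.unusedSectionVars false

namespace Pool.Agent.TH842.Dup

open Matrix Real

noncomputable section

namespace ConeS

open Cone (N U R P hp_R_inl hp_R_inr hp_phi_inl hp_phi_inr hp_phi_inr_ne R_pos R_sq isOpen_U
  connected_U smooth_R dot_elim zero_mem N_eq immersion_of_det)

variable {m : ℕ} {β γ : ℝ}

theorem mem_principal {p : Fin m ⊕ Fin 2 → ℝ} (hp : p ∈ U m) {c : ℝ} {w : Fin m ⊕ Fin 2 → ℝ} :
    w ∈ principal (x β γ) (ν β γ) p c ↔ (∀ i : Fin m, c * w (Sum.inl i) = 0) ∧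
      ∀ s : Fin 2, w (Sum.inr s) * (γ + c * R p * β) = 0 := by
  change (∑ i, w i • dx (ν β γ) i p = -(c • ∑ i, w i • dx (x β γ) i p)) ↔ _
  rw [Fintype.sum_sum_type, Fintype.sum_sum_type]
  simp only [dnu_inl, dnu_inr, dx_inl hp, dx_inr hp, smul_zero, Finset.sum_const_zero, zero_add,
    Fin.sum_univ_two]
  have hS0 : (∀ i : Fin m, c * w (Sum.inl i) = 0) →
      c * ∑ i : Fin m, w (Sum.inl i) * (-(p (Sum.inl i)) / R p) = 0 := by
    intro hin
    rw [Finset.mul_sum]
    refine Finset.sum_eq_zero fun i _ => ?_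
    rw [← mul_assoc, hin i, zero_mul]
  have hF : ∀ k : Fin 4,
      ∑ i : Fin m, w (Sum.inl i) * (-(p (Sum.inl i)) / R p * (β * e p k + γ * l k)) =
          (∑ i : Fin m, w (Sum.inl i) * (-(p (Sum.inl i)) / R p)) * (β * e p k + γ * l k) := by
    intro k
    rw [Finset.sum_mul]
    exact Finset.sum_congr rfl fun i _ => by ring
  constructor
  · intro h
    have hin : ∀ i : Fin m, c * w (Sum.inl i) = 0 := by
      intro i
      have h3 := congrFun h (Sum.inl i)
      simp [Finset.sum_apply] at h3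
      rcases h3 with h3 | h3
      · rw [h3]; ring
      · rw [h3]; ring
    have hS := hS0 hin
    have key : ∀ k : Fin 4, (w (Sum.inr 0) * es 0 p k + w (Sum.inr 1) * es 1 p k) *
        (γ + c * R p * β) = 0 := by
      intro k
      have h3 := congrFun h (Sum.inr k)
      simp only [Pi.add_apply, Pi.smul_apply, Sum.elim_inr, smul_eq_mul, Pi.neg_apply,
        Finset.sum_apply] at h3
      rw [hF k] at h3
      linear_combination h3 - (β * e p k + γ * l k) * hS
    refine ⟨hin, ?_⟩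
    intro s
    have hSf := Sf_pos (p (Sum.inr 1))
    have e1 := es_es s 0 p
    have e2 := es_es s 1 p
    have k0 := key 0
    have k1 := key 1
    have k2 := key 2
    have h5 : (w (Sum.inr s) * (γ + c * R p * β)) * (Sf (p (Sum.inr 1)) * Sf (p (Sum.inr 1))) = 0 := by
      have h6 : (w (Sum.inr 0) * (es s p 0 * es 0 p 0 + es s p 1 * es 0 p 1 + es s p 2 * es 0 p 2) +
          w (Sum.inr 1) * (es s p 0 * es 1 p 0 + es s p 1 * es 1 p 1 + es s p 2 * es 1 p 2)) *
          (γ + c * R p * β) = 0 := by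
        linear_combination es s p 0 * k0 + es s p 1 * k1 + es s p 2 * k2
      rw [e1, e2] at h6
      fin_cases s
      · simp at h6 ⊢
        rcases h6 with h6 | h6
        · rcases h6 with h6 | h6
          · left; left; exact h6
          · exact absurd h6 hSf.ne'
        · left; right; exact h6
      · simp at h6 ⊢
        rcases h6 with h6 | h6
        · rcases h6 with h6 | h6
          · left; left; exact h6
          · exact absurd h6 hSf.ne'
        · left; right; exact h6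
    exact (mul_eq_zero.mp h5).resolve_right (mul_pos hSf hSf).ne'
  · rintro ⟨hin, hs⟩
    have hS := hS0 hin
    have h0 := hs 0
    have h1 := hs 1
    funext k
    rcases k with k | k
    · simp [Finset.sum_apply, hin k]
    · simp only [Pi.add_apply, Pi.smul_apply, Sum.elim_inr, smul_eq_mul, Pi.neg_apply,
        Finset.sum_apply]
      rw [hF k]
      linear_combination (β * e p k + γ * l k) * hS + es 0 p k * h0 + es 1 p k * h1

/-- the nonzero principal curvature -/
def cv (β γ : ℝ) (p : Fin m ⊕ Fin 2 → ℝ) : ℝ := -(γ / β) * (R p)⁻¹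

theorem cv_mul (hβ : 0 < β) {p : Fin m ⊕ Fin 2 → ℝ} (hp : p ∈ U m) :
    γ + cv β γ p * R p * β = 0 := by
  have hR := (R_pos hp).ne'
  have hb := hβ.ne'
  unfold cv
  field_simp
  ring

theorem cv_neg (hβ : 0 < β) (hγ : 0 < γ) {p : Fin m ⊕ Fin 2 → ℝ} (hp : p ∈ U m) :
    cv β γ p < 0 := by
  have hR := R_pos hp
  have : 0 < γ / β * (R p)⁻¹ := by positivity
  unfold cv
  linarith

theorem mem_zero (hγ : 0 < γ) {p : Fin m ⊕ Fin 2 → ℝ} (hp : p ∈ U m) {w : Fin m ⊕ Fin 2 → ℝ} :
    w ∈ principal (x β γ) (ν β γ) p 0 ↔ ∀ s : Fin 2, w (Sum.inr s) = 0 := by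
  rw [mem_principal hp]
  constructor
  · rintro ⟨_, h⟩ s
    have := h s
    simp at this
    exact this.resolve_right hγ.ne'
  · intro h
    exact ⟨fun i => by ring, fun s => by rw [h s]; ring⟩

theorem mem_cv (hβ : 0 < β) (hγ : 0 < γ) {p : Fin m ⊕ Fin 2 → ℝ} (hp : p ∈ U m)
    {w : Fin m ⊕ Fin 2 → ℝ} :
    w ∈ principal (x β γ) (ν β γ) p (cv β γ p) ↔ ∀ i : Fin m, w (Sum.inl i) = 0 := by
  rw [mem_principal hp]
  have hc := (cv_neg (m := m) hβ hγ hp).ne
  constructor
  · rintro ⟨h, _⟩ i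
    exact (mul_eq_zero.mp (h i)).resolve_left hc
  · intro h
    exact ⟨fun i => by rw [h i]; ring, fun s => by rw [cv_mul hβ hp]; ring⟩

theorem finrank_zero (hγ : 0 < γ) {p : Fin m ⊕ Fin 2 → ℝ} (hp : p ∈ U m) :
    Module.finrank ℝ (principal (x β γ) (ν β γ) p 0) = m := by
  have h : principal (x β γ) (ν β γ) p 0 = LinearMap.range
      ((LinearEquiv.sumArrowLequivProdArrow (Fin m) (Fin 2) ℝ ℝ).symm.toLinearMap ∘ₗ
          LinearMap.inl ℝ (Fin m → ℝ) (Fin 2 → ℝ)) := by
    ext w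
    rw [mem_zero hγ hp, LinearMap.mem_range]
    constructor
    · intro h0
      refine ⟨fun i => w (Sum.inl i), ?_⟩
      funext i
      rcases i with i | s
      · simp
      · simp [h0 s]
    · rintro ⟨u, rfl⟩ s
      simp
  rw [h, LinearMap.finrank_range_of_inj]
  · simp
  · intro u w h
    have h' : ∀ i : Fin m, u i = w i := by
      intro i
      have := congrFun h (Sum.inl i)
      simpa using this
    exact funext h'

theorem finrank_cv (hβ : 0 < β) (hγ : 0 < γ) {p : Fin m ⊕ Fin 2 → ℝ} (hp : p ∈ U m) :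
    Module.finrank ℝ (principal (x β γ) (ν β γ) p (cv β γ p)) = 2 := by
  have h : principal (x β γ) (ν β γ) p (cv β γ p) = LinearMap.range
      ((LinearEquiv.sumArrowLequivProdArrow (Fin m) (Fin 2) ℝ ℝ).symm.toLinearMap ∘ₗ
          LinearMap.inr ℝ (Fin m → ℝ) (Fin 2 → ℝ)) := by
    ext w
    rw [mem_cv hβ hγ hp, LinearMap.mem_range]
    constructor
    · intro h0
      refine ⟨fun i => w (Sum.inr i), ?_⟩
      funext i
      rcases i with i | s
      · simp [h0 i]
      · simp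
    · rintro ⟨u, rfl⟩ s
      simp
  rw [h, LinearMap.finrank_range_of_inj]
  · simp
  · intro u w h
    have h' : ∀ i : Fin 2, u i = w i := by
      intro i
      have := congrFun h (Sum.inr i)
      simpa using this
    exact funext h'

theorem isDupin (hm : 1 ≤ m) (hβ : 0 < β) (hγ : 0 < γ) :
    IsDupin (U m) (x (m := m) β γ) (ν β γ) := by
  refine ⟨2, ![fun _ => 0, cv β γ], ![m, 2], ?_, ?_, ?_, ?_⟩
  · intro a
    fin_cases a
    · exact contDiffOn_const
    · exact contDiffOn_const.mul (smooth_R.inv fun p hp => (R_pos hp).ne')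
  · intro a
    fin_cases a
    · exact hm
    · exact Nat.two_pos
  · simp
  · intro p hp
    have hc := cv_neg (m := m) hβ hγ hp
    refine ⟨?_, ?_, ?_⟩
    · intro a b hab
      fin_cases a <;> fin_cases b <;> simp at hab ⊢ <;> linarith
    · intro a
      fin_cases a
      · exact finrank_zero hγ hp
      · exact finrank_cv hβ hγ hp
    · intro a w hw
      rw [Fintype.sum_sum_type, Fin.sum_univ_two]
      fin_cases a
      · change ∑ i, w (Sum.inl i) * pd (Sum.inl i) (fun _ => (0 : ℝ)) p +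
          (w (Sum.inr 0) * pd (Sum.inr 0) (fun _ => (0 : ℝ)) p +
            w (Sum.inr 1) * pd (Sum.inr 1) (fun _ => (0 : ℝ)) p) = 0
        simp [pd_const]
      · have hw' := (mem_cv hβ hγ hp).mp hw
        have h0 : ∀ s : Fin 2, pd (Sum.inr s) (cv (m := m) β γ) p = 0 := by
          intro s
          have h := HP.comp (φ := fun t : ℝ => -(γ / β) * t⁻¹)
            ((hasDerivAt_inv (R_pos hp).ne').const_mul (-(γ / β))) (hp_R_inr s hp)
          have h2 := HP.congr_d h (mul_zero _)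
          exact h2.pd
        change ∑ i, w (Sum.inl i) * pd (Sum.inl i) (cv β γ) p +
          (w (Sum.inr 0) * pd (Sum.inr 0) (cv β γ) p +
            w (Sum.inr 1) * pd (Sum.inr 1) (cv β γ) p) = 0
        simp [h0, hw']

theorem ne_bot_iff (hm : 1 ≤ m) (hβ : 0 < β) (hγ : 0 < γ) {p : Fin m ⊕ Fin 2 → ℝ} (hp : p ∈ U m)
    (c : ℝ) : principal (x β γ) (ν β γ) p c ≠ ⊥ ↔ c = 0 ∨ c = cv β γ p := by
  constructor
  · intro h
    by_contra hcon
    push Not at hcon
    apply h
    rw [Submodule.eq_bot_iff]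
    intro w hw
    rw [mem_principal hp] at hw
    funext i
    rcases i with i | s
    · exact (mul_eq_zero.mp (hw.1 i)).resolve_left hcon.1
    · refine (mul_eq_zero.mp (hw.2 s)).resolve_right ?_
      intro h2
      have h3 := cv_mul (γ := γ) hβ hp
      have h4 : (c - cv β γ p) * (R p * β) = 0 := by linarith
      have h5 := (mul_eq_zero.mp h4).resolve_right (mul_pos (R_pos hp) hβ).ne'
      exact hcon.2 (by linarith)
  · rintro (rfl | rfl) h
    · have h1 := finrank_zero (β := β) hγ hp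
      rw [h, finrank_bot] at h1
      omega
    · have h1 := finrank_cv hβ hγ hp
      rw [h, finrank_bot] at h1
      omega

theorem two_curvatures (hm : 1 ≤ m) (hβ : 0 < β) (hγ : 0 < γ) {p : Fin m ⊕ Fin 2 → ℝ}
    (hp : p ∈ U m) : {c : ℝ | principal (x β γ) (ν β γ) p c ≠ ⊥}.ncard = 2 := by
  have h : {c : ℝ | principal (x β γ) (ν β γ) p c ≠ ⊥} = {0, cv β γ p} := by
    ext c
    rw [Set.mem_ofPred_eq, ne_bot_iff hm hβ hγ hp]
    simp
  rw [h]
  exact Set.ncard_pair (cv_neg (m := m) hβ hγ hp).ne'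

theorem not_isoparametric (hm : 1 ≤ m) (hβ : 0 < β) (hγ : 0 < γ) :
    ¬ IsIsoparametric (U m) (x (m := m) β γ) (ν β γ) := by
  intro h
  have h0 : pt m 0 0 ∈ U m := pt_mem hm (by norm_num) 0
  have h1 : pt m (1 / 2) 0 ∈ U m := pt_mem hm (by norm_num) 0
  have h2 := h _ h0 _ h1 (cv β γ (pt m 0 0)) ((ne_bot_iff hm hβ hγ h0 _).mpr (Or.inr rfl))
  rw [ne_bot_iff hm hβ hγ h1] at h2
  have hR0 : R (pt m 0 0) * R (pt m 0 0) = 1 := by rw [R_sq h0, N_pt hm]; norm_num
  have hR1 : R (pt m (1 / 2) 0) * R (pt m (1 / 2) 0) = 3 / 4 := by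
    rw [R_sq h1, N_pt hm]; norm_num
  rcases h2 with h2 | h2
  · exact (cv_neg (m := m) hβ hγ h0).ne h2
  · unfold cv at h2
    have h3 : (R (pt m 0 0))⁻¹ = (R (pt m (1 / 2) 0))⁻¹ := by
      have h4 : -(γ / β) ≠ 0 := by
        have : 0 < γ / β := by positivity
        linarith
      exact mul_left_cancel₀ h4 h2
    have h5 := inv_inj.mp h3
    rw [h5, hR1] at hR0
    norm_num at hR0

end ConeS

/-- the main statement about the cones -/
theorem cones (m : ℕ) (hm : 1 ≤ m) (k : ℕ) (hk : 3 ≤ k) (hmk : Even m ∨ 4 * k ≤ m + 8) :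
    ∃ (x ν : (Fin m ⊕ Fin 2 → ℝ) → (Fin m ⊕ Fin 4 → ℝ)),
      IsHypersurface (Cone.U m) x ν ∧ IsDupin (Cone.U m) x ν ∧
      (∀ p ∈ Cone.U m, {c : ℝ | principal x ν p c ≠ ⊥}.ncard = 2) ∧
      IsKType k (Cone.U m) x ∧ ¬ IsIsoparametric (Cone.U m) x ν := by
  obtain ⟨M, rfl⟩ : ∃ M, k = M + 1 := ⟨k - 1, by omega⟩
  have hM : 2 ≤ M := by omega
  have hM' : (2 : ℝ) ≤ M := by exact_mod_cast hM
  set K : ℝ := M * (2 * M - 3) with hK
  have hKp : 0 < K := by
    have : 0 < 2 * (M : ℝ) - 3 := by linarith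
    positivity
  have h1K : 0 < 1 / (1 + K) := by positivity
  have h2K : 0 < K / (1 + K) := by positivity
  set β := Real.sqrt (1 / (1 + K)) with hβd
  set γ := Real.sqrt (K / (1 + K)) with hγd
  have hβ : 0 < β := Real.sqrt_pos.mpr h1K
  have hγ : 0 < γ := Real.sqrt_pos.mpr h2K
  have hββ : β * β = 1 / (1 + K) := Real.mul_self_sqrt h1K.le
  have hγγ : γ * γ = K / (1 + K) := Real.mul_self_sqrt h2K.le
  have h : β * β + γ * γ = 1 := by
    rw [hββ, hγγ]; field_simp
  have hκ : γ * γ / (β * β) = M * (2 * M - 3) := by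
    rw [hββ, hγγ, ← hK]; field_simp
  have hinj : ∀ i j : ℕ, i ≤ M → j ≤ M → i ≠ j → 2 * (i + j) ≠ m + 3 := by
    intro i j hi hj hij h2
    rcases hmk with ⟨t, ht⟩ | hmk
    · omega
    · omega
  exact ⟨ConeS.x β γ, ConeS.ν β γ, ConeS.isHypersurface hβ h, ConeS.isDupin hm hβ hγ,
    fun p hp => ConeS.two_curvatures hm hβ hγ hp, ConeS.kType hm hβ hγ h hM hκ hinj,
    ConeS.not_isoparametric hm hβ hγ⟩

end

end Pool.Agent.TH842.Dup
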