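import Mathlib

/-!
# Hypersurfaces of the unit sphere in coordinates: finite type, Dupin, isoparametric

A hypersurface of the unit sphere is given by a parametrisation `x : U → ℝ^κ` of an open connected
set `U ⊆ ℝ^ι`, together with a unit normal field `ν`.  Here `ι`, `κ` are finite index sets with
`card κ = card ι + 2`.
-/

set_option autoImplicit false

namespace Pool.Agent.TH842.Dup

open Matrix

noncomputable section

variable {ι κ : Type} [Fintype ι] [DecidableEq ι] [Fintype κ]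

/-- The partial derivative of a real function in the coordinate direction `i`. -/
def pd (i : ι) (f : (ι → ℝ) → ℝ) (p : ι → ℝ) : ℝ :=
  deriv (fun t => f (Function.update p i t)) (p i)

/-- The `i`-th partial derivative of a map to `ℝ^κ`. -/
def dx (x : (ι → ℝ) → (κ → ℝ)) (i : ι) (p : ι → ℝ) : κ → ℝ :=
  fun k => pd i (fun q => x q k) p

/-- The metric induced by `x`: `g i j = ⟨∂ᵢ x, ∂ⱼ x⟩`. -/
def gram (x : (ι → ℝ) → (κ → ℝ)) (p : ι → ℝ) : Matrix ι ι ℝ :=
  fun i j => dx x i p ⬝ᵥ dx x j p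

/-- The Laplace operator of the metric induced by `x`:
`Δ f = (det g)^(-1/2) ∑ᵢ ∂ᵢ ((det g)^(1/2) ∑ⱼ g^{ij} ∂ⱼ f)`. -/
def lap (x : (ι → ℝ) → (κ → ℝ)) (f : (ι → ℝ) → ℝ) (p : ι → ℝ) : ℝ :=
  (Real.sqrt (gram x p).det)⁻¹ *
    ∑ i, pd i (fun q => Real.sqrt (gram x q).det * ∑ j, (gram x q)⁻¹ i j * pd j f q) p

/-- `x` restricted to `U` is a smooth immersed connected hypersurface of the unit sphere of `ℝ^κ`
with smooth unit normal field `ν`. -/
structure IsHypersurface (U : Set (ι → ℝ)) (x ν : (ι → ℝ) → (κ → ℝ)) : Prop where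
  dim : Fintype.card κ = Fintype.card ι + 2
  isOpen : IsOpen U
  conn : IsConnected U
  smooth : ∀ k, ContDiffOn ℝ (⊤ : ℕ∞) (fun p => x p k) U
  smooth_normal : ∀ k, ContDiffOn ℝ (⊤ : ℕ∞) (fun p => ν p k) U
  immersion : ∀ p ∈ U, LinearIndependent ℝ (fun i => dx x i p)
  sphere : ∀ p ∈ U, x p ⬝ᵥ x p = 1
  unit : ∀ p ∈ U, ν p ⬝ᵥ ν p = 1
  normal_pos : ∀ p ∈ U, ν p ⬝ᵥ x p = 0
  normal : ∀ p ∈ U, ∀ i, ν p ⬝ᵥ dx x i p = 0

/-- The space of principal vectors at `p` for the value `c`: tangent vectors `w` (in coordinates)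
with `dν(w) = -c dx(w)`, i.e. `A w = c w` for the shape operator `A`. -/
def principal (x ν : (ι → ℝ) → (κ → ℝ)) (p : ι → ℝ) (c : ℝ) : Submodule ℝ (ι → ℝ) where
  carrier := {w | ∑ i, w i • dx ν i p = -(c • ∑ i, w i • dx x i p)}
  add_mem' := by
    intro a b ha hb
    simp only [Set.mem_setOf_eq, Pi.add_apply, add_smul, Finset.sum_add_distrib] at *
    rw [ha, hb, smul_add, neg_add]
  zero_mem' := by simp
  smul_mem' := by
    intro r a ha
    simp only [Set.mem_setOf_eq, Pi.smul_apply, smul_eq_mul, mul_smul] at *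
    rw [← Finset.smul_sum, ← Finset.smul_sum, ha, smul_neg, smul_comm]

/-- Dupin: the principal curvatures are given by smooth functions with constant multiplicities,
and each is constant along its principal directions. -/
def IsDupin (U : Set (ι → ℝ)) (x ν : (ι → ℝ) → (κ → ℝ)) : Prop :=
  ∃ (g : ℕ) (c : Fin g → (ι → ℝ) → ℝ) (mult : Fin g → ℕ),
    (∀ a, ContDiffOn ℝ (⊤ : ℕ∞) (c a) U) ∧ (∀ a, 0 < mult a) ∧
    ∑ a, mult a = Fintype.card ι ∧
    ∀ p ∈ U, Function.Injective (fun a => c a p) ∧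
      (∀ a, Module.finrank ℝ (principal x ν p (c a p)) = mult a) ∧
      ∀ a, ∀ w ∈ principal x ν p (c a p), ∑ i, w i * pd i (c a) p = 0

/-- Isoparametric: the set of principal curvatures is the same at all points of `U`. -/
def IsIsoparametric (U : Set (ι → ℝ)) (x ν : (ι → ℝ) → (κ → ℝ)) : Prop :=
  ∀ p ∈ U, ∀ q ∈ U, ∀ c : ℝ, principal x ν p c ≠ ⊥ → principal x ν q c ≠ ⊥

/-- `x` is of `k`-type on `U`: `x = c + ∑ₐ yₐ` with `c` constant, `yₐ` smooth and not constant,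
`Δ yₐ = λₐ yₐ`, and `λₐ` pairwise distinct. -/
def IsKType (k : ℕ) (U : Set (ι → ℝ)) (x : (ι → ℝ) → (κ → ℝ)) : Prop :=
  ∃ (c : κ → ℝ) (y : Fin k → (ι → ℝ) → (κ → ℝ)) (l : Fin k → ℝ), Function.Injective l ∧
    (∀ a j, ContDiffOn ℝ (⊤ : ℕ∞) (fun p => y a p j) U) ∧
    (∀ a, ∃ p ∈ U, ∃ q ∈ U, y a p ≠ y a q) ∧
    (∀ a j, ∀ p ∈ U, lap x (fun q => y a q j) p = l a * y a p j) ∧
    ∀ p ∈ U, x p = c + ∑ a, y a p

end

end Pool.Agent.TH842.Dup
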