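import Pool.Agent.TH842.Dup.Cases

set_option autoImplicit false
set_option linter.unusedSectionVars false

namespace Pool.Agent.TH842.Dup

open Matrix

noncomputable section

section Gen

variable {ι κ : Type} [Fintype ι] [DecidableEq ι] [Fintype κ]
variable {U : Set (ι → ℝ)} {y : (ι → ℝ) → (κ → ℝ)}

/-- finite type -/
def IsFiniteType (U : Set (ι → ℝ)) (x : (ι → ℝ) → (κ → ℝ)) : Prop := ∃ k, IsKType k U x

theorem det_pos_of_li {p : ι → ℝ} (h : LinearIndependent ℝ (fun i => dx y i p)) :
    0 < (gram y p).det := by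
  set B : Matrix ι κ ℝ := Matrix.of fun i => dx y i p with hB
  have h1 : gram y p = B * B.conjTranspose := by
    ext i j
    simp only [gram, hB, Matrix.mul_apply, Matrix.of_apply, Matrix.conjTranspose_apply,
      dotProduct, star_trivial]
  have h2 : (gram y p).PosDef := by
    rw [h1]
    apply Matrix.PosDef.mul_conjTranspose_self
    intro u w huw
    rw [← sub_eq_zero]
    have h3 : (u - w) ᵥ* B = 0 := by
      rw [Matrix.sub_vecMul, sub_eq_zero]; exact huw
    rw [Fintype.linearIndependent_iff] at h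
    funext i
    refine h (u - w) ?_ i
    funext a
    have := congrFun h3 a
    simp only [Matrix.vecMul, dotProduct, hB, Matrix.of_apply] at this
    simp only [Finset.sum_apply, Pi.smul_apply, smul_eq_mul]
    exact this
  exact h2.det_pos

theorem lap_congr_gram {κ' : Type} [Fintype κ'] {x : (ι → ℝ) → (κ' → ℝ)} (hU : IsOpen U)
    (h : ∀ q ∈ U, gram x q = gram y q) (f : (ι → ℝ) → ℝ) {p : ι → ℝ} (hp : p ∈ U) :
    lap x f p = lap y f p := by
  rw [lap_eq, lap_eq, h p hp]
  congr 1
  refine Finset.sum_congr rfl fun i _ => ?_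
  refine pd_congr hU hp (fun q hq => ?_) i
  unfold flux
  rw [h q hq]

end Gen

variable {ι κ₁ κ₂ : Type} [Fintype ι] [DecidableEq ι] [Fintype κ₁] [Fintype κ₂]
  [DecidableEq κ₁] [DecidableEq κ₂]
variable {U : Set (ι → ℝ)} {y : (ι → ℝ) → (κ₁ ⊕ κ₂ → ℝ)} {r s : ℝ}

theorem SphProd.nonconst1 (S : SphProd U y r s) (hne : U.Nonempty) (hP : 2 ≤ Fintype.card κ₁) :
    ∃ p ∈ U, ∃ q ∈ U, (fun a => y p (Sum.inl a)) ≠ fun a => y q (Sum.inl a) := by
  by_contra h
  push Not at h
  obtain ⟨p, hp⟩ := hne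
  have hr := S.rpos
  have hP' : (2 : ℝ) ≤ Fintype.card κ₁ := by exact_mod_cast hP
  have h0 : ∀ a, y p (Sum.inl a) = 0 := by
    intro a
    have h1 : ∀ q ∈ U, y q (Sum.inl a) = y p (Sum.inl a) := fun q hq => congrFun (h q hq p hp) a
    have h2 : lap y (fun q => y q (Sum.inl a)) p = 0 :=
      lap_zero_of_pd S.imm.isOpen (fun q hq j => pd_zero_of_const S.imm.isOpen h1 hq j) hp
    rw [S.lap_inl hp] at h2
    refine (mul_eq_zero.mp h2).resolve_left ?_
    have : (0 : ℝ) < (Fintype.card κ₁ : ℝ) - 1 := by linarith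
    have h3 : 0 < ((Fintype.card κ₁ : ℝ) - 1) / (r * r) := by positivity
    rw [neg_div]
    linarith
  have h4 := S.h1 p hp
  simp only [h0, mul_zero, Finset.sum_const_zero] at h4
  nlinarith

theorem SphProd.nonconst2 (S : SphProd U y r s) (hne : U.Nonempty) (hP : 2 ≤ Fintype.card κ₂) :
    ∃ p ∈ U, ∃ q ∈ U, (fun a => y p (Sum.inr a)) ≠ fun a => y q (Sum.inr a) := by
  by_contra h
  push Not at h
  obtain ⟨p, hp⟩ := hne
  have hr := S.spos
  have hP' : (2 : ℝ) ≤ Fintype.card κ₂ := by exact_mod_cast hP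
  have h0 : ∀ a, y p (Sum.inr a) = 0 := by
    intro a
    have h1 : ∀ q ∈ U, y q (Sum.inr a) = y p (Sum.inr a) := fun q hq => congrFun (h q hq p hp) a
    have h2 : lap y (fun q => y q (Sum.inr a)) p = 0 :=
      lap_zero_of_pd S.imm.isOpen (fun q hq j => pd_zero_of_const S.imm.isOpen h1 hq j) hp
    rw [S.lap_inr hp] at h2
    refine (mul_eq_zero.mp h2).resolve_left ?_
    have : (0 : ℝ) < (Fintype.card κ₂ : ℝ) - 1 := by linarith
    have h3 : 0 < ((Fintype.card κ₂ : ℝ) - 1) / (s * s) := by positivity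
    rw [neg_div]
    linarith
  have h4 := S.h2 p hp
  simp only [h0, mul_zero, Finset.sum_const_zero] at h4
  nlinarith

theorem SphProd.finite_zero (S : SphProd U y r s) (hne : U.Nonempty)
    (hrs : r * r + s * s = 1) (hP : 2 ≤ Fintype.card κ₁) (hQ : 2 ≤ Fintype.card κ₂) :
    IsFiniteType U (mob 0 y) := by
  have hU := S.imm.isOpen
  have hy := S.nsq_y hrs
  have hv : nsq (0 : κ₁ ⊕ κ₂ → ℝ) < 1 := by simp [nsq]
  have hn0 : nsq (0 : κ₁ ⊕ κ₂ → ℝ) = 0 := by simp [nsq]
  have hx : ∀ q ∈ U, mob 0 y q = y q := by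
    intro q hq
    funext a
    unfold mob
    simp only [Pi.zero_apply, add_zero, zero_add]
    rw [hn0]
    have : nsq (fun b => y q b) = 1 := hy q hq
    rw [this]; ring
  have hg : ∀ q ∈ U, gram (mob 0 y) q = gram y q := by
    intro q hq
    rw [S.imm.gram_mob hv hy hq, hn0]
    simp only [Pi.zero_apply, add_zero]
    have : nsq (fun b => y q b) = 1 := hy q hq
    rw [this]; simp
  have hlap : ∀ f : (ι → ℝ) → ℝ, ∀ p ∈ U, lap (mob 0 y) f p = lap y f p :=
    fun f p hp => lap_congr_gram hU hg f hp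
  by_cases hE : -((Fintype.card κ₁ : ℝ) - 1) / (r * r) = -((Fintype.card κ₂ : ℝ) - 1) / (s * s)
  · refine ⟨1, 0, fun _ => y, fun _ => -((Fintype.card κ₁ : ℝ) - 1) / (r * r),
      fun a b _ => Subsingleton.elim a b, fun _ j => S.imm.sm j, ?_, ?_, ?_⟩
    · intro _
      obtain ⟨p, hp, q, hq, hpq⟩ := S.nonconst1 hne hP
      refine ⟨p, hp, q, hq, fun h => hpq ?_⟩
      funext a
      exact congrFun h (Sum.inl a)
    · intro _ j p hp
      rw [hlap _ p hp]
      rcases j with j | j
      · exact S.lap_inl hp j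
      · rw [hE]; exact S.lap_inr hp j
    · intro p hp
      rw [hx p hp]; simp
  · refine ⟨2, 0, ![fun q => Sum.elim (fun a => y q (Sum.inl a)) (fun _ => 0),
      fun q => Sum.elim (fun _ => 0) (fun a => y q (Sum.inr a))],
      ![-((Fintype.card κ₁ : ℝ) - 1) / (r * r), -((Fintype.card κ₂ : ℝ) - 1) / (s * s)],
      ?_, ?_, ?_, ?_, ?_⟩
    · intro a b hab
      fin_cases a <;> fin_cases b
      · rfl
      · exact absurd hab hE
      · exact absurd hab.symm hE
      · rfl
    · intro a j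
      fin_cases a
      · rcases j with j | j
        · exact S.imm.sm (Sum.inl j)
        · exact contDiffOn_const
      · rcases j with j | j
        · exact contDiffOn_const
        · exact S.imm.sm (Sum.inr j)
    · intro a
      fin_cases a
      · obtain ⟨p, hp, q, hq, hpq⟩ := S.nonconst1 hne hP
        refine ⟨p, hp, q, hq, fun h => hpq ?_⟩
        funext a
        exact congrFun h (Sum.inl a)
      · obtain ⟨p, hp, q, hq, hpq⟩ := S.nonconst2 hne hQ
        refine ⟨p, hp, q, hq, fun h => hpq ?_⟩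
        funext a
        exact congrFun h (Sum.inr a)
    · intro a j p hp
      rw [hlap _ p hp]
      fin_cases a
      · rcases j with j | j
        · exact S.lap_inl hp j
        · change lap y (fun _ => 0) p = _ * 0
          rw [lap_const, mul_zero]
      · rcases j with j | j
        · change lap y (fun _ => 0) p = _ * 0
          rw [lap_const, mul_zero]
        · exact S.lap_inr hp j
    · intro p hp
      rw [hx p hp]
      funext j
      simp only [Pi.add_apply, Pi.zero_apply, Fin.sum_univ_two, zero_add]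
      rcases j with j | j
      · simp
      · simp

/-- The classification for Möbius images of products of two spheres. -/
theorem finite_iff {p q : ℕ} (hp : 1 ≤ p) (hq : 1 ≤ q) {r s : ℝ} (hr : 0 < r) (hs : 0 < s)
    (hrs : r ^ 2 + s ^ 2 = 1) {v : Fin (p + 1) ⊕ Fin (q + 1) → ℝ} (hv : nsq v < 1)
    (hcard : Fintype.card ι = p + q) (hU : IsOpen U) (hc : IsConnected U)
    {y : (ι → ℝ) → (Fin (p + 1) ⊕ Fin (q + 1) → ℝ)}
    (hsm : ∀ k, ContDiffOn ℝ (⊤ : ℕ∞) (fun z => y z k) U)
    (hli : ∀ z ∈ U, LinearIndependent ℝ (fun i => dx y i z))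
    (h1 : ∀ z ∈ U, ∑ a, y z (Sum.inl a) ^ 2 = r ^ 2)
    (h2 : ∀ z ∈ U, ∑ b, y z (Sum.inr b) ^ 2 = s ^ 2) :
    IsFiniteType U (mob v y) ↔ v = 0 := by
  have S : SphProd U y r s := by
    refine ⟨⟨hU, hsm, fun z hz => det_pos_of_li (hli z hz)⟩, ?_, hr, hs, ?_, ?_⟩
    · rw [Fintype.card_sum, Fintype.card_fin, Fintype.card_fin, hcard]; ring
    · intro z hz
      rw [← sq, ← h1 z hz]
      exact Finset.sum_congr rfl fun a _ => (sq _).symm
    · intro z hz
      rw [← sq, ← h2 z hz]
      exact Finset.sum_congr rfl fun a _ => (sq _).symm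
  have hrs' : r * r + s * s = 1 := by rw [← hrs]; ring
  constructor
  · rintro ⟨k, hk⟩
    by_contra hv0
    exact S.not_finite hc hrs' hv hp hq (Fintype.card_fin _) (Fintype.card_fin _) hv0 hk
  · rintro rfl
    exact S.finite_zero hc.nonempty hrs' (by simp; omega) (by simp; omega)

end

end Pool.Agent.TH842.Dup
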