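import Pool.Agent.TH842.Dup.Cone

set_option autoImplicit false
set_option linter.unusedSectionVars false

namespace Pool.Agent.TH842.Dup

open Matrix

noncomputable section

variable {ι κ : Type} [Fintype ι] [DecidableEq ι] [Fintype κ]

/-- smooth on `U` -/
abbrev Sm (U : Set (ι → ℝ)) (f : (ι → ℝ) → ℝ) : Prop := ContDiffOn ℝ (⊤ : ℕ∞) f U

variable {U : Set (ι → ℝ)}

theorem Sm.diffAt (hU : IsOpen U) {f : (ι → ℝ) → ℝ} (hf : Sm U f) {p : ι → ℝ} (hp : p ∈ U) :
    DifferentiableAt ℝ f p :=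
  (hf.contDiffAt (hU.mem_nhds hp)).differentiableAt (by simp)

theorem hp_fderiv {f : (ι → ℝ) → ℝ} {p : ι → ℝ} (h : DifferentiableAt ℝ f p) (i : ι) :
    HP i f p (fderiv ℝ f p (Pi.single i 1)) := by
  have h1 : HasFDerivAt f (fderiv ℝ f p) (Function.update p i (p i)) := by
    rw [Function.update_eq_self]; exact h.hasFDerivAt
  exact h1.comp_hasDerivAt (p i) (hasDerivAt_update p i (p i))

theorem Sm.hp (hU : IsOpen U) {f : (ι → ℝ) → ℝ} (hf : Sm U f) {p : ι → ℝ} (hp : p ∈ U) (i : ι) :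
    HP i f p (pd i f p) := by
  have h := hp_fderiv (hf.diffAt hU hp) i
  rwa [h.pd]

theorem pd_eq_fderiv (hU : IsOpen U) {f : (ι → ℝ) → ℝ} (hf : Sm U f) {p : ι → ℝ} (hp : p ∈ U)
    (i : ι) : pd i f p = fderiv ℝ f p (Pi.single i 1) := (hp_fderiv (hf.diffAt hU hp) i).pd

theorem Sm.fder (hU : IsOpen U) {f : (ι → ℝ) → ℝ} (hf : Sm U f) :
    ContDiffOn ℝ (⊤ : ℕ∞) (fderiv ℝ f) U :=
  hf.fderiv_of_isOpen hU (by simp)

theorem Sm.pd (hU : IsOpen U) {f : (ι → ℝ) → ℝ} (hf : Sm U f) (i : ι) : Sm U (pd i f) := by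
  have h : ContDiffOn ℝ (⊤ : ℕ∞) (fun p => fderiv ℝ f p (Pi.single i 1)) U :=
    (hf.fder hU).clm_apply contDiffOn_const
  exact h.congr fun p hp => pd_eq_fderiv hU hf hp i

theorem pd_comm (hU : IsOpen U) {f : (ι → ℝ) → ℝ} (hf : Sm U f) {p : ι → ℝ} (hp : p ∈ U)
    (i j : ι) : pd i (pd j f) p = pd j (pd i f) p := by
  have h1 : ∀ i j : ι, pd i (pd j f) p =
      fderiv ℝ (fderiv ℝ f) p (Pi.single i 1) (Pi.single j 1) := by
    intro i j
    rw [pd_eq_fderiv hU (hf.pd hU j) hp i]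
    have h2 : pd j f =ᶠ[nhds p] fun q => fderiv ℝ f q (Pi.single j 1) := by
      filter_upwards [hU.mem_nhds hp] with q hq
      exact pd_eq_fderiv hU hf hq j
    rw [h2.fderiv_eq]
    have hd : DifferentiableAt ℝ (fderiv ℝ f) p :=
      ((hf.fder hU).contDiffAt (hU.mem_nhds hp)).differentiableAt (by simp)
    rw [fderiv_clm_apply hd (differentiableAt_const _)]
    simp
  rw [h1, h1]
  have h3 : IsSymmSndFDerivAt ℝ f p :=
    (hf.contDiffAt (hU.mem_nhds hp)).isSymmSndFDerivAt (by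
      rw [minSmoothness_of_isRCLikeNormedField]
      exact WithTop.coe_le_coe.mpr (le_top : (2 : ℕ∞) ≤ ⊤))
  exact h3 _ _

/-! determinant -/

theorem sm_det {n : Type} [Fintype n] [DecidableEq n] {M : (ι → ℝ) → Matrix n n ℝ}
    (h : ∀ i j, Sm U (fun q => M q i j)) : Sm U (fun q => (M q).det) := by
  simp only [Matrix.det_apply]
  unfold Sm
  apply ContDiffOn.sum
  intro σ _
  apply ContDiffOn.const_smul
  apply contDiffOn_prod
  intro i _
  exact h _ _

theorem sm_inv {n : Type} [Fintype n] [DecidableEq n] {M : (ι → ℝ) → Matrix n n ℝ}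
    (h : ∀ i j, Sm U (fun q => M q i j)) (hd : ∀ q ∈ U, (M q).det ≠ 0) (i j : n) :
    Sm U (fun q => (M q)⁻¹ i j) := by
  have h1 : Sm U (fun q => (M q).adjugate i j) := by
    simp only [Matrix.adjugate_apply]
    apply sm_det
    intro a b
    by_cases ha : a = j
    · subst ha
      simp only [Matrix.updateRow_self]
      exact contDiffOn_const
    · simp only [Matrix.updateRow_ne ha]
      exact h a b
  have h2 : Sm U (fun q => ((M q).det)⁻¹ * (M q).adjugate i j) :=
    ((sm_det h).inv hd).mul h1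
  refine h2.congr fun q hq => ?_
  simp [Matrix.inv_def]

/-- the determinant as a continuous multilinear map of the rows -/
def detCM (n : Type) [Fintype n] [DecidableEq n] :
    ContinuousMultilinearMap ℝ (fun _ : n => n → ℝ) ℝ :=
  { (Matrix.detRowAlternating (R := ℝ) (n := n)).toMultilinearMap with
    cont := by
      change Continuous (fun v : n → n → ℝ => (Matrix.of v).det)
      exact Continuous.matrix_det continuous_id }

theorem hp_det {n : Type} [Fintype n] [DecidableEq n] {M : (ι → ℝ) → Matrix n n ℝ} {k : ι}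
    {p : ι → ℝ} {M' : n → n → ℝ} (h : ∀ i j, HP k (fun q => M q i j) p (M' i j))
    (hd : (M p).det ≠ 0) :
    HP k (fun q => (M q).det) p ((M p).det * ∑ i, ∑ j, (M p)⁻¹ j i * M' i j) := by
  have h1 : HasDerivAt (fun t => (fun i j => M (Function.update p k t) i j : n → n → ℝ)) M' (p k) :=
    hasDerivAt_pi.2 (fun i => hasDerivAt_pi.2 (fun j => h i j))
  have h2 := ((detCM n).hasFDerivAt
    (x := fun i j => M (Function.update p k (p k)) i j)).comp_hasDerivAt (p k) h1
  rw [ContinuousMultilinearMap.linearDeriv_apply] at h2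
  refine HP.congr_d (f := fun q => (M q).det) h2 ?_
  rw [Function.update_eq_self, Finset.mul_sum]
  refine Finset.sum_congr rfl fun i _ => ?_
  change ((M p).updateRow i (M' i)).det = _
  rw [← Matrix.cramer_transpose_apply, Matrix.cramer_eq_adjugate_mulVec,
    ← Matrix.adjugate_transpose]
  simp only [Matrix.mulVec, dotProduct, Matrix.transpose_apply, Finset.mul_sum]
  refine Finset.sum_congr rfl fun j _ => ?_
  rw [Matrix.inv_def]
  simp only [Matrix.smul_apply, smul_eq_mul, Ring.inverse_eq_inv']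
  field_simp

end

end Pool.Agent.TH842.Dup
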