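import Pool.Agent.TH842.Dup.Geo

set_option autoImplicit false
set_option linter.unusedSectionVars false

namespace Pool.Agent.TH842.Dup

open Matrix

noncomputable section

variable {ι κ : Type} [Fintype ι] [DecidableEq ι] [Fintype κ]

/-- data of a smooth immersion -/
structure Imm (U : Set (ι → ℝ)) (y : (ι → ℝ) → (κ → ℝ)) : Prop where
  isOpen : IsOpen U
  sm : ∀ k, Sm U (fun p => y p k)
  det_pos : ∀ p ∈ U, 0 < (gram y p).det

variable {U : Set (ι → ℝ)} {y : (ι → ℝ) → (κ → ℝ)}

theorem pd_add (hU : IsOpen U) {f g : (ι → ℝ) → ℝ} (hf : Sm U f) (hg : Sm U g) {p : ι → ℝ}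
    (hp : p ∈ U) (i : ι) : pd i (fun q => f q + g q) p = pd i f p + pd i g p :=
  ((hf.hp hU hp i).add (hg.hp hU hp i)).pd

theorem pd_mul (hU : IsOpen U) {f g : (ι → ℝ) → ℝ} (hf : Sm U f) (hg : Sm U g) {p : ι → ℝ}
    (hp : p ∈ U) (i : ι) : pd i (fun q => f q * g q) p = pd i f p * g p + f p * pd i g p :=
  ((hf.hp hU hp i).mul (hg.hp hU hp i)).pd

theorem pd_sum (hU : IsOpen U) {α : Type} (s : Finset α) {f : α → (ι → ℝ) → ℝ}
    (hf : ∀ a ∈ s, Sm U (f a)) {p : ι → ℝ} (hp : p ∈ U) (i : ι) :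
    pd i (fun q => ∑ a ∈ s, f a q) p = ∑ a ∈ s, pd i (f a) p :=
  (HP.sum s fun a ha => (hf a ha).hp hU hp i).pd

theorem pd_const (i : ι) (c : ℝ) (p : ι → ℝ) : pd i (fun _ => c) p = 0 := (HP.const c).pd

theorem Sm.sum {α : Type} (s : Finset α) {f : α → (ι → ℝ) → ℝ} (hf : ∀ a ∈ s, Sm U (f a)) :
    Sm U (fun q => ∑ a ∈ s, f a q) := ContDiffOn.sum hf

namespace Imm

variable (H : Imm U y)
include H

theorem sm_dx (i : ι) (k : κ) : Sm U (fun q => dx y i q k) := (H.sm k).pd H.isOpen i

theorem sm_gram (i j : ι) : Sm U (fun q => gram y q i j) := by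
  unfold gram dotProduct
  exact Sm.sum _ fun k _ => (H.sm_dx i k).mul (H.sm_dx j k)

theorem det_ne {p : ι → ℝ} (hp : p ∈ U) : (gram y p).det ≠ 0 := (H.det_pos p hp).ne'

theorem sm_inv (i j : ι) : Sm U (fun q => (gram y q)⁻¹ i j) :=
  Dup.sm_inv H.sm_gram (fun _ hq => H.det_ne hq) i j

theorem sm_W : Sm U (fun q => Real.sqrt (gram y q).det) :=
  (sm_det H.sm_gram).sqrt fun _ hq => H.det_ne hq

theorem W_pos {p : ι → ℝ} (hp : p ∈ U) : 0 < Real.sqrt (gram y p).det :=
  Real.sqrt_pos.mpr (H.det_pos p hp)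

theorem W_sq {p : ι → ℝ} (hp : p ∈ U) :
    Real.sqrt (gram y p).det * Real.sqrt (gram y p).det = (gram y p).det :=
  Real.mul_self_sqrt (H.det_pos p hp).le

end Imm

theorem gram_symm (y : (ι → ℝ) → (κ → ℝ)) (p : ι → ℝ) (i j : ι) : gram y p i j = gram y p j i := by
  unfold gram; exact dotProduct_comm _ _

theorem inv_symm (y : (ι → ℝ) → (κ → ℝ)) (p : ι → ℝ) (i j : ι) :
    (gram y p)⁻¹ i j = (gram y p)⁻¹ j i := by
  have h : (gram y p)ᵀ = gram y p := by
    ext i j; exact gram_symm y p j i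
  have h2 : ((gram y p)⁻¹)ᵀ = (gram y p)⁻¹ := by
    rw [Matrix.transpose_nonsing_inv, h]
  conv_lhs => rw [← h2]
  rfl

/-- the flux of `f` -/
def flux (y : (ι → ℝ) → (κ → ℝ)) (f : (ι → ℝ) → ℝ) (i : ι) (q : ι → ℝ) : ℝ :=
  Real.sqrt (gram y q).det * ∑ j, (gram y q)⁻¹ i j * pd j f q

theorem lap_eq (y : (ι → ℝ) → (κ → ℝ)) (f : (ι → ℝ) → ℝ) (p : ι → ℝ) :
    lap y f p = (Real.sqrt (gram y p).det)⁻¹ * ∑ i, pd i (flux y f i) p := rfl

/-- the gradient product -/
def Gam (y : (ι → ℝ) → (κ → ℝ)) (f g : (ι → ℝ) → ℝ) (p : ι → ℝ) : ℝ :=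
  ∑ i, ∑ j, (gram y p)⁻¹ i j * (pd i f p * pd j g p)

theorem Imm.sm_flux (H : Imm U y) {f : (ι → ℝ) → ℝ} (hf : Sm U f) (i : ι) :
    Sm U (flux y f i) :=
  H.sm_W.mul (Sm.sum _ fun j _ => (H.sm_inv i j).mul (hf.pd H.isOpen j))

theorem sum_flux (y : (ι → ℝ) → (κ → ℝ)) (f g : (ι → ℝ) → ℝ) (p : ι → ℝ) :
    ∑ i, pd i g p * flux y f i p = Real.sqrt (gram y p).det * Gam y g f p := by
  unfold flux Gam
  simp only [Finset.mul_sum]
  refine Finset.sum_congr rfl fun i _ => Finset.sum_congr rfl fun j _ => ?_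
  ring

theorem Gam_comm (y : (ι → ℝ) → (κ → ℝ)) (f g : (ι → ℝ) → ℝ) (p : ι → ℝ) :
    Gam y f g p = Gam y g f p := by
  unfold Gam
  rw [Finset.sum_comm]
  refine Finset.sum_congr rfl fun i _ => Finset.sum_congr rfl fun j _ => ?_
  rw [inv_symm]
  ring

/-- the Laplacian of the coordinates is orthogonal to the tangent space -/
theorem Imm.lap_tangent (H : Imm U y) {p : ι → ℝ} (hp : p ∈ U) (k : ι) :
    ∑ a, lap y (fun q => y q a) p * dx y k p a = 0 := by
  have hU := H.isOpen
  set W := fun q => Real.sqrt (gram y q).det with hW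
  have hWp := (H.W_pos hp).ne'
  -- first part
  have hV : ∀ i a, Sm U (flux y (fun q => y q a) i) := fun i a => H.sm_flux (H.sm a) i
  have h1 : ∀ i, ∀ q ∈ U, ∑ a, flux y (fun q => y q a) i q * dx y k q a =
      W q * (if i = k then 1 else 0) := by
    intro i q hq
    have hu : IsUnit (gram y q).det := (H.det_ne hq).isUnit
    have h2 := congrFun (congrFun (Matrix.nonsing_inv_mul (gram y q) hu) i) k
    rw [Matrix.one_apply] at h2
    rw [← h2]
    unfold flux
    simp only [Matrix.mul_apply, gram, dotProduct, Finset.mul_sum, Finset.sum_mul]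
    rw [Finset.sum_comm]
    refine Finset.sum_congr rfl fun j _ => Finset.sum_congr rfl fun a _ => ?_
    change W q * ((gram y q)⁻¹ i j * dx y j q a) * dx y k q a = _
    simp only [hW]
    ring
  have h3 : ∀ i, ∑ a, pd i (flux y (fun q => y q a) i) p * dx y k p a =
      pd i (fun q => W q * (if i = k then 1 else 0)) p -
        ∑ a, flux y (fun q => y q a) i p * pd i (fun q => dx y k q a) p := by
    intro i
    rw [← pd_congr hU hp (h1 i) i, pd_sum hU _ (fun a _ => (hV i a).mul (H.sm_dx k a)) hp,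
      ← Finset.sum_sub_distrib]
    refine Finset.sum_congr rfl fun a _ => ?_
    rw [pd_mul hU (hV i a) (H.sm_dx k a) hp]
    ring
  have h4 : ∑ i, pd i (fun q => W q * (if i = k then 1 else 0)) p = pd k W p := by
    rw [Finset.sum_eq_single k]
    · simp
    · intro i _ hik
      simp only [hik, if_false, mul_zero]
      exact pd_const i 0 p
    · simp
  -- derivative of W
  have h5 : pd k W p = W p / 2 * ∑ i, ∑ j, (gram y p)⁻¹ i j * pd k (fun q => gram y q i j) p := by
    have h6 := hp_det (M := fun q => gram y q) (k := k) (p := p)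
      (M' := fun i j => pd k (fun q => gram y q i j) p)
      (fun i j => (H.sm_gram i j).hp hU hp k) (H.det_ne hp)
    have h7 := HP.comp (Real.hasDerivAt_sqrt (H.det_ne hp)) h6
    have h8 := h7.pd
    change pd k (fun q => Real.sqrt (gram y q).det) p = _
    rw [h8]
    have h9 : ∑ i, ∑ j, (gram y p)⁻¹ j i * pd k (fun q => gram y q i j) p =
        ∑ i, ∑ j, (gram y p)⁻¹ i j * pd k (fun q => gram y q i j) p :=
      Finset.sum_congr rfl fun i _ => Finset.sum_congr rfl fun j _ => by rw [inv_symm]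
    rw [h9]
    have hWW := H.W_sq hp
    simp only [hW]
    rw [← hWW, Real.sqrt_mul_self (Real.sqrt_nonneg _)]
    field_simp
  have h10 : ∀ i j, pd k (fun q => gram y q i j) p =
      ∑ a, (pd k (fun q => dx y i q a) p * dx y j p a + dx y i p a * pd k (fun q => dx y j q a) p) := by
    intro i j
    change pd k (fun q => ∑ a, dx y i q a * dx y j q a) p = _
    rw [pd_sum hU _ (fun a _ => (H.sm_dx i a).mul (H.sm_dx j a)) hp]
    exact Finset.sum_congr rfl fun a _ => pd_mul hU (H.sm_dx i a) (H.sm_dx j a) hp k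
  have h11 : ∑ i, ∑ a, flux y (fun q => y q a) i p * pd i (fun q => dx y k q a) p =
      W p * ∑ i, ∑ j, (gram y p)⁻¹ i j * ∑ a, dx y j p a * pd k (fun q => dx y i q a) p := by
    simp only [Finset.mul_sum]
    refine Finset.sum_congr rfl fun i _ => ?_
    rw [Finset.sum_comm]
    refine Finset.sum_congr rfl fun a _ => ?_
    have : pd i (fun q => dx y k q a) p = pd k (fun q => dx y i q a) p :=
      pd_comm hU (H.sm a) hp i k
    rw [this]
    unfold flux
    rw [mul_assoc, Finset.sum_mul, Finset.mul_sum]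
    refine Finset.sum_congr rfl fun j _ => ?_
    change _ * ((gram y p)⁻¹ i j * dx y j p a * _) = _
    ring
  have h12 : ∑ i, ∑ j, (gram y p)⁻¹ i j * pd k (fun q => gram y q i j) p =
      2 * ∑ i, ∑ j, (gram y p)⁻¹ i j * ∑ a, dx y j p a * pd k (fun q => dx y i q a) p := by
    have e1 : ∑ i, ∑ j, (gram y p)⁻¹ i j * pd k (fun q => gram y q i j) p =
        ∑ i, ∑ j, (gram y p)⁻¹ i j * ∑ a, dx y j p a * pd k (fun q => dx y i q a) p +
        ∑ i, ∑ j, (gram y p)⁻¹ i j * ∑ a, dx y i p a * pd k (fun q => dx y j q a) p := by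
      rw [← Finset.sum_add_distrib]
      refine Finset.sum_congr rfl fun i _ => ?_
      rw [← Finset.sum_add_distrib]
      refine Finset.sum_congr rfl fun j _ => ?_
      rw [h10, ← mul_add, ← Finset.sum_add_distrib]
      congr 1
      exact Finset.sum_congr rfl fun a _ => by ring
    rw [e1]
    have e2 : ∑ i, ∑ j, (gram y p)⁻¹ i j * ∑ a, dx y i p a * pd k (fun q => dx y j q a) p =
        ∑ i, ∑ j, (gram y p)⁻¹ i j * ∑ a, dx y j p a * pd k (fun q => dx y i q a) p := by
      rw [Finset.sum_comm]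
      exact Finset.sum_congr rfl fun i _ => Finset.sum_congr rfl fun j _ => by rw [inv_symm]
    rw [e2]; ring
  -- conclusion
  simp only [lap_eq]
  have e3 : ∑ a, (Real.sqrt (gram y p).det)⁻¹ * (∑ i, pd i (flux y (fun q => y q a) i) p) *
      dx y k p a = (Real.sqrt (gram y p).det)⁻¹ *
      ∑ i, ∑ a, pd i (flux y (fun q => y q a) i) p * dx y k p a := by
    rw [Finset.sum_comm, Finset.mul_sum]
    refine Finset.sum_congr rfl fun a _ => ?_
    rw [mul_assoc, Finset.sum_mul]
  rw [e3]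
  simp only [h3]
  rw [Finset.sum_sub_distrib, h4, h5, h11, h12]
  ring

/-- if `∑ e_a y_a²` is constant, the weighted normal component of the Laplacian -/
theorem Imm.lap_normal (H : Imm U y) {e : κ → ℝ} {c : ℝ}
    (he : ∀ q ∈ U, ∑ a, e a * (y q a * y q a) = c) {p : ι → ℝ} (hp : p ∈ U) :
    ∑ a, e a * (lap y (fun q => y q a) p * y p a) =
      -∑ i, ∑ j, (gram y p)⁻¹ i j * ∑ a, e a * (dx y i p a * dx y j p a) := by
  have hU := H.isOpen
  have hWp := (H.W_pos hp).ne'
  have hV : ∀ i a, Sm U (flux y (fun q => y q a) i) := fun i a => H.sm_flux (H.sm a) i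
  have hd : ∀ q ∈ U, ∀ j, ∑ a, e a * (dx y j q a * y q a) = 0 := by
    intro q hq j
    have h1 : pd j (fun q => ∑ a, e a * (y q a * y q a)) q = 0 := by
      rw [pd_congr hU hq he j]; exact pd_const j c q
    rw [pd_sum hU _ (fun a _ => contDiffOn_const.mul ((H.sm a).mul (H.sm a))) hq] at h1
    have h2 : ∀ a, pd j (fun q => e a * (y q a * y q a)) q = 2 * (e a * (dx y j q a * y q a)) := by
      intro a
      rw [pd_mul hU contDiffOn_const ((H.sm a).mul (H.sm a)) hq, pd_const,
        pd_mul hU (H.sm a) (H.sm a) hq]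
      change 0 * _ + e a * (dx y j q a * y q a + y q a * dx y j q a) = _
      ring
    simp only [h2] at h1
    rw [← Finset.mul_sum] at h1
    linarith
  have h1 : ∀ i, ∀ q ∈ U, ∑ a, e a * (flux y (fun q => y q a) i q * y q a) = 0 := by
    intro i q hq
    have h2 : ∑ a, e a * (flux y (fun q => y q a) i q * y q a) =
        Real.sqrt (gram y q).det * ∑ j, (gram y q)⁻¹ i j * ∑ a, e a * (dx y j q a * y q a) := by
      unfold flux
      simp only [Finset.mul_sum, Finset.sum_mul]
      rw [Finset.sum_comm]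
      refine Finset.sum_congr rfl fun j _ => Finset.sum_congr rfl fun a _ => ?_
      change e a * (_ * ((gram y q)⁻¹ i j * dx y j q a) * _) = _
      ring
    rw [h2]
    simp [hd q hq]
  have h3 : ∀ i, ∑ a, e a * (pd i (flux y (fun q => y q a) i) p * y p a) =
      -∑ a, e a * (flux y (fun q => y q a) i p * dx y i p a) := by
    intro i
    have h4 : pd i (fun q => ∑ a, e a * (flux y (fun q => y q a) i q * y q a)) p = 0 := by
      rw [pd_congr hU hp (h1 i) i]; exact pd_const i 0 p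
    rw [pd_sum hU _ (fun a _ => contDiffOn_const.mul ((hV i a).mul (H.sm a))) hp] at h4
    have h5 : ∀ a, pd i (fun q => e a * (flux y (fun q => y q a) i q * y q a)) p =
        e a * (pd i (flux y (fun q => y q a) i) p * y p a) +
        e a * (flux y (fun q => y q a) i p * dx y i p a) := by
      intro a
      rw [pd_mul hU contDiffOn_const ((hV i a).mul (H.sm a)) hp, pd_const,
        pd_mul hU (hV i a) (H.sm a) hp]
      change 0 * _ + e a * (_ + _ * dx y i p a) = _
      ring
    simp only [h5, Finset.sum_add_distrib] at h4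
    linarith
  have e3 : ∑ a, e a * (lap y (fun q => y q a) p * y p a) = (Real.sqrt (gram y p).det)⁻¹ *
      ∑ i, ∑ a, e a * (pd i (flux y (fun q => y q a) i) p * y p a) := by
    simp only [lap_eq]
    rw [Finset.sum_comm, Finset.mul_sum]
    refine Finset.sum_congr rfl fun a _ => ?_
    rw [← Finset.mul_sum, ← Finset.sum_mul]
    ring
  rw [e3]
  simp only [h3]
  rw [Finset.sum_neg_distrib]
  have e4 : ∑ i, ∑ a, e a * (flux y (fun q => y q a) i p * dx y i p a) =
      Real.sqrt (gram y p).det *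
        ∑ i, ∑ j, (gram y p)⁻¹ i j * ∑ a, e a * (dx y i p a * dx y j p a) := by
    rw [Finset.mul_sum]
    refine Finset.sum_congr rfl fun i _ => ?_
    unfold flux
    simp only [Finset.mul_sum, Finset.sum_mul]
    rw [Finset.sum_comm]
    refine Finset.sum_congr rfl fun j _ => Finset.sum_congr rfl fun a _ => ?_
    change e a * (_ * ((gram y p)⁻¹ i j * dx y j p a) * _) = _
    ring
  rw [e4]
  field_simp

end

end Pool.Agent.TH842.Dup
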