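import Pool.Agent.TH842.Dup.Geo2

set_option autoImplicit false
set_option linter.unusedSectionVars false

namespace Pool.Agent.TH842.Dup

open Matrix

noncomputable section

variable {ι κ : Type} [Fintype ι] [DecidableEq ι] [Fintype κ]
variable {U : Set (ι → ℝ)} {y : (ι → ℝ) → (κ → ℝ)}

/-! linearity and locality -/

theorem flux_congr {x : (ι → ℝ) → (κ → ℝ)} (hU : IsOpen U) {f g : (ι → ℝ) → ℝ}
    (h : ∀ q ∈ U, f q = g q) (i : ι) {q : ι → ℝ} (hq : q ∈ U) : flux x f i q = flux x g i q := by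
  unfold flux
  congr 1
  exact Finset.sum_congr rfl fun j _ => by rw [pd_congr hU hq h j]

theorem lap_congr {x : (ι → ℝ) → (κ → ℝ)} (hU : IsOpen U) {f g : (ι → ℝ) → ℝ}
    (h : ∀ q ∈ U, f q = g q) {p : ι → ℝ} (hp : p ∈ U) : lap x f p = lap x g p := by
  rw [lap_eq, lap_eq]
  congr 1
  exact Finset.sum_congr rfl fun i _ =>
    pd_congr hU hp (fun q hq => flux_congr hU h i hq) i

theorem Imm.lap_sum (H : Imm U y) {α : Type} (s : Finset α) (c : α → ℝ) {f : α → (ι → ℝ) → ℝ}
    (hf : ∀ a, Sm U (f a)) {p : ι → ℝ} (hp : p ∈ U) :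
    lap y (fun q => ∑ a ∈ s, c a * f a q) p = ∑ a ∈ s, c a * lap y (f a) p := by
  have hU := H.isOpen
  have h1 : ∀ i, ∀ q ∈ U, flux y (fun q => ∑ a ∈ s, c a * f a q) i q =
      ∑ a ∈ s, c a * flux y (f a) i q := by
    intro i q hq
    unfold flux
    have h2 : ∀ j, pd j (fun q => ∑ a ∈ s, c a * f a q) q = ∑ a ∈ s, c a * pd j (f a) q := by
      intro j
      rw [pd_sum hU s (fun a _ => contDiffOn_const.mul (hf a)) hq]
      refine Finset.sum_congr rfl fun a _ => ?_
      rw [pd_mul hU contDiffOn_const (hf a) hq, pd_const]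
      ring
    simp only [h2, Finset.mul_sum]
    rw [Finset.sum_comm]
    refine Finset.sum_congr rfl fun a _ => Finset.sum_congr rfl fun j _ => ?_
    ring
  simp only [lap_eq]
  have h3 : ∀ i, pd i (flux y (fun q => ∑ a ∈ s, c a * f a q) i) p =
      ∑ a ∈ s, c a * pd i (flux y (f a) i) p := by
    intro i
    rw [pd_congr hU hp (h1 i) i, pd_sum hU s (fun a _ => contDiffOn_const.mul (H.sm_flux (hf a) i)) hp]
    refine Finset.sum_congr rfl fun a _ => ?_
    rw [pd_mul hU contDiffOn_const (H.sm_flux (hf a) i) hp, pd_const]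
    ring
  simp only [h3]
  rw [Finset.sum_comm, Finset.mul_sum]
  refine Finset.sum_congr rfl fun a _ => ?_
  rw [← Finset.mul_sum]
  ring

/-! the chain rule for functions of two functions -/

/-- `h` is a function of `a`, `b` with the given first and second derivatives -/
structure Jet (U : Set (ι → ℝ)) (a b h ha hb haa hab hba hbb : (ι → ℝ) → ℝ) : Prop where
  sh : Sm U h
  sa : Sm U ha
  sb : Sm U hb
  d0 : ∀ q ∈ U, ∀ j, pd j h q = ha q * pd j a q + hb q * pd j b q
  da : ∀ q ∈ U, ∀ j, pd j ha q = haa q * pd j a q + hab q * pd j b q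
  db : ∀ q ∈ U, ∀ j, pd j hb q = hba q * pd j a q + hbb q * pd j b q

theorem Gam_lin {a b g f : (ι → ℝ) → ℝ} {u v : ℝ} {p : ι → ℝ}
    (h : ∀ j, pd j g p = u * pd j a p + v * pd j b p) :
    Gam y g f p = u * Gam y a f p + v * Gam y b f p := by
  unfold Gam
  simp only [Finset.mul_sum]
  rw [← Finset.sum_add_distrib]
  refine Finset.sum_congr rfl fun i _ => ?_
  rw [← Finset.sum_add_distrib]
  refine Finset.sum_congr rfl fun j _ => ?_
  rw [h]; ring

theorem Imm.lap_jet (H : Imm U y) {a b h ha hb haa hab hba hbb : (ι → ℝ) → ℝ}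
    (J : Jet U a b h ha hb haa hab hba hbb) (sa : Sm U a) (sb : Sm U b) {p : ι → ℝ} (hp : p ∈ U) :
    lap y h p = haa p * Gam y a a p + (hab p + hba p) * Gam y a b p + hbb p * Gam y b b p +
      ha p * lap y a p + hb p * lap y b p := by
  have hU := H.isOpen
  have hWp := (H.W_pos hp).ne'
  have h1 : ∀ i, ∀ q ∈ U, flux y h i q = ha q * flux y a i q + hb q * flux y b i q := by
    intro i q hq
    unfold flux
    simp only [J.d0 q hq, Finset.mul_sum]
    rw [← Finset.sum_add_distrib]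
    exact Finset.sum_congr rfl fun j _ => by ring
  have h2 : ∀ i, pd i (flux y h i) p = (pd i ha p * flux y a i p + ha p * pd i (flux y a i) p) +
      (pd i hb p * flux y b i p + hb p * pd i (flux y b i) p) := by
    intro i
    rw [pd_congr hU hp (h1 i) i, pd_add hU (J.sa.mul (H.sm_flux sa i)) (J.sb.mul (H.sm_flux sb i)) hp,
      pd_mul hU J.sa (H.sm_flux sa i) hp, pd_mul hU J.sb (H.sm_flux sb i) hp]
  simp only [lap_eq]
  simp only [h2, Finset.sum_add_distrib]
  rw [sum_flux, sum_flux, ← Finset.mul_sum, ← Finset.mul_sum,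
    Gam_lin (J.da p hp), Gam_lin (J.db p hp), Gam_comm y b a]
  field_simp
  ring

/-! conformal change -/

theorem lap_conformal (H : Imm U y) {κ' : Type} [Fintype κ'] {x : (ι → ℝ) → (κ' → ℝ)}
    {F : (ι → ℝ) → ℝ} {c : ℝ} {m : ℕ} (hm : Fintype.card ι = m + 2) (hc : 0 < c)
    (hF : Sm U F) (hFp : ∀ q ∈ U, 0 < F q)
    (hg : ∀ q ∈ U, gram x q = (c / F q) ^ 2 • gram y q) {f : (ι → ℝ) → ℝ} (hf : Sm U f)
    {p : ι → ℝ} (hp : p ∈ U) :
    lap x f p = (F p) ^ 2 / c ^ 2 * (lap y f p - m / F p * Gam y F f p) := by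
  have hU := H.isOpen
  have hWp := (H.W_pos hp).ne'
  have hFpp := (hFp p hp).ne'
  have hW : ∀ q ∈ U, Real.sqrt (gram x q).det = (c / F q) ^ (m + 2) *
      Real.sqrt (gram y q).det := by
    intro q hq
    have hpos : 0 < c / F q := div_pos hc (hFp q hq)
    rw [hg q hq, Matrix.det_smul, hm, Real.sqrt_mul (by positivity)]
    congr 1
    rw [← pow_mul, mul_comm 2 (m + 2), pow_mul, Real.sqrt_sq (by positivity)]
  have hI : ∀ q ∈ U, ∀ i j, (gram x q)⁻¹ i j = ((c / F q) ^ 2)⁻¹ * (gram y q)⁻¹ i j := by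
    intro q hq i j
    have hpos : 0 < c / F q := div_pos hc (hFp q hq)
    have hu : IsUnit (gram y q).det := (H.det_ne hq).isUnit
    have : (gram x q)⁻¹ = ((c / F q) ^ 2)⁻¹ • (gram y q)⁻¹ := by
      apply Matrix.inv_eq_right_inv
      rw [hg q hq, Matrix.smul_mul, Matrix.mul_smul, Matrix.mul_nonsing_inv _ hu, smul_smul,
        mul_inv_cancel₀ (by positivity), one_smul]
    rw [this]; rfl
  have hfl : ∀ i, ∀ q ∈ U, flux x f i q = (c / F q) ^ m * flux y f i q := by
    intro i q hq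
    have hpos : 0 < c / F q := div_pos hc (hFp q hq)
    unfold flux
    rw [hW q hq]
    simp only [hI q hq]
    have : ∑ j, ((c / F q) ^ 2)⁻¹ * (gram y q)⁻¹ i j * pd j f q =
        ((c / F q) ^ 2)⁻¹ * ∑ j, (gram y q)⁻¹ i j * pd j f q := by
      rw [Finset.mul_sum]
      exact Finset.sum_congr rfl fun j _ => by ring
    rw [this]
    have h2 : (c / F q) ^ (m + 2) * ((c / F q) ^ 2)⁻¹ = (c / F q) ^ m := by
      rw [pow_add, mul_assoc, mul_inv_cancel₀ (by positivity), mul_one]
    rw [← h2]; ring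
  have hd : ∀ i, HP i (fun q => (c / F q) ^ m) p
      (-(m / F p) * (c / F p) ^ m * pd i F p) := by
    intro i
    have h1 : HasDerivAt (fun t => (c / t) ^ m) (-(m / F p) * (c / F p) ^ m) (F p) := by
      have h2 : HasDerivAt (fun t : ℝ => c / t) (-c / F p ^ 2) (F p) := by
        have := (hasDerivAt_inv hFpp).const_mul c
        simpa [div_eq_mul_inv] using this
      have h3 := h2.fun_pow m
      refine h3.congr_deriv ?_
      rcases m with _ | m
      · simp
      · simp only [Nat.add_sub_cancel, pow_succ]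
        field_simp
    exact (HP.comp h1 (hF.hp hU hp i)).congr_d (by ring)
  rw [lap_eq, lap_eq, hW p hp]
  have h2 : ∀ i, pd i (flux x f i) p = -(m / F p) * (c / F p) ^ m * (pd i F p * flux y f i p) +
      (c / F p) ^ m * pd i (flux y f i) p := by
    intro i
    rw [pd_congr hU hp (hfl i) i, ((hd i).mul ((H.sm_flux hf i).hp hU hp i)).pd]
    ring
  simp only [h2]
  rw [Finset.sum_add_distrib, ← Finset.mul_sum, ← Finset.mul_sum, sum_flux]
  have hcF : (c / F p) ≠ 0 := (div_pos hc (hFp p hp)).ne'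
  rw [pow_add]
  field_simp
  ring

end

end Pool.Agent.TH842.Dup
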