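import Pool.Agent.TH842.Dup.Geo3

set_option autoImplicit false
set_option linter.unusedSectionVars false

namespace Pool.Agent.TH842.Dup

open Matrix

noncomputable section

variable {ι κ₁ κ₂ : Type} [Fintype ι] [DecidableEq ι] [Fintype κ₁] [Fintype κ₂]
  [DecidableEq κ₁] [DecidableEq κ₂]
variable {U : Set (ι → ℝ)} {y : (ι → ℝ) → (κ₁ ⊕ κ₂ → ℝ)} {r s : ℝ}

/-- `y` parametrises an open piece of the product of spheres of radii `r` and `s`. -/
structure SphProd (U : Set (ι → ℝ)) (y : (ι → ℝ) → (κ₁ ⊕ κ₂ → ℝ)) (r s : ℝ) : Prop where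
  imm : Imm U y
  card : Fintype.card (κ₁ ⊕ κ₂) = Fintype.card ι + 2
  rpos : 0 < r
  spos : 0 < s
  h1 : ∀ q ∈ U, ∑ a : κ₁, y q (Sum.inl a) * y q (Sum.inl a) = r * r
  h2 : ∀ q ∈ U, ∑ b : κ₂, y q (Sum.inr b) * y q (Sum.inr b) = s * s

/-- first unit normal -/
def n1 (y : (ι → ℝ) → (κ₁ ⊕ κ₂ → ℝ)) (r : ℝ) (p : ι → ℝ) : κ₁ ⊕ κ₂ → ℝ :=
  Sum.elim (fun a => y p (Sum.inl a) / r) (fun _ => 0)

/-- second unit normal -/
def n2 (y : (ι → ℝ) → (κ₁ ⊕ κ₂ → ℝ)) (s : ℝ) (p : ι → ℝ) : κ₁ ⊕ κ₂ → ℝ :=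
  Sum.elim (fun _ => 0) (fun b => y p (Sum.inr b) / s)

theorem sum_const_deriv {κ : Type} [Fintype κ] {z : (ι → ℝ) → (κ → ℝ)} (hU : IsOpen U)
    (hz : ∀ k, Sm U (fun q => z q k)) {α : Type} [Fintype α] (e : α → κ) {c : ℝ}
    (h : ∀ q ∈ U, ∑ a, z q (e a) * z q (e a) = c) {p : ι → ℝ} (hp : p ∈ U) (j : ι) :
    ∑ a, z p (e a) * dx z j p (e a) = 0 := by
  have h1 : pd j (fun q => ∑ a, z q (e a) * z q (e a)) p = 0 := by
    rw [pd_congr hU hp h j]; exact pd_const j c p
  rw [pd_sum hU _ (fun a _ => (hz (e a)).mul (hz (e a))) hp] at h1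
  have h2 : ∀ a, pd j (fun q => z q (e a) * z q (e a)) p = 2 * (z p (e a) * dx z j p (e a)) := by
    intro a
    rw [pd_mul hU (hz (e a)) (hz (e a)) hp]
    change dx z j p (e a) * z p (e a) + z p (e a) * dx z j p (e a) = _
    ring
  simp only [h2] at h1
  rw [← Finset.mul_sum] at h1
  linarith

namespace SphProd

variable (S : SphProd U y r s)
include S

theorem n1_dx {p : ι → ℝ} (hp : p ∈ U) (j : ι) : ∑ a, n1 y r p a * dx y j p a = 0 := by
  have h := sum_const_deriv S.imm.isOpen S.imm.sm (fun a : κ₁ => (Sum.inl a : κ₁ ⊕ κ₂)) S.h1 hp j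
  rw [Fintype.sum_sum_type]
  simp only [n1, Sum.elim_inl, Sum.elim_inr, zero_mul, Finset.sum_const_zero, add_zero]
  have : ∑ a, y p (Sum.inl a) / r * dx y j p (Sum.inl a) =
      (1 / r) * ∑ a, y p (Sum.inl a) * dx y j p (Sum.inl a) := by
    rw [Finset.mul_sum]; exact Finset.sum_congr rfl fun a _ => by ring
  rw [this, h, mul_zero]

theorem n2_dx {p : ι → ℝ} (hp : p ∈ U) (j : ι) : ∑ a, n2 y s p a * dx y j p a = 0 := by
  have h := sum_const_deriv S.imm.isOpen S.imm.sm (fun a : κ₂ => (Sum.inr a : κ₁ ⊕ κ₂)) S.h2 hp j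
  rw [Fintype.sum_sum_type]
  simp only [n2, Sum.elim_inl, Sum.elim_inr, zero_mul, Finset.sum_const_zero, zero_add]
  have : ∑ a, y p (Sum.inr a) / s * dx y j p (Sum.inr a) =
      (1 / s) * ∑ a, y p (Sum.inr a) * dx y j p (Sum.inr a) := by
    rw [Finset.mul_sum]; exact Finset.sum_congr rfl fun a _ => by ring
  rw [this, h, mul_zero]

theorem n1_n1 {p : ι → ℝ} (hp : p ∈ U) : ∑ a, n1 y r p a * n1 y r p a = 1 := by
  have hr := S.rpos.ne'
  rw [Fintype.sum_sum_type]
  simp only [n1, Sum.elim_inl, Sum.elim_inr, mul_zero, Finset.sum_const_zero, add_zero]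
  have : ∑ a, y p (Sum.inl a) / r * (y p (Sum.inl a) / r) =
      (1 / (r * r)) * ∑ a, y p (Sum.inl a) * y p (Sum.inl a) := by
    rw [Finset.mul_sum]; exact Finset.sum_congr rfl fun a _ => by field_simp
  rw [this, S.h1 p hp]; field_simp

theorem n2_n2 {p : ι → ℝ} (hp : p ∈ U) : ∑ a, n2 y s p a * n2 y s p a = 1 := by
  have hs := S.spos.ne'
  rw [Fintype.sum_sum_type]
  simp only [n2, Sum.elim_inl, Sum.elim_inr, mul_zero, Finset.sum_const_zero, zero_add]
  have : ∑ a, y p (Sum.inr a) / s * (y p (Sum.inr a) / s) =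
      (1 / (s * s)) * ∑ a, y p (Sum.inr a) * y p (Sum.inr a) := by
    rw [Finset.mul_sum]; exact Finset.sum_congr rfl fun a _ => by field_simp
  rw [this, S.h2 p hp]; field_simp

theorem n1_n2 (p : ι → ℝ) : ∑ a, n1 y r p a * n2 y s p a = 0 := by
  rw [Fintype.sum_sum_type]
  simp [n1, n2]

/-- the projection onto the tangent space -/
theorem proj {p : ι → ℝ} (hp : p ∈ U) (a b : κ₁ ⊕ κ₂) :
    ∑ i, ∑ j, (gram y p)⁻¹ i j * (dx y i p a * dx y j p b) + n1 y r p a * n1 y r p b +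
      n2 y s p a * n2 y s p b = if a = b then 1 else 0 := by
  set Q : Matrix (κ₁ ⊕ κ₂) (ι ⊕ Fin 2) ℝ :=
    Matrix.of fun a => Sum.elim (fun i => dx y i p a) ![n1 y r p a, n2 y s p a] with hQ
  set T : Matrix (ι ⊕ Fin 2) (ι ⊕ Fin 2) ℝ := Matrix.fromBlocks (gram y p)⁻¹ 0 0 1 with hT
  have hQQ : Qᵀ * Q = Matrix.fromBlocks (gram y p) 0 0 1 := by
    ext u v
    rcases u with i | u <;> rcases v with j | v
    · simp only [Matrix.mul_apply, Matrix.transpose_apply, hQ, Matrix.of_apply, Sum.elim_inl,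
        Matrix.fromBlocks_apply₁₁]
      rfl
    · simp only [Matrix.mul_apply, Matrix.transpose_apply, hQ, Matrix.of_apply, Sum.elim_inl,
        Sum.elim_inr, Matrix.fromBlocks_apply₁₂, Matrix.zero_apply]
      fin_cases v
      · simpa [mul_comm] using S.n1_dx hp i
      · simpa [mul_comm] using S.n2_dx hp i
    · simp only [Matrix.mul_apply, Matrix.transpose_apply, hQ, Matrix.of_apply, Sum.elim_inl,
        Sum.elim_inr, Matrix.fromBlocks_apply₂₁, Matrix.zero_apply]
      fin_cases u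
      · simpa using S.n1_dx hp j
      · simpa using S.n2_dx hp j
    · simp only [Matrix.mul_apply, Matrix.transpose_apply, hQ, Matrix.of_apply,
        Sum.elim_inr, Matrix.fromBlocks_apply₂₂]
      fin_cases u <;> fin_cases v
      · simpa using S.n1_n1 hp
      · simpa using S.n1_n2 p
      · simpa [mul_comm] using S.n1_n2 p
      · simpa using S.n2_n2 hp
  have hu : IsUnit (gram y p).det := (S.imm.det_ne hp).isUnit
  have h1 : (T * Qᵀ) * Q = 1 := by
    rw [Matrix.mul_assoc, hQQ, hT, Matrix.fromBlocks_multiply]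
    simp [Matrix.nonsing_inv_mul _ hu]
  have hcard : Fintype.card (κ₁ ⊕ κ₂) = Fintype.card (ι ⊕ Fin 2) := by
    rw [S.card]; simp
  have h2 : Q * (T * Qᵀ) = 1 :=
    (Matrix.mul_eq_one_comm_of_card_eq (κ₁ ⊕ κ₂) (ι ⊕ Fin 2) ℝ hcard).mpr h1
  have h3 := congrFun (congrFun h2 a) b
  rw [Matrix.one_apply] at h3
  rw [← h3]
  simp only [Matrix.mul_apply, Matrix.transpose_apply, hQ, hT, Matrix.of_apply,
    Fintype.sum_sum_type, Sum.elim_inl, Sum.elim_inr, Matrix.fromBlocks_apply₁₁,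
    Matrix.fromBlocks_apply₁₂, Matrix.fromBlocks_apply₂₁, Matrix.fromBlocks_apply₂₂,
    Fin.sum_univ_two, Matrix.zero_apply, zero_mul, add_zero, Finset.sum_const_zero, zero_add]
  simp only [Finset.mul_sum]
  have e : ∑ i, ∑ j, (gram y p)⁻¹ i j * (dx y i p a * dx y j p b) =
      ∑ i, ∑ j, dx y i p a * ((gram y p)⁻¹ i j * dx y j p b) :=
    Finset.sum_congr rfl fun i _ => Finset.sum_congr rfl fun j _ => by ring
  rw [e]
  simp
  ring

/-- the Laplacians of the coordinates -/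
theorem lap_repr {p : ι → ℝ} (hp : p ∈ U) (a : κ₁ ⊕ κ₂) :
    lap y (fun q => y q a) p =
      n1 y r p a * (∑ b, n1 y r p b * lap y (fun q => y q b) p) +
      n2 y s p a * (∑ b, n2 y s p b * lap y (fun q => y q b) p) := by
  have hZ := fun k => S.imm.lap_tangent hp k
  set Z : κ₁ ⊕ κ₂ → ℝ := fun a => lap y (fun q => y q a) p with hZd
  have h1 : Z a = ∑ b, (if a = b then 1 else 0) * Z b := by simp
  change Z a = _
  rw [h1]
  simp only [← S.proj hp a, add_mul, Finset.sum_add_distrib]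
  have e1 : ∑ b, (∑ i, ∑ j, (gram y p)⁻¹ i j * (dx y i p a * dx y j p b)) * Z b = 0 := by
    have : ∀ b, (∑ i, ∑ j, (gram y p)⁻¹ i j * (dx y i p a * dx y j p b)) * Z b =
        ∑ i, ∑ j, (gram y p)⁻¹ i j * dx y i p a * (Z b * dx y j p b) := by
      intro b
      rw [Finset.sum_mul]
      refine Finset.sum_congr rfl fun i _ => ?_
      rw [Finset.sum_mul]
      exact Finset.sum_congr rfl fun j _ => by ring
    simp only [this]
    rw [Finset.sum_comm]
    refine Finset.sum_eq_zero fun i _ => ?_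
    rw [Finset.sum_comm]
    refine Finset.sum_eq_zero fun j _ => ?_
    rw [← Finset.mul_sum]
    have := hZ j
    rw [show (∑ b, Z b * dx y j p b) = 0 from this, mul_zero]
  rw [e1, zero_add]
  simp only [Finset.mul_sum]
  congr 1
  · exact Finset.sum_congr rfl fun b _ => by ring
  · exact Finset.sum_congr rfl fun b _ => by ring

theorem lap_inl {p : ι → ℝ} (hp : p ∈ U) (a : κ₁) :
    lap y (fun q => y q (Sum.inl a)) p =
      -((Fintype.card κ₁ : ℝ) - 1) / (r * r) * y p (Sum.inl a) := by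
  have hr := S.rpos.ne'
  rw [S.lap_repr hp]
  have h1 := S.imm.lap_normal (e := Sum.elim (fun _ => 1) (fun _ => 0)) (c := r * r)
    (by
      intro q hq
      rw [Fintype.sum_sum_type]
      simpa using S.h1 q hq) hp
  rw [Fintype.sum_sum_type] at h1
  simp only [Sum.elim_inl, Sum.elim_inr, one_mul, zero_mul, Finset.sum_const_zero,
    add_zero] at h1
  have h2 : ∑ i, ∑ j, (gram y p)⁻¹ i j *
      ∑ a : κ₁ ⊕ κ₂, (Sum.elim (fun _ => 1) (fun _ => 0) a : ℝ) * (dx y i p a * dx y j p a) =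
      (Fintype.card κ₁ : ℝ) - 1 := by
    have e : ∑ i, ∑ j, (gram y p)⁻¹ i j *
        ∑ a : κ₁ ⊕ κ₂, (Sum.elim (fun _ => 1) (fun _ => 0) a : ℝ) * (dx y i p a * dx y j p a) =
        ∑ a : κ₁, ∑ i, ∑ j, (gram y p)⁻¹ i j * (dx y i p (Sum.inl a) * dx y j p (Sum.inl a)) := by
      rw [Finset.sum_comm]
      simp only [Fintype.sum_sum_type, Sum.elim_inl, Sum.elim_inr, one_mul, zero_mul,
        Finset.sum_const_zero, add_zero, Finset.mul_sum]
      rw [Finset.sum_comm]
      refine (Finset.sum_congr rfl fun i _ => Finset.sum_comm).trans ?_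
      rw [Finset.sum_comm]
    rw [e]
    have e2 : ∀ a : κ₁, ∑ i, ∑ j, (gram y p)⁻¹ i j *
        (dx y i p (Sum.inl a) * dx y j p (Sum.inl a)) =
        1 - n1 y r p (Sum.inl a) * n1 y r p (Sum.inl a) := by
      intro a
      have := S.proj hp (Sum.inl a) (Sum.inl a)
      simp only [if_true, n2, Sum.elim_inl, mul_zero, add_zero] at this
      linarith
    simp only [e2]
    rw [Finset.sum_sub_distrib]
    have e3 := S.n1_n1 hp
    rw [Fintype.sum_sum_type] at e3
    simp only [n1, Sum.elim_inr, mul_zero, Finset.sum_const_zero, add_zero] at e3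
    simp only [n1]
    rw [e3]
    simp
  rw [h2] at h1
  have h3 : ∑ b, n1 y r p b * lap y (fun q => y q b) p = -((Fintype.card κ₁ : ℝ) - 1) / r := by
    rw [Fintype.sum_sum_type]
    simp only [n1, Sum.elim_inl, Sum.elim_inr, zero_mul, Finset.sum_const_zero, add_zero]
    have : ∑ a, y p (Sum.inl a) / r * lap y (fun q => y q (Sum.inl a)) p =
        (1 / r) * ∑ a, lap y (fun q => y q (Sum.inl a)) p * y p (Sum.inl a) := by
      rw [Finset.mul_sum]; exact Finset.sum_congr rfl fun a _ => by ring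
    rw [this, h1]; ring
  rw [h3]
  simp only [n1, n2, Sum.elim_inl, zero_mul, add_zero]
  field_simp

theorem lap_inr {p : ι → ℝ} (hp : p ∈ U) (a : κ₂) :
    lap y (fun q => y q (Sum.inr a)) p =
      -((Fintype.card κ₂ : ℝ) - 1) / (s * s) * y p (Sum.inr a) := by
  have hs := S.spos.ne'
  rw [S.lap_repr hp]
  have h1 := S.imm.lap_normal (e := Sum.elim (fun _ => 0) (fun _ => 1)) (c := s * s)
    (by
      intro q hq
      rw [Fintype.sum_sum_type]
      simpa using S.h2 q hq) hp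
  rw [Fintype.sum_sum_type] at h1
  simp only [Sum.elim_inl, Sum.elim_inr, one_mul, zero_mul, Finset.sum_const_zero,
    zero_add] at h1
  have h2 : ∑ i, ∑ j, (gram y p)⁻¹ i j *
      ∑ a : κ₁ ⊕ κ₂, (Sum.elim (fun _ => 0) (fun _ => 1) a : ℝ) * (dx y i p a * dx y j p a) =
      (Fintype.card κ₂ : ℝ) - 1 := by
    have e : ∑ i, ∑ j, (gram y p)⁻¹ i j *
        ∑ a : κ₁ ⊕ κ₂, (Sum.elim (fun _ => 0) (fun _ => 1) a : ℝ) * (dx y i p a * dx y j p a) =
        ∑ a : κ₂, ∑ i, ∑ j, (gram y p)⁻¹ i j * (dx y i p (Sum.inr a) * dx y j p (Sum.inr a)) := by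
      rw [Finset.sum_comm]
      simp only [Fintype.sum_sum_type, Sum.elim_inl, Sum.elim_inr, one_mul, zero_mul,
        Finset.sum_const_zero, zero_add, Finset.mul_sum]
      rw [Finset.sum_comm]
      refine (Finset.sum_congr rfl fun i _ => Finset.sum_comm).trans ?_
      rw [Finset.sum_comm]
    rw [e]
    have e2 : ∀ a : κ₂, ∑ i, ∑ j, (gram y p)⁻¹ i j *
        (dx y i p (Sum.inr a) * dx y j p (Sum.inr a)) =
        1 - n2 y s p (Sum.inr a) * n2 y s p (Sum.inr a) := by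
      intro a
      have := S.proj hp (Sum.inr a) (Sum.inr a)
      simp only [if_true, n1, Sum.elim_inr, mul_zero, add_zero] at this
      linarith
    simp only [e2]
    rw [Finset.sum_sub_distrib]
    have e3 := S.n2_n2 hp
    rw [Fintype.sum_sum_type] at e3
    simp only [n2, Sum.elim_inl, mul_zero, Finset.sum_const_zero, zero_add] at e3
    simp only [n2]
    rw [e3]
    simp
  rw [h2] at h1
  have h3 : ∑ b, n2 y s p b * lap y (fun q => y q b) p = -((Fintype.card κ₂ : ℝ) - 1) / s := by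
    rw [Fintype.sum_sum_type]
    simp only [n2, Sum.elim_inl, Sum.elim_inr, zero_mul, Finset.sum_const_zero, zero_add]
    have : ∑ a, y p (Sum.inr a) / s * lap y (fun q => y q (Sum.inr a)) p =
        (1 / s) * ∑ a, lap y (fun q => y q (Sum.inr a)) p * y p (Sum.inr a) := by
      rw [Finset.mul_sum]; exact Finset.sum_congr rfl fun a _ => by ring
    rw [this, h1]; ring
  rw [h3]
  simp only [n1, n2, Sum.elim_inr, zero_mul, zero_add]
  field_simp

end SphProd

end

end Pool.Agent.TH842.Dup
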