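import Pool.Agent.TH842.Dup.Geo4

set_option autoImplicit false
set_option linter.unusedSectionVars false

namespace Pool.Agent.TH842.Dup

open Matrix

noncomputable section

section Mob

variable {ι κ : Type} [Fintype ι] [DecidableEq ι] [Fintype κ]

/-- `|v|²` -/
def nsq (v : κ → ℝ) : ℝ := ∑ a, v a * v a

/-- The Möbius transformation `φ_v(z) = v + (1 - |v|²) (z + v) / |z + v|²` applied to `y`.  It maps
the unit sphere to itself when `|v| < 1`. -/
def mob (v : κ → ℝ) (y : (ι → ℝ) → (κ → ℝ)) : (ι → ℝ) → (κ → ℝ) :=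
  fun q a => v a + (1 - nsq v) * (y q a + v a) / nsq (fun b => y q b + v b)

/-- linear functions of `y` -/
def lin (V : κ → ℝ) (y : (ι → ℝ) → (κ → ℝ)) (q : ι → ℝ) : ℝ := ∑ a, V a * y q a

variable {U : Set (ι → ℝ)} {y : (ι → ℝ) → (κ → ℝ)}

theorem nsq_nonneg (v : κ → ℝ) : 0 ≤ nsq v := Finset.sum_nonneg fun _ _ => mul_self_nonneg _

theorem nsq_eq_zero {v : κ → ℝ} (h : nsq v = 0) : v = 0 := by
  funext a
  have := (Finset.sum_eq_zero_iff_of_nonneg (fun _ _ => mul_self_nonneg _)).mp h a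
    (Finset.mem_univ a)
  simpa using this

theorem F_eq {v : κ → ℝ} {q : ι → ℝ} (hy : nsq (y q) = 1) :
    nsq (fun b => y q b + v b) = 1 + nsq v + 2 * lin v y q := by
  rw [← hy]
  unfold nsq lin
  rw [Finset.mul_sum, ← Finset.sum_add_distrib, ← Finset.sum_add_distrib]
  exact Finset.sum_congr rfl fun a _ => by ring

theorem F_pos {v : κ → ℝ} (hv : nsq v < 1) {q : ι → ℝ} (hy : nsq (y q) = 1) :
    0 < nsq (fun b => y q b + v b) := by
  refine lt_of_le_of_ne (nsq_nonneg _) fun h => ?_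
  have h1 := nsq_eq_zero h.symm
  have h2 : y q = fun b => -v b := by
    funext b
    have := congrFun h1 b
    simp only [Pi.zero_apply] at this
    linarith
  rw [h2] at hy
  unfold nsq at hy hv
  simp only [neg_mul_neg] at hy
  linarith

theorem Imm.sm_lin (H : Imm U y) (V : κ → ℝ) : Sm U (lin V y) :=
  Sm.sum _ fun a _ => contDiffOn_const.mul (H.sm a)

theorem Imm.pd_lin (H : Imm U y) (V : κ → ℝ) {p : ι → ℝ} (hp : p ∈ U) (j : ι) :
    pd j (lin V y) p = ∑ a, V a * dx y j p a := by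
  unfold lin
  rw [pd_sum H.isOpen _ (fun a _ => contDiffOn_const.mul (H.sm a)) hp]
  refine Finset.sum_congr rfl fun a _ => ?_
  rw [pd_mul H.isOpen contDiffOn_const (H.sm a) hp, pd_const]
  change 0 * _ + V a * dx y j p a = _
  ring

theorem Imm.sm_F (H : Imm U y) (v : κ → ℝ) : Sm U (fun q => nsq (fun b => y q b + v b)) :=
  Sm.sum _ fun a _ => ((H.sm a).add contDiffOn_const).mul ((H.sm a).add contDiffOn_const)

theorem Imm.pd_F (H : Imm U y) (v : κ → ℝ) {p : ι → ℝ} (hp : p ∈ U) (j : ι) :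
    pd j (fun q => nsq (fun b => y q b + v b)) p = 2 * ∑ a, (y p a + v a) * dx y j p a := by
  have hs : ∀ a, Sm U (fun q => y q a + v a) := fun a => (H.sm a).add contDiffOn_const
  unfold nsq
  rw [pd_sum H.isOpen _ (fun a _ => (hs a).mul (hs a)) hp, Finset.mul_sum]
  refine Finset.sum_congr rfl fun a _ => ?_
  rw [pd_mul H.isOpen (hs a) (hs a) hp]
  have : pd j (fun q => y q a + v a) p = dx y j p a := by
    rw [pd_add H.isOpen (H.sm a) contDiffOn_const hp, pd_const, add_zero]; rfl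
  rw [this]
  ring

variable {v : κ → ℝ}

theorem Imm.sm_mob (H : Imm U y) (hv : nsq v < 1) (hy : ∀ q ∈ U, nsq (y q) = 1) (a : κ) :
    Sm U (fun q => mob v y q a) := by
  unfold mob
  refine contDiffOn_const.add ((contDiffOn_const.mul ((H.sm a).add contDiffOn_const)).div
    (H.sm_F v) fun q hq => (F_pos hv (hy q hq)).ne')

theorem Imm.dx_mob (H : Imm U y) (hv : nsq v < 1) (hy : ∀ q ∈ U, nsq (y q) = 1) {p : ι → ℝ}
    (hp : p ∈ U) (j : ι) (a : κ) :
    dx (mob v y) j p a = (1 - nsq v) * (dx y j p a / nsq (fun b => y p b + v b) -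
      (y p a + v a) * pd j (fun q => nsq (fun b => y q b + v b)) p /
        nsq (fun b => y p b + v b) ^ 2) := by
  have hF := (F_pos hv (hy p hp)).ne'
  have h1 : HP j (fun q => y q a + v a) p (dx y j p a) :=
    (((H.sm a).hp H.isOpen hp j).add (HP.const (v a))).congr_d (add_zero _)
  have h2 := (H.sm_F v).hp H.isOpen hp j
  have h3 : HP j (fun q => (nsq (fun b => y q b + v b))⁻¹) p
      (-(nsq (fun b => y p b + v b) ^ 2)⁻¹ * pd j (fun q => nsq (fun b => y q b + v b)) p) :=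
    HP.comp (f := fun q => nsq (fun b => y q b + v b)) (hasDerivAt_inv hF) h2
  have h4 := (HP.const (i := j) (p := p) (v a)).add
    ((HP.const (i := j) (p := p) (1 - nsq v)).mul (h1.mul h3))
  have h5 : (fun q => v a + (1 - nsq v) * ((y q a + v a) * (nsq (fun b => y q b + v b))⁻¹)) =
      fun q => mob v y q a := by
    funext q
    unfold mob
    rw [div_eq_mul_inv, mul_assoc]
  rw [h5] at h4
  change pd j (fun q => mob v y q a) p = _
  rw [h4.pd]
  field_simp
  ring

theorem Imm.gram_mob (H : Imm U y) (hv : nsq v < 1) (hy : ∀ q ∈ U, nsq (y q) = 1) {p : ι → ℝ}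
    (hp : p ∈ U) : gram (mob v y) p =
      ((1 - nsq v) / nsq (fun b => y p b + v b)) ^ 2 • gram y p := by
  have hF := (F_pos hv (hy p hp)).ne'
  ext i j
  simp only [Matrix.smul_apply, smul_eq_mul]
  unfold gram dotProduct
  set F := nsq (fun b => y p b + v b) with hFd
  set u : κ → ℝ := fun a => y p a + v a with hu
  set c := 1 - nsq v with hc
  have hi := H.pd_F v hp i
  have hj := H.pd_F v hp j
  simp only [H.dx_mob hv hy hp]
  rw [hi, hj]
  set Di := ∑ a, (y p a + v a) * dx y i p a with hDi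
  set Dj := ∑ a, (y p a + v a) * dx y j p a with hDj
  have e : ∀ a, c * (dx y i p a / F - (y p a + v a) * (2 * Di) / F ^ 2) *
      (c * (dx y j p a / F - (y p a + v a) * (2 * Dj) / F ^ 2)) =
      c ^ 2 / F ^ 2 * (dx y i p a * dx y j p a) -
      (2 * c ^ 2 * Dj / F ^ 3) * ((y p a + v a) * dx y i p a) -
      (2 * c ^ 2 * Di / F ^ 3) * ((y p a + v a) * dx y j p a) +
      (4 * c ^ 2 * Di * Dj / F ^ 4) * ((y p a + v a) * (y p a + v a)) := by
    intro a
    field_simp
    ring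
  rw [Finset.sum_congr rfl fun a _ => e a, Finset.sum_add_distrib, Finset.sum_sub_distrib,
    Finset.sum_sub_distrib, ← Finset.mul_sum, ← Finset.mul_sum, ← Finset.mul_sum,
    ← Finset.mul_sum, ← hDi, ← hDj]
  have hFF : ∑ a, (y p a + v a) * (y p a + v a) = F := rfl
  rw [hFF]
  field_simp
  ring

theorem Imm.mobImm (H : Imm U y) (hv : nsq v < 1) (hy : ∀ q ∈ U, nsq (y q) = 1) :
    Imm U (mob v y) where
  isOpen := H.isOpen
  sm := H.sm_mob hv hy
  det_pos := fun p hp => by
    rw [H.gram_mob hv hy hp, Matrix.det_smul]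
    have h1 := F_pos hv (hy p hp)
    have h2 : 0 < 1 - nsq v := by linarith
    have h3 := H.det_pos p hp
    positivity

end Mob

variable {ι κ₁ κ₂ : Type} [Fintype ι] [DecidableEq ι] [Fintype κ₁] [Fintype κ₂]
  [DecidableEq κ₁] [DecidableEq κ₂]
variable {U : Set (ι → ℝ)} {y : (ι → ℝ) → (κ₁ ⊕ κ₂ → ℝ)} {r s : ℝ}

namespace SphProd

variable (S : SphProd U y r s)
include S

theorem Gam_lin_lin (V V' : κ₁ ⊕ κ₂ → ℝ) {p : ι → ℝ} (hp : p ∈ U) :
    Gam y (lin V y) (lin V' y) p = ∑ a, V a * V' a -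
      (∑ a, V a * n1 y r p a) * (∑ a, V' a * n1 y r p a) -
      (∑ a, V a * n2 y s p a) * (∑ a, V' a * n2 y s p a) := by
  unfold Gam
  simp only [S.imm.pd_lin _ hp]
  have e1 : ∑ i, ∑ j, (gram y p)⁻¹ i j * ((∑ a, V a * dx y i p a) * ∑ b, V' b * dx y j p b) =
      ∑ a, ∑ b, V a * V' b * ∑ i, ∑ j, (gram y p)⁻¹ i j * (dx y i p a * dx y j p b) := by
    have q1 : ∀ i j, (gram y p)⁻¹ i j * ((∑ a, V a * dx y i p a) * ∑ b, V' b * dx y j p b) =
        ∑ a, ∑ b, (gram y p)⁻¹ i j * (V a * dx y i p a * (V' b * dx y j p b)) := by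
      intro i j
      rw [Finset.sum_mul_sum, Finset.mul_sum]
      exact Finset.sum_congr rfl fun a _ => by rw [Finset.mul_sum]
    have q2 : ∀ a b, V a * V' b * ∑ i, ∑ j, (gram y p)⁻¹ i j * (dx y i p a * dx y j p b) =
        ∑ i, ∑ j, (gram y p)⁻¹ i j * (V a * dx y i p a * (V' b * dx y j p b)) := by
      intro a b
      rw [Finset.mul_sum]
      refine Finset.sum_congr rfl fun i _ => ?_
      rw [Finset.mul_sum]
      exact Finset.sum_congr rfl fun j _ => by ring
    simp only [q1, q2]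
    calc _ = ∑ i, ∑ a, ∑ j, ∑ b, (gram y p)⁻¹ i j * (V a * dx y i p a * (V' b * dx y j p b)) :=
          Finset.sum_congr rfl fun i _ => Finset.sum_comm
      _ = ∑ i, ∑ a, ∑ b, ∑ j, (gram y p)⁻¹ i j * (V a * dx y i p a * (V' b * dx y j p b)) :=
          Finset.sum_congr rfl fun i _ => Finset.sum_congr rfl fun a _ => Finset.sum_comm
      _ = ∑ a, ∑ i, ∑ b, ∑ j, (gram y p)⁻¹ i j * (V a * dx y i p a * (V' b * dx y j p b)) :=
          Finset.sum_comm
      _ = _ := Finset.sum_congr rfl fun a _ => Finset.sum_comm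
  rw [e1]
  have e2 : ∀ a b, ∑ i, ∑ j, (gram y p)⁻¹ i j * (dx y i p a * dx y j p b) =
      (if a = b then 1 else 0) - n1 y r p a * n1 y r p b - n2 y s p a * n2 y s p b := by
    intro a b
    have := S.proj hp a b
    linarith
  simp only [e2]
  have e3 : ∀ a, ∑ b, V a * V' b * ((if a = b then 1 else 0) - n1 y r p a * n1 y r p b -
      n2 y s p a * n2 y s p b) = V a * V' a - V a * n1 y r p a * (∑ b, V' b * n1 y r p b) -
      V a * n2 y s p a * (∑ b, V' b * n2 y s p b) := by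
    intro a
    rw [Finset.mul_sum, Finset.mul_sum]
    have : V a * V' a = ∑ b, (if a = b then V a * V' b else 0) := by simp
    rw [this, ← Finset.sum_sub_distrib, ← Finset.sum_sub_distrib]
    refine Finset.sum_congr rfl fun b _ => ?_
    split_ifs <;> ring
  simp only [e3]
  rw [Finset.sum_sub_distrib, Finset.sum_sub_distrib, ← Finset.sum_mul, ← Finset.sum_mul]

end SphProd

end

end Pool.Agent.TH842.Dup
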