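import Pool.Agent.TH842.Dup.Geo5

set_option autoImplicit false
set_option linter.unusedSectionVars false

namespace Pool.Agent.TH842.Dup

open Matrix

noncomputable section

section Ev

variable {ι : Type} [Fintype ι] [DecidableEq ι] {U : Set (ι → ℝ)}

/-- evaluation of a polynomial in two functions -/
def ev (a b : (ι → ℝ) → ℝ) (R : MvPolynomial (Fin 2) ℝ) (q : ι → ℝ) : ℝ :=
  MvPolynomial.eval ![a q, b q] R

theorem ev_add (a b : (ι → ℝ) → ℝ) (R R' : MvPolynomial (Fin 2) ℝ) (q : ι → ℝ) :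
    ev a b (R + R') q = ev a b R q + ev a b R' q := map_add _ _ _

theorem ev_mul (a b : (ι → ℝ) → ℝ) (R R' : MvPolynomial (Fin 2) ℝ) (q : ι → ℝ) :
    ev a b (R * R') q = ev a b R q * ev a b R' q := map_mul _ _ _

theorem ev_C (a b : (ι → ℝ) → ℝ) (c : ℝ) (q : ι → ℝ) : ev a b (MvPolynomial.C c) q = c :=
  MvPolynomial.eval_C _

theorem ev_X0 (a b : (ι → ℝ) → ℝ) (q : ι → ℝ) : ev a b (MvPolynomial.X 0) q = a q := by
  simp [ev]

theorem ev_X1 (a b : (ι → ℝ) → ℝ) (q : ι → ℝ) : ev a b (MvPolynomial.X 1) q = b q := by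
  simp [ev]

theorem sm_ev {a b : (ι → ℝ) → ℝ} (ha : Sm U a) (hb : Sm U b) (R : MvPolynomial (Fin 2) ℝ) :
    Sm U (ev a b R) := by
  induction R using MvPolynomial.induction_on with
  | C c =>
    have : ev a b (MvPolynomial.C c) = fun _ => c := by funext q; exact ev_C a b c q
    rw [this]; exact contDiffOn_const
  | add p q hp hq =>
    have : ev a b (p + q) = fun z => ev a b p z + ev a b q z := by
      funext z; exact ev_add a b p q z
    rw [this]; exact hp.add hq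
  | mul_X p i hp =>
    fin_cases i
    · have : ev a b (p * MvPolynomial.X 0) = fun z => ev a b p z * a z := by
        funext z; rw [ev_mul, ev_X0]
      change Sm U (ev a b (p * MvPolynomial.X 0))
      rw [this]; exact hp.mul ha
    · have : ev a b (p * MvPolynomial.X 1) = fun z => ev a b p z * b z := by
        funext z; rw [ev_mul, ev_X1]
      change Sm U (ev a b (p * MvPolynomial.X 1))
      rw [this]; exact hp.mul hb

theorem pd_ev (hU : IsOpen U) {a b : (ι → ℝ) → ℝ} (ha : Sm U a) (hb : Sm U b)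
    (R : MvPolynomial (Fin 2) ℝ) {p : ι → ℝ} (hp : p ∈ U) (j : ι) :
    pd j (ev a b R) p = ev a b (MvPolynomial.pderiv 0 R) p * pd j a p +
      ev a b (MvPolynomial.pderiv 1 R) p * pd j b p := by
  induction R using MvPolynomial.induction_on with
  | C c =>
    have : ev a b (MvPolynomial.C c) = fun _ => c := by funext q; exact ev_C a b c q
    rw [this, pd_const]
    simp [ev]
  | add f g hf hg =>
    have : ev a b (f + g) = fun z => ev a b f z + ev a b g z := by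
      funext z; exact ev_add a b f g z
    rw [this, pd_add hU (sm_ev ha hb f) (sm_ev ha hb g) hp, hf, hg, map_add, map_add, ev_add, ev_add]
    ring
  | mul_X f i hf =>
    fin_cases i
    · have : ev a b (f * MvPolynomial.X 0) = fun z => ev a b f z * a z := by
        funext z; rw [ev_mul, ev_X0]
      change pd j (ev a b (f * MvPolynomial.X 0)) p =
        ev a b (MvPolynomial.pderiv 0 (f * MvPolynomial.X 0)) p * pd j a p +
        ev a b (MvPolynomial.pderiv 1 (f * MvPolynomial.X 0)) p * pd j b p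
      rw [this, pd_mul hU (sm_ev ha hb f) ha hp, hf, MvPolynomial.pderiv_mul,
        MvPolynomial.pderiv_mul, MvPolynomial.pderiv_X_self,
        MvPolynomial.pderiv_X_of_ne (by decide : (0 : Fin 2) ≠ 1)]
      simp only [ev_add, ev_mul, ev_X0, mul_one, mul_zero, add_zero]
      ring
    · have : ev a b (f * MvPolynomial.X 1) = fun z => ev a b f z * b z := by
        funext z; rw [ev_mul, ev_X1]
      change pd j (ev a b (f * MvPolynomial.X 1)) p =
        ev a b (MvPolynomial.pderiv 0 (f * MvPolynomial.X 1)) p * pd j a p +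
        ev a b (MvPolynomial.pderiv 1 (f * MvPolynomial.X 1)) p * pd j b p
      rw [this, pd_mul hU (sm_ev ha hb f) hb hp, hf, MvPolynomial.pderiv_mul,
        MvPolynomial.pderiv_mul, MvPolynomial.pderiv_X_self,
        MvPolynomial.pderiv_X_of_ne (by decide : (1 : Fin 2) ≠ 0)]
      simp only [ev_add, ev_mul, ev_X1, mul_one, mul_zero, add_zero]
      ring

/-- the polynomial `F = A + 2 X + 2 Y` -/
def Fp (A : ℝ) : MvPolynomial (Fin 2) ℝ :=
  MvPolynomial.C A + MvPolynomial.C 2 * MvPolynomial.X 0 + MvPolynomial.C 2 * MvPolynomial.X 1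

/-- `|∇a|²` -/
def al (N i : ℝ) (k : Fin 2) : MvPolynomial (Fin 2) ℝ :=
  MvPolynomial.C N - MvPolynomial.C i * (MvPolynomial.X k * MvPolynomial.X k)

/-- `Δ a` -/
def be (P i : ℝ) (k : Fin 2) : MvPolynomial (Fin 2) ℝ :=
  -(MvPolynomial.C (P * i) * MvPolynomial.X k)

/-- the operator `R ↦ F D (R/F)` -/
def Dop (A N₁ N₂ i₁ i₂ P Q : ℝ) (m : ℕ) (R : MvPolynomial (Fin 2) ℝ) : MvPolynomial (Fin 2) ℝ :=
  MvPolynomial.C (4 * ((m : ℝ) + 2)) * ((al N₁ i₁ 0 + al N₂ i₂ 1) * R) +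
  Fp A * (Fp A * (al N₁ i₁ 0 * MvPolynomial.pderiv 0 (MvPolynomial.pderiv 0 R) +
      al N₂ i₂ 1 * MvPolynomial.pderiv 1 (MvPolynomial.pderiv 1 R) +
      be P i₁ 0 * MvPolynomial.pderiv 0 R + be Q i₂ 1 * MvPolynomial.pderiv 1 R) -
    MvPolynomial.C (2 * ((m : ℝ) + 2)) * (al N₁ i₁ 0 * MvPolynomial.pderiv 0 R +
      al N₂ i₂ 1 * MvPolynomial.pderiv 1 R) -
    MvPolynomial.C 2 * ((be P i₁ 0 + be Q i₂ 1) * R))

end Ev

variable {ι κ₁ κ₂ : Type} [Fintype ι] [DecidableEq ι] [Fintype κ₁] [Fintype κ₂]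
  [DecidableEq κ₁] [DecidableEq κ₂]
variable {U : Set (ι → ℝ)} {y : (ι → ℝ) → (κ₁ ⊕ κ₂ → ℝ)} {r s : ℝ} {v : κ₁ ⊕ κ₂ → ℝ}

/-- first part of `v` -/
def V1 (v : κ₁ ⊕ κ₂ → ℝ) : κ₁ ⊕ κ₂ → ℝ := Sum.elim (fun a => v (Sum.inl a)) (fun _ => 0)

/-- second part of `v` -/
def V2 (v : κ₁ ⊕ κ₂ → ℝ) : κ₁ ⊕ κ₂ → ℝ := Sum.elim (fun _ => 0) (fun a => v (Sum.inr a))

/-- squared length of the first part -/
def N1 (v : κ₁ ⊕ κ₂ → ℝ) : ℝ := ∑ a, v (Sum.inl a) * v (Sum.inl a)

/-- squared length of the second part -/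
def N2 (v : κ₁ ⊕ κ₂ → ℝ) : ℝ := ∑ a, v (Sum.inr a) * v (Sum.inr a)

/-- the function `a` -/
abbrev af (v : κ₁ ⊕ κ₂ → ℝ) (y : (ι → ℝ) → (κ₁ ⊕ κ₂ → ℝ)) : (ι → ℝ) → ℝ := lin (V1 v) y

/-- the function `b` -/
abbrev bf (v : κ₁ ⊕ κ₂ → ℝ) (y : (ι → ℝ) → (κ₁ ⊕ κ₂ → ℝ)) : (ι → ℝ) → ℝ := lin (V2 v) y

theorem lin_split (q : ι → ℝ) : lin v y q = af v y q + bf v y q := by
  unfold af bf lin V1 V2
  simp [Fintype.sum_sum_type]

namespace SphProd

variable (S : SphProd U y r s)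
include S

theorem nsq_y (hrs : r * r + s * s = 1) : ∀ q ∈ U, nsq (y q) = 1 := by
  intro q hq
  unfold nsq
  rw [Fintype.sum_sum_type, S.h1 q hq, S.h2 q hq, hrs]

theorem sum_V1_n1 (p : ι → ℝ) : ∑ a, V1 v a * n1 y r p a = af v y p / r := by
  unfold af lin V1 n1
  simp only [Fintype.sum_sum_type, Sum.elim_inl, Sum.elim_inr, mul_zero, zero_mul,
    Finset.sum_const_zero, add_zero, Finset.sum_div]
  exact Finset.sum_congr rfl fun a _ => by ring

theorem sum_V2_n2 (p : ι → ℝ) : ∑ a, V2 v a * n2 y s p a = bf v y p / s := by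
  unfold bf lin V2 n2
  simp only [Fintype.sum_sum_type, Sum.elim_inl, Sum.elim_inr, mul_zero, zero_mul,
    Finset.sum_const_zero, zero_add, Finset.sum_div]
  exact Finset.sum_congr rfl fun a _ => by ring

theorem sum_V1_n2 (p : ι → ℝ) : ∑ a, V1 v a * n2 y s p a = 0 := by
  simp [V1, n2, Fintype.sum_sum_type]

theorem sum_V2_n1 (p : ι → ℝ) : ∑ a, V2 v a * n1 y r p a = 0 := by
  simp [V2, n1, Fintype.sum_sum_type]

theorem Gam_aa {p : ι → ℝ} (hp : p ∈ U) :
    Gam y (af v y) (af v y) p = N1 v - 1 / (r * r) * (af v y p * af v y p) := by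
  have hr := S.rpos.ne'
  rw [S.Gam_lin_lin _ _ hp, S.sum_V1_n1, S.sum_V1_n2]
  have : ∑ a, V1 v a * V1 v a = N1 v := by simp [V1, N1, Fintype.sum_sum_type]
  rw [this]; field_simp; ring

theorem Gam_bb {p : ι → ℝ} (hp : p ∈ U) :
    Gam y (bf v y) (bf v y) p = N2 v - 1 / (s * s) * (bf v y p * bf v y p) := by
  have hs := S.spos.ne'
  rw [S.Gam_lin_lin _ _ hp, S.sum_V2_n1, S.sum_V2_n2]
  have : ∑ a, V2 v a * V2 v a = N2 v := by simp [V2, N2, Fintype.sum_sum_type]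
  rw [this]; field_simp; ring

theorem Gam_ab {p : ι → ℝ} (hp : p ∈ U) : Gam y (af v y) (bf v y) p = 0 := by
  rw [S.Gam_lin_lin _ _ hp, S.sum_V2_n1, S.sum_V1_n2]
  have : ∑ a, V1 v a * V2 v a = 0 := by simp [V1, V2, Fintype.sum_sum_type]
  rw [this]; ring

theorem lap_a {p : ι → ℝ} (hp : p ∈ U) :
    lap y (af v y) p = -(((Fintype.card κ₁ : ℝ) - 1) * (1 / (r * r)) * af v y p) := by
  unfold af lin
  rw [S.imm.lap_sum Finset.univ (V1 v) S.imm.sm hp, Fintype.sum_sum_type, Fintype.sum_sum_type]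
  simp only [V1, Sum.elim_inl, Sum.elim_inr, zero_mul, Finset.sum_const_zero, add_zero]
  rw [Finset.mul_sum, ← Finset.sum_neg_distrib]
  refine Finset.sum_congr rfl fun a _ => ?_
  rw [S.lap_inl hp]; ring

theorem lap_b {p : ι → ℝ} (hp : p ∈ U) :
    lap y (bf v y) p = -(((Fintype.card κ₂ : ℝ) - 1) * (1 / (s * s)) * bf v y p) := by
  unfold bf lin
  rw [S.imm.lap_sum Finset.univ (V2 v) S.imm.sm hp, Fintype.sum_sum_type, Fintype.sum_sum_type]
  simp only [V2, Sum.elim_inl, Sum.elim_inr, zero_mul, Finset.sum_const_zero, zero_add]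
  rw [Finset.mul_sum, ← Finset.sum_neg_distrib]
  refine Finset.sum_congr rfl fun a _ => ?_
  rw [S.lap_inr hp]; ring

/-- the Laplacian of the Möbius image on the functions `R(a,b)/F` -/
theorem lap_ev (hrs : r * r + s * s = 1) (hv : nsq v < 1) {m : ℕ}
    (hm : Fintype.card ι = m + 2) (R : MvPolynomial (Fin 2) ℝ) {p : ι → ℝ} (hp : p ∈ U) :
    (1 - nsq v) ^ 2 * lap (mob v y)
      (fun q => ev (af v y) (bf v y) R q * (ev (af v y) (bf v y) (Fp (1 + nsq v)) q)⁻¹) p =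
    ev (af v y) (bf v y) (Dop (1 + nsq v) (N1 v) (N2 v) (1 / (r * r)) (1 / (s * s))
      ((Fintype.card κ₁ : ℝ) - 1) ((Fintype.card κ₂ : ℝ) - 1) m R) p *
      (ev (af v y) (bf v y) (Fp (1 + nsq v)) p)⁻¹ := by
  have H := S.imm
  have hU := H.isOpen
  have hy := S.nsq_y hrs
  set a := af v y with ha
  set b := bf v y with hb
  have sa : Sm U a := H.sm_lin _
  have sb : Sm U b := H.sm_lin _
  set F : (ι → ℝ) → ℝ := ev a b (Fp (1 + nsq v)) with hF
  have hFev : ∀ q, F q = 1 + nsq v + 2 * a q + 2 * b q := by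
    intro q
    rw [hF]
    simp only [Fp, ev_add, ev_mul, ev_C, ev_X0, ev_X1]
  have hFn : ∀ q ∈ U, F q = nsq (fun k => y q k + v k) := by
    intro q hq
    rw [hFev, F_eq (hy q hq), lin_split]
    ring
  have hFp : ∀ q ∈ U, 0 < F q := fun q hq => by rw [hFn q hq]; exact F_pos hv (hy q hq)
  have hFne : ∀ q ∈ U, F q ≠ 0 := fun q hq => (hFp q hq).ne'
  have sF : Sm U F := sm_ev sa sb _
  have sG : Sm U (fun q => (F q)⁻¹) := sF.inv hFne
  have hdF : ∀ q ∈ U, ∀ j, pd j F q = 2 * pd j a q + 2 * pd j b q := by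
    intro q hq j
    have h1 : pd j F q = pd j (fun q => 1 + nsq v + 2 * a q + 2 * b q) q :=
      pd_congr hU hq (fun q _ => hFev q) j
    have h2 := (((HP.const (i := j) (p := q) (1 + nsq v)).add
      ((HP.const (i := j) (p := q) 2).mul (sa.hp hU hq j))).add
      ((HP.const (i := j) (p := q) 2).mul (sb.hp hU hq j))).pd
    rw [h1, h2]; ring
  have hG : ∀ q ∈ U, ∀ j, HP j (fun q => (F q)⁻¹) q
      (-(F q)⁻¹ ^ 2 * (2 * pd j a q + 2 * pd j b q)) := by
    intro q hq j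
    have h1 := HP.comp (hasDerivAt_inv (hFne q hq)) (sF.hp hU hq j)
    refine h1.congr_d ?_
    rw [hdF q hq j]
    field_simp
  set R0 := MvPolynomial.pderiv 0 R with hR0
  set R1 := MvPolynomial.pderiv 1 R with hR1
  have sE : ∀ T, Sm U (ev a b T) := fun T => sm_ev sa sb T
  have hE : ∀ T, ∀ q ∈ U, ∀ j, HP j (ev a b T) q
      (ev a b (MvPolynomial.pderiv 0 T) q * pd j a q +
        ev a b (MvPolynomial.pderiv 1 T) q * pd j b q) := by
    intro T q hq j
    have h1 := (sE T).hp hU hq j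
    rwa [pd_ev hU sa sb T hq j] at h1
  have J : Jet U a b (fun q => ev a b R q * (F q)⁻¹)
      (fun q => ev a b R0 q * (F q)⁻¹ - 2 * (ev a b R q * ((F q)⁻¹ * (F q)⁻¹)))
      (fun q => ev a b R1 q * (F q)⁻¹ - 2 * (ev a b R q * ((F q)⁻¹ * (F q)⁻¹)))
      (fun q => ev a b (MvPolynomial.pderiv 0 R0) q * (F q)⁻¹ - 4 * ev a b R0 q * (F q)⁻¹ ^ 2 +
        8 * ev a b R q * (F q)⁻¹ ^ 3)
      (fun q => ev a b (MvPolynomial.pderiv 1 R0) q * (F q)⁻¹ - 2 * ev a b R0 q * (F q)⁻¹ ^ 2 -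
        2 * ev a b R1 q * (F q)⁻¹ ^ 2 + 8 * ev a b R q * (F q)⁻¹ ^ 3)
      (fun q => ev a b (MvPolynomial.pderiv 0 R1) q * (F q)⁻¹ - 2 * ev a b R0 q * (F q)⁻¹ ^ 2 -
        2 * ev a b R1 q * (F q)⁻¹ ^ 2 + 8 * ev a b R q * (F q)⁻¹ ^ 3)
      (fun q => ev a b (MvPolynomial.pderiv 1 R1) q * (F q)⁻¹ - 4 * ev a b R1 q * (F q)⁻¹ ^ 2 +
        8 * ev a b R q * (F q)⁻¹ ^ 3) := by
    refine ⟨(sE R).mul sG, ((sE R0).mul sG).sub (contDiffOn_const.mul ((sE R).mul (sG.mul sG))),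
      ((sE R1).mul sG).sub (contDiffOn_const.mul ((sE R).mul (sG.mul sG))), ?_, ?_, ?_⟩
    · intro q hq j
      rw [((hE R q hq j).mul (hG q hq j)).pd]
      ring
    · intro q hq j
      rw [(((hE R0 q hq j).mul (hG q hq j)).sub ((HP.const 2).mul
        ((hE R q hq j).mul ((hG q hq j).mul (hG q hq j))))).pd]
      ring
    · intro q hq j
      rw [(((hE R1 q hq j).mul (hG q hq j)).sub ((HP.const 2).mul
        ((hE R q hq j).mul ((hG q hq j).mul (hG q hq j))))).pd]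
      ring
  have hg : ∀ q ∈ U, gram (mob v y) q = ((1 - nsq v) / F q) ^ 2 • gram y q := by
    intro q hq
    rw [H.gram_mob hv hy hq, hFn q hq]
  have hc : 0 < 1 - nsq v := by linarith
  rw [lap_conformal H hm hc sF hFp hg J.sh hp, H.lap_jet J sa sb hp]
  have hGF : Gam y F (fun q => ev a b R q * (F q)⁻¹) p =
      2 * ((ev a b R0 p * (F p)⁻¹ - 2 * (ev a b R p * ((F p)⁻¹ * (F p)⁻¹))) * Gam y a a p) +
      2 * ((ev a b R1 p * (F p)⁻¹ - 2 * (ev a b R p * ((F p)⁻¹ * (F p)⁻¹))) * Gam y b b p) := by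
    rw [Gam_lin (hdF p hp), Gam_comm y a, Gam_comm y b, Gam_lin (J.d0 p hp), Gam_lin (J.d0 p hp)]
    rw [Gam_comm y b a, S.Gam_ab hp]
    ring
  rw [hGF, S.Gam_ab hp, S.Gam_aa hp, S.Gam_bb hp, S.lap_a hp, S.lap_b hp]
  have hFpp := hFne p hp
  have e : ev a b (Dop (1 + nsq v) (N1 v) (N2 v) (1 / (r * r)) (1 / (s * s))
      ((Fintype.card κ₁ : ℝ) - 1) ((Fintype.card κ₂ : ℝ) - 1) m R) p =
      4 * (m + 2) * ((N1 v - 1 / (r * r) * (a p * a p)) + (N2 v - 1 / (s * s) * (b p * b p))) *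
        ev a b R p +
      F p * (F p * ((N1 v - 1 / (r * r) * (a p * a p)) *
          ev a b (MvPolynomial.pderiv 0 R0) p +
        (N2 v - 1 / (s * s) * (b p * b p)) * ev a b (MvPolynomial.pderiv 1 R1) p -
        ((Fintype.card κ₁ : ℝ) - 1) * (1 / (r * r)) * a p * ev a b R0 p -
        ((Fintype.card κ₂ : ℝ) - 1) * (1 / (s * s)) * b p * ev a b R1 p) -
        2 * (m + 2) * ((N1 v - 1 / (r * r) * (a p * a p)) * ev a b R0 p +
          (N2 v - 1 / (s * s) * (b p * b p)) * ev a b R1 p) +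
        2 * (((Fintype.card κ₁ : ℝ) - 1) * (1 / (r * r)) * a p +
          ((Fintype.card κ₂ : ℝ) - 1) * (1 / (s * s)) * b p) * ev a b R p) := by
    have hsub : ∀ T T', ev a b (T - T') p = ev a b T p - ev a b T' p := fun T T' => map_sub _ _ _
    have hneg : ∀ T, ev a b (-T) p = -ev a b T p := fun T => map_neg _ _
    simp only [Dop, al, be, ev_add, ev_mul, ev_C, ev_X0, ev_X1, hsub, hneg, ← hR0, ← hR1, ← hF]
    ring
  rw [e]
  field_simp
  ring

end SphProd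

end

end Pool.Agent.TH842.Dup
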