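import Pool.Agent.TH842.Dup.Alg2

set_option autoImplicit false
set_option linter.unusedSectionVars false

namespace Pool.Agent.TH842.Dup

open Matrix

noncomputable section

variable {ι κ₁ κ₂ : Type} [Fintype ι] [DecidableEq ι] [Fintype κ₁] [Fintype κ₂]
  [DecidableEq κ₁] [DecidableEq κ₂]
variable {U : Set (ι → ℝ)} {y : (ι → ℝ) → (κ₁ ⊕ κ₂ → ℝ)} {r s : ℝ} {v : κ₁ ⊕ κ₂ → ℝ}

theorem lap_const {κ : Type} [Fintype κ] (x : (ι → ℝ) → (κ → ℝ)) (c : ℝ) (p : ι → ℝ) :
    lap x (fun _ => c) p = 0 := by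
  rw [lap_eq]
  have h : ∀ i, flux x (fun _ => c) i = fun _ => 0 := by
    intro i; funext q
    unfold flux
    simp [pd_const]
  simp [h, pd_const]

/-- the operator attached to the data -/
def DD (κ₁ κ₂ : Type) [Fintype κ₁] [Fintype κ₂] (v : κ₁ ⊕ κ₂ → ℝ) (r s : ℝ) (m : ℕ) :
    MvPolynomial (Fin 2) ℝ → MvPolynomial (Fin 2) ℝ :=
  Dop (1 + nsq v) (N1 v) (N2 v) (1 / (r * r)) (1 / (s * s))
    ((Fintype.card κ₁ : ℝ) - 1) ((Fintype.card κ₂ : ℝ) - 1) m

theorem SphProd.relation (S : SphProd U y r s) (hrs : r * r + s * s = 1) (hv : nsq v < 1) {m k : ℕ}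
    (hm : Fintype.card ι = m + 2) (hx : IsKType k U (mob v y)) :
    ∃ T : Polynomial ℝ, T ≠ 0 ∧ ∀ p ∈ U, ev (af v y) (bf v y)
      (∑ j ∈ Finset.range (T.natDegree + 1),
        MvPolynomial.C (T.coeff j) * (DD κ₁ κ₂ v r s m)^[j] 1) p = 0 := by
  obtain ⟨c0, f, l, -, hsm, -, hlap, hsum⟩ := hx
  have H := S.imm
  have hU := H.isOpen
  have hy := S.nsq_y hrs
  have HX := H.mobImm hv hy
  set c := 1 - nsq v with hc
  have hcp : 0 < c := by rw [hc]; linarith
  set x := mob v y with hxd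
  set a := af v y with ha
  set b := bf v y with hb
  have sa : Sm U a := H.sm_lin _
  have sb : Sm U b := H.sm_lin _
  set φ : Option (Fin k) → (ι → ℝ) → ℝ := fun o =>
    o.elim (fun _ => 1) (fun a => fun q => ∑ t, v t * f a q t) with hφ
  set μ : Option (Fin k) → ℝ := fun o => o.elim 0 (fun a => c ^ 2 * l a) with hμ
  set w : Option (Fin k) → ℝ := fun o =>
    o.elim (2 / c ^ 2 * (nsq v + c / 2 - ∑ t, v t * c0 t)) (fun _ => -(2 / c ^ 2)) with hw
  have sφ : ∀ o, Sm U (φ o) := by
    intro o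
    rcases o with _ | a
    · exact contDiffOn_const
    · exact Sm.sum _ fun t _ => contDiffOn_const.mul (hsm a t)
  have hlapφ : ∀ o, ∀ p ∈ U, c ^ 2 * lap x (φ o) p = μ o * φ o p := by
    intro o p hp
    rcases o with _ | a
    · change c ^ 2 * lap x (fun _ => 1) p = 0 * 1
      rw [lap_const]; ring
    · change c ^ 2 * lap x (fun q => ∑ t, v t * f a q t) p = c ^ 2 * l a * ∑ t, v t * f a p t
      rw [HX.lap_sum Finset.univ v (f := fun t q => f a q t) (fun t => hsm a t) hp]
      simp only [hlap a _ p hp]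
      rw [mul_assoc, Finset.mul_sum (a := l a)]
      congr 1
      exact Finset.sum_congr rfl fun t _ => by ring
  have hFev : ∀ q, ev a b (Fp (1 + nsq v)) q = 1 + nsq v + 2 * lin v y q := by
    intro q
    rw [lin_split]
    simp only [Fp, ev_add, ev_mul, ev_C, ev_X0, ev_X1, ha, hb]
    ring
  have hFn : ∀ q ∈ U, ev a b (Fp (1 + nsq v)) q = nsq (fun k => y q k + v k) := by
    intro q hq
    rw [hFev, F_eq (hy q hq)]
  have hFpos : ∀ q ∈ U, 0 < ev a b (Fp (1 + nsq v)) q := fun q hq => by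
    rw [hFn q hq]; exact F_pos hv (hy q hq)
  have h0 : ∀ p ∈ U, (ev a b (Fp (1 + nsq v)) p)⁻¹ = ∑ o, w o * φ o p := by
    intro p hp
    have hFp := (hFpos p hp).ne'
    have h1 : ∑ t, v t * x p t = nsq v + c / 2 - c ^ 2 / (2 * ev a b (Fp (1 + nsq v)) p) := by
      have h2 : ∑ t, v t * x p t = nsq v + c / ev a b (Fp (1 + nsq v)) p *
          (lin v y p + nsq v) := by
        have h3 : ∀ t, v t * x p t = v t * v t + c / ev a b (Fp (1 + nsq v)) p *
            (v t * y p t + v t * v t) := by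
          intro t
          rw [hxd]
          unfold mob
          rw [← hFn p hp, ← hc]
          ring
        simp only [h3]
        rw [Finset.sum_add_distrib, ← Finset.mul_sum, Finset.sum_add_distrib]
        rfl
      have h4 : lin v y p = (ev a b (Fp (1 + nsq v)) p - 1 - nsq v) / 2 := by
        rw [hFev]; ring
      rw [h2, h4]
      field_simp
      rw [hc]
      ring
    have h5 : ∑ t, v t * x p t = ∑ t, v t * c0 t + ∑ a, φ (some a) p := by
      rw [hsum p hp]
      simp only [Pi.add_apply, Finset.sum_apply, mul_add, Finset.sum_add_distrib]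
      congr 1
      change _ = ∑ a, ∑ t, v t * f a p t
      rw [Finset.sum_comm]
      exact Finset.sum_congr rfl fun t _ => by rw [Finset.mul_sum]
    rw [Fintype.sum_option]
    have h6 : ∑ a, w (some a) * φ (some a) p = -(2 / c ^ 2) * ∑ a, φ (some a) p := by
      rw [Finset.mul_sum]; rfl
    rw [h6]
    change _ = 2 / c ^ 2 * (nsq v + c / 2 - ∑ t, v t * c0 t) * 1 + _
    have h7 : ∑ a, φ (some a) p = nsq v + c / 2 - c ^ 2 / (2 * ev a b (Fp (1 + nsq v)) p) -
        ∑ t, v t * c0 t := by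
      rw [← h1, h5]; ring
    rw [h7]
    field_simp
    ring
  have hind : ∀ j, ∀ p ∈ U, ev a b ((DD κ₁ κ₂ v r s m)^[j] 1) p *
      (ev a b (Fp (1 + nsq v)) p)⁻¹ = ∑ o, w o * μ o ^ j * φ o p := by
    intro j
    induction j with
    | zero =>
      intro p hp
      have : ev a b (1 : MvPolynomial (Fin 2) ℝ) p = 1 := map_one _
      simp only [Function.iterate_zero, id, this, one_mul, pow_zero, mul_one]
      exact h0 p hp
    | succ j ih =>
      intro p hp
      rw [Function.iterate_succ_apply']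
      have h1 := S.lap_ev hrs hv hm ((DD κ₁ κ₂ v r s m)^[j] 1) hp
      change c ^ 2 * lap x _ p = ev a b (DD κ₁ κ₂ v r s m ((DD κ₁ κ₂ v r s m)^[j] 1)) p * _ at h1
      rw [← h1]
      have h2 : lap x (fun q => ev a b ((DD κ₁ κ₂ v r s m)^[j] 1) q *
          (ev a b (Fp (1 + nsq v)) q)⁻¹) p =
          lap x (fun q => ∑ o, (w o * μ o ^ j) * φ o q) p := lap_congr hU ih hp
      rw [h2, HX.lap_sum Finset.univ (fun o => w o * μ o ^ j) sφ hp, Finset.mul_sum]
      refine Finset.sum_congr rfl fun o _ => ?_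
      have h3 := hlapφ o p hp
      calc c ^ 2 * (w o * μ o ^ j * lap x (φ o) p) = w o * μ o ^ j * (c ^ 2 * lap x (φ o) p) := by
            ring
        _ = _ := by rw [h3, pow_succ]; ring
  refine ⟨∏ o, (Polynomial.X - Polynomial.C (μ o)), ?_, ?_⟩
  · exact (Polynomial.monic_prod_of_monic _ _ fun o _ => Polynomial.monic_X_sub_C _).ne_zero
  · intro p hp
    set T : Polynomial ℝ := ∏ o, (Polynomial.X - Polynomial.C (μ o)) with hT
    have hFp := (hFpos p hp).ne'
    have h1 : ev a b (∑ j ∈ Finset.range (T.natDegree + 1),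
        MvPolynomial.C (T.coeff j) * (DD κ₁ κ₂ v r s m)^[j] 1) p =
        ∑ j ∈ Finset.range (T.natDegree + 1), T.coeff j * ev a b ((DD κ₁ κ₂ v r s m)^[j] 1) p := by
      unfold ev
      rw [map_sum]
      exact Finset.sum_congr rfl fun j _ => by rw [map_mul, MvPolynomial.eval_C]
    rw [h1]
    have h2 : (∑ j ∈ Finset.range (T.natDegree + 1),
        T.coeff j * ev a b ((DD κ₁ κ₂ v r s m)^[j] 1) p) * (ev a b (Fp (1 + nsq v)) p)⁻¹ = 0 := by
      rw [Finset.sum_mul]
      have h3 : ∀ j ∈ Finset.range (T.natDegree + 1),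
          T.coeff j * ev a b ((DD κ₁ κ₂ v r s m)^[j] 1) p * (ev a b (Fp (1 + nsq v)) p)⁻¹ =
          ∑ o, w o * φ o p * (T.coeff j * μ o ^ j) := by
        intro j _
        rw [mul_assoc, hind j p hp, Finset.mul_sum]
        exact Finset.sum_congr rfl fun o _ => by ring
      rw [Finset.sum_congr rfl h3, Finset.sum_comm]
      refine Finset.sum_eq_zero fun o _ => ?_
      rw [← Finset.mul_sum, ← Polynomial.eval_eq_sum_range]
      have : T.eval (μ o) = 0 := by
        rw [hT, Polynomial.eval_prod]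
        exact Finset.prod_eq_zero (Finset.mem_univ o) (by simp)
      rw [this, mul_zero]
    exact (mul_eq_zero.mp h2).resolve_right (inv_ne_zero hFp)

end

end Pool.Agent.TH842.Dup
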